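import Mathlib

set_option autoImplicit false

/-!
# Kakeya near surfaces: the row sum criterion and Hölder's inequality
-/

open Set MeasureTheory ENNReal

namespace Pool.Agent.H28.SM

theorem mul_le_lam (a b lam : ℝ≥0∞) (h0 : lam ≠ 0) (hT : lam ≠ ∞) :
    a * b ≤ lam * a ^ 2 + lam⁻¹ * b ^ 2 := by
  rcases le_total (lam * a) b with h | h
  · refine le_trans ?_ le_add_self
    have h1 : a ≤ lam⁻¹ * b := by
      rw [← ENNReal.div_eq_inv_mul, ENNReal.le_div_iff_mul_le (Or.inl h0) (Or.inl hT), mul_comm]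
      exact h
    calc a * b ≤ (lam⁻¹ * b) * b := by gcongr
      _ = lam⁻¹ * b ^ 2 := by ring
  · refine le_trans ?_ le_self_add
    calc a * b ≤ a * (lam * a) := by gcongr
      _ = lam * a ^ 2 := by ring

theorem mul_le_sq_add_sq (a b : ℝ≥0∞) : a * b ≤ a ^ 2 + b ^ 2 := by
  have := mul_le_lam a b 1 one_ne_zero one_ne_top
  simpa using this

theorem schur {Ω ι : Type*} [MeasurableSpace Ω] (μ : Measure Ω) (s : Finset ι) (T : ι → Set Ω)
    (hT : ∀ i, MeasurableSet (T i)) (ρ : ℝ≥0∞) (hρ : ρ ≠ ∞)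
    (h : ∀ i ∈ s, ∑ j ∈ s, μ (T i ∩ T j) ≤ ρ) (g : Ω → ℝ≥0∞) (hg : Measurable g) :
    ∑ i ∈ s, (∫⁻ x in T i, g x ∂μ) ^ 2 ≤ 8 * ρ * ∫⁻ x, g x ^ 2 ∂μ := by
  classical
  have hTi : ∀ i ∈ s, μ (T i) ≤ ρ := by
    intro i hi
    refine le_trans ?_ (h i hi)
    calc μ (T i) = μ (T i ∩ T i) := by rw [inter_self]
      _ ≤ _ := Finset.single_le_sum (f := fun j => μ (T i ∩ T j)) (fun j _ => zero_le) hi
  rcases eq_or_ne ρ 0 with h0 | h0
  · have : ∀ i ∈ s, (∫⁻ x in T i, g x ∂μ) ^ 2 = 0 := by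
      intro i hi
      have h1 := hTi i hi
      rw [h0] at h1
      have h2 : μ (T i) = 0 := le_antisymm h1 zero_le
      rw [setLIntegral_measure_zero _ _ h2]
      norm_num
    rw [Finset.sum_eq_zero this]
    exact zero_le
  rcases eq_or_ne (∫⁻ x, g x ^ 2 ∂μ) ∞ with h1 | h1
  · rw [h1, ENNReal.mul_top (by positivity)]
    exact le_top
  set X : ι → ℝ≥0∞ := fun i => ∫⁻ x in T i, g x ∂μ with hX
  have hXfin : ∀ i ∈ s, X i ≠ ∞ := by
    intro i hi
    have h2 : X i ≤ μ (T i) + ∫⁻ x, g x ^ 2 ∂μ := by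
      calc X i ≤ ∫⁻ x in T i, (1 + g x ^ 2) ∂μ := by
            apply lintegral_mono
            intro x
            have := mul_le_sq_add_sq 1 (g x)
            simpa using this
        _ = μ (T i) + ∫⁻ x in T i, g x ^ 2 ∂μ := by
            rw [lintegral_add_left measurable_const]
            simp
        _ ≤ _ := add_le_add le_rfl (setLIntegral_le_lintegral _ _)
    refine ne_top_of_le_ne_top ?_ h2
    exact ENNReal.add_ne_top.2 ⟨ne_top_of_le_ne_top hρ (hTi i hi), h1⟩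
  set S := ∑ i ∈ s, X i ^ 2 with hS
  have hSfin : S ≠ ∞ := by
    rw [hS, ENNReal.sum_ne_top]
    intro i hi
    exact ENNReal.pow_ne_top (hXfin i hi)
  set Φ : Ω → ℝ≥0∞ := fun x => ∑ i ∈ s, X i * (T i).indicator 1 x with hΦ
  have hΦm : Measurable Φ := by
    apply Finset.measurable_sum
    intro i _
    exact (measurable_one.indicator (hT i)).const_mul _
  have e1 : S = ∫⁻ x, g x * Φ x ∂μ := by
    have : ∀ x, g x * Φ x = ∑ i ∈ s, X i * (T i).indicator g x := by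
      intro x
      rw [hΦ, Finset.mul_sum]
      apply Finset.sum_congr rfl
      intro i _
      by_cases hx : x ∈ T i
      · simp only [indicator_of_mem hx, Pi.one_apply]; ring
      · simp only [indicator_of_notMem hx]; ring
    simp_rw [this]
    rw [lintegral_finsetSum' _ (fun i _ => ((hg.indicator (hT i)).const_mul _).aemeasurable)]
    rw [hS]
    apply Finset.sum_congr rfl
    intro i _
    rw [lintegral_const_mul _ (hg.indicator (hT i)), lintegral_indicator (hT i), sq]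
  have e2 : ∫⁻ x, Φ x ^ 2 ∂μ ≤ 2 * ρ * S := by
    have : ∀ x, Φ x ^ 2 = ∑ i ∈ s, ∑ j ∈ s, (X i * X j) * (T i ∩ T j).indicator 1 x := by
      intro x
      rw [hΦ, sq, Finset.sum_mul_sum]
      apply Finset.sum_congr rfl
      intro i _
      apply Finset.sum_congr rfl
      intro j _
      by_cases hx : x ∈ T i <;> by_cases hy : x ∈ T j
      · simp [hx, hy]
      · simp [hx, hy]
      · simp [hx, hy]
      · simp [hx, hy]
    simp_rw [this]
    have hm : ∀ i j, Measurable fun x => (X i * X j) * (T i ∩ T j).indicator (1 : Ω → ℝ≥0∞) x :=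
      fun i j => (measurable_one.indicator ((hT i).inter (hT j))).const_mul _
    rw [lintegral_finsetSum' _ (fun i _ => (Finset.measurable_sum _ fun j _ => hm i j).aemeasurable)]
    calc ∑ i ∈ s, ∫⁻ x, ∑ j ∈ s, (X i * X j) * (T i ∩ T j).indicator 1 x ∂μ
        = ∑ i ∈ s, ∑ j ∈ s, (X i * X j) * μ (T i ∩ T j) := by
          apply Finset.sum_congr rfl
          intro i _
          rw [lintegral_finsetSum' _ (fun j _ => (hm i j).aemeasurable)]
          apply Finset.sum_congr rfl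
          intro j _
          rw [lintegral_const_mul _ (measurable_one.indicator ((hT i).inter (hT j))),
            lintegral_indicator_one ((hT i).inter (hT j))]
      _ ≤ ∑ i ∈ s, ∑ j ∈ s, (X i ^ 2 + X j ^ 2) * μ (T i ∩ T j) := by
          gcongr with i _ j _
          exact mul_le_sq_add_sq _ _
      _ = ∑ i ∈ s, X i ^ 2 * ∑ j ∈ s, μ (T i ∩ T j) + ∑ j ∈ s, X j ^ 2 * ∑ i ∈ s, μ (T j ∩ T i) := by
          have : ∑ i ∈ s, ∑ j ∈ s, X j ^ 2 * μ (T i ∩ T j) =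
              ∑ j ∈ s, X j ^ 2 * ∑ i ∈ s, μ (T j ∩ T i) := by
            rw [Finset.sum_comm]
            apply Finset.sum_congr rfl
            intro i _
            rw [Finset.mul_sum]
            apply Finset.sum_congr rfl
            intro j _
            rw [inter_comm]
          simp_rw [add_mul, Finset.sum_add_distrib]
          rw [this]
          congr 1
          apply Finset.sum_congr rfl
          intro i _
          rw [Finset.mul_sum]
      _ ≤ ∑ i ∈ s, X i ^ 2 * ρ + ∑ j ∈ s, X j ^ 2 * ρ := by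
          gcongr with i hi i hi
          · exact h i hi
          · exact h i hi
      _ = 2 * ρ * S := by
          rw [hS, ← Finset.sum_mul]; ring
  have e3 : S ≤ 4 * ρ * ∫⁻ x, g x ^ 2 ∂μ + (4 * ρ)⁻¹ * ∫⁻ x, Φ x ^ 2 ∂μ := by
    rw [e1]
    calc ∫⁻ x, g x * Φ x ∂μ ≤ ∫⁻ x, (4 * ρ * g x ^ 2 + (4 * ρ)⁻¹ * Φ x ^ 2) ∂μ := by
          apply lintegral_mono
          intro x
          exact mul_le_lam _ _ _ (by positivity) (ENNReal.mul_ne_top (by norm_num) hρ)
      _ = _ := by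
          rw [lintegral_add_left ((hg.pow_const 2).const_mul _),
            lintegral_const_mul _ (hg.pow_const 2), lintegral_const_mul _ (hΦm.pow_const 2)]
  have e4 : (4 * ρ)⁻¹ * (2 * ρ * S) = 2⁻¹ * S := by
    have h4 : (4 * ρ)⁻¹ * (2 * ρ) = 2⁻¹ := by
      rw [ENNReal.mul_inv (Or.inl (by norm_num)) (Or.inl (by norm_num))]
      calc (4 : ℝ≥0∞)⁻¹ * ρ⁻¹ * (2 * ρ) = (4⁻¹ * 2) * (ρ⁻¹ * ρ) := by ring
        _ = 4⁻¹ * 2 := by rw [ENNReal.inv_mul_cancel h0 hρ, mul_one]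
        _ = 2⁻¹ := by
            have : (4 : ℝ≥0∞) = 2 * 2 := by norm_num
            rw [this, ENNReal.mul_inv (Or.inl (by norm_num)) (Or.inl (by norm_num)), mul_assoc,
              ENNReal.inv_mul_cancel (by norm_num) (by norm_num), mul_one]
    rw [← mul_assoc, h4]
  have e5 : S ≤ 4 * ρ * ∫⁻ x, g x ^ 2 ∂μ + 2⁻¹ * S := by
    rw [← e4]
    exact e3.trans (by gcongr)
  have e6 : S = 2⁻¹ * S + 2⁻¹ * S := by
    rw [← add_mul, ENNReal.inv_two_add_inv_two, one_mul]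
  have e7 : 2⁻¹ * S ≤ 4 * ρ * ∫⁻ x, g x ^ 2 ∂μ := by
    have hfin : 2⁻¹ * S ≠ ∞ := ENNReal.mul_ne_top (by norm_num) hSfin
    rw [← ENNReal.add_le_add_iff_right hfin]
    rw [← e6]
    exact e5
  calc S = 2 * (2⁻¹ * S) := by
        rw [← mul_assoc, ENNReal.mul_inv_cancel (by norm_num) (by norm_num), one_mul]
    _ ≤ 2 * (4 * ρ * ∫⁻ x, g x ^ 2 ∂μ) := by gcongr
    _ = _ := by ring

theorem holder_pow {Ω : Type*} [MeasurableSpace Ω] (μ : Measure Ω) (T : Set Ω) (m : ℕ)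
    (hm : 1 ≤ m) (f : Ω → ℝ≥0∞) (hf : Measurable f) :
    (∫⁻ x in T, f x ∂μ) ^ (m + 2) ≤
      μ T ^ m * (∫⁻ x in T, f x ^ (((m : ℝ) + 2) / 2) ∂μ) ^ 2 := by
  have hm' : (1 : ℝ) ≤ m := by exact_mod_cast hm
  set p : ℝ := ((m : ℝ) + 2) / 2 with hp
  set q : ℝ := ((m : ℝ) + 2) / m with hq
  have hpq : p.HolderConjugate q := by
    rw [Real.holderConjugate_iff]
    refine ⟨by rw [hp]; linarith, ?_⟩
    rw [hp, hq]
    field_simp
    ring
  have h1 := ENNReal.lintegral_mul_le_Lp_mul_Lq (μ.restrict T) hpq (f := f) (g := fun _ => 1)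
    hf.aemeasurable aemeasurable_const
  simp only [Pi.mul_apply, mul_one, ENNReal.one_rpow, lintegral_const, one_mul,
    Measure.restrict_apply_univ] at h1
  calc (∫⁻ x in T, f x ∂μ) ^ (m + 2)
      ≤ ((∫⁻ x in T, f x ^ p ∂μ) ^ (1 / p) * μ T ^ (1 / q)) ^ (m + 2) := by gcongr
    _ = μ T ^ m * (∫⁻ x in T, f x ^ p ∂μ) ^ 2 := by
        rw [mul_pow, ← ENNReal.rpow_natCast, ← ENNReal.rpow_natCast, ← ENNReal.rpow_mul,
          ← ENNReal.rpow_mul]
        have e1 : 1 / p * ((m + 2 : ℕ) : ℝ) = ((2 : ℕ) : ℝ) := by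
          rw [hp]; push_cast; field_simp
        have e2 : 1 / q * ((m + 2 : ℕ) : ℝ) = (m : ℝ) := by
          rw [hq]; push_cast; field_simp
        rw [e1, e2, ENNReal.rpow_natCast, ENNReal.rpow_natCast, mul_comm]

/-- the bound for a family of sets with small row sums -/
theorem family_bound {Ω ι : Type*} [MeasurableSpace Ω] (μ : Measure Ω) (s : Finset ι)
    (T : ι → Set Ω) (hT : ∀ i, MeasurableSet (T i)) (m : ℕ) (hm : 1 ≤ m) (V ρ : ℝ≥0∞)
    (hρ : ρ ≠ ∞) (hV : ∀ i ∈ s, μ (T i) ≤ V) (h : ∀ i ∈ s, ∑ j ∈ s, μ (T i ∩ T j) ≤ ρ)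
    (f : Ω → ℝ≥0∞) (hf : Measurable f) :
    ∑ i ∈ s, (∫⁻ x in T i, f x ∂μ) ^ (m + 2) ≤ V ^ m * (8 * ρ) * ∫⁻ x, f x ^ (m + 2) ∂μ := by
  have h1 := schur μ s T hT ρ hρ h (fun x => f x ^ (((m : ℝ) + 2) / 2)) (hf.pow_const _)
  have e1 : ∀ x, (f x ^ (((m : ℝ) + 2) / 2)) ^ 2 = f x ^ (m + 2) := by
    intro x
    rw [← ENNReal.rpow_natCast, ← ENNReal.rpow_mul, ← ENNReal.rpow_natCast]
    congr 1
    push_cast
    ring
  simp_rw [e1] at h1
  calc ∑ i ∈ s, (∫⁻ x in T i, f x ∂μ) ^ (m + 2)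
      ≤ ∑ i ∈ s, V ^ m * (∫⁻ x in T i, f x ^ (((m : ℝ) + 2) / 2) ∂μ) ^ 2 := by
        apply Finset.sum_le_sum
        intro i hi
        refine (holder_pow μ (T i) m hm f hf).trans ?_
        gcongr
        exact hV i hi
    _ = V ^ m * ∑ i ∈ s, (∫⁻ x in T i, f x ^ (((m : ℝ) + 2) / 2) ∂μ) ^ 2 := by
        rw [Finset.mul_sum]
    _ ≤ V ^ m * (8 * ρ * ∫⁻ x, f x ^ (m + 2) ∂μ) := by gcongr
    _ = _ := by ring

end Pool.Agent.H28.SM
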