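import Pool.Agent.H28.SM.Piece
import Pool.Agent.H28.SM.Schur

set_option autoImplicit false

/-!
# Kakeya near surfaces: the estimate for one class of pieces
-/

open Set MeasureTheory Polynomial ENNReal

namespace Pool.Agent.H28.SM

variable {m D : ℕ} {L R K W δ ℓ : ℝ} {h : Fin m → ℝ → ℝ → ℝ}

theorem slab_volume {E : Set ℝ} (hE : MeasurableSet E) (φ : ℝ → ℝ) (ψ : ℝ → Fin m → ℝ) {η : ℝ}
    (hη : 0 ≤ η) {S : Set (ℝ × ℝ × (Fin m → ℝ))} (hS : MeasurableSet S)
    (hsub : ∀ z ∈ S, z.1 ∈ E ∧ |z.2.1 - φ z.1| ≤ η ∧ ∀ r, |z.2.2 r - ψ z.1 r| ≤ η) :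
    volume S ≤ volume E * ENNReal.ofReal ((2 * η) ^ (m + 1)) := by
  have hslice : ∀ t, volume (Prod.mk t ⁻¹' S) ≤
      E.indicator (fun _ => ENNReal.ofReal ((2 * η) ^ (m + 1))) t := by
    intro t
    by_cases ht : t ∈ E
    · rw [indicator_of_mem ht]
      have h1 : Prod.mk t ⁻¹' S ⊆ Icc (φ t - η) (φ t + η) ×ˢ
          (Set.pi univ fun r => Icc (ψ t r - η) (ψ t r + η)) := by
        rintro ⟨x, y⟩ hxy
        obtain ⟨-, h2, h3⟩ := hsub _ hxy
        simp only at h2 h3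
        rw [abs_le] at h2
        refine ⟨⟨by linarith [h2.1], by linarith [h2.2]⟩, fun r _ => ?_⟩
        have h4 := h3 r
        rw [abs_le] at h4
        exact ⟨by linarith [h4.1], by linarith [h4.2]⟩
      refine (measure_mono h1).trans ?_
      rw [Measure.volume_eq_prod, Measure.prod_prod, Real.volume_Icc, volume_pi_pi]
      simp only [Real.volume_Icc]
      rw [pow_succ', ENNReal.ofReal_mul (by positivity), ENNReal.ofReal_pow (by positivity)]
      have e1 : φ t + η - (φ t - η) = 2 * η := by ring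
      have e2 : ∀ r, ψ t r + η - (ψ t r - η) = 2 * η := fun r => by ring
      rw [e1]
      simp only [e2, Finset.prod_const, Finset.card_univ, Fintype.card_fin]
      exact le_rfl
    · rw [indicator_of_notMem ht]
      have : Prod.mk t ⁻¹' S = ∅ := by
        ext y
        simp only [mem_preimage, mem_empty_iff_false, iff_false]
        intro hy
        exact ht (hsub _ hy).1
      rw [this, measure_empty]
  rw [Measure.volume_eq_prod, Measure.prod_apply hS]
  calc ∫⁻ t, volume (Prod.mk t ⁻¹' S)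
      ≤ ∫⁻ t, E.indicator (fun _ => ENNReal.ofReal ((2 * η) ^ (m + 1))) t := lintegral_mono hslice
    _ = _ := by rw [lintegral_indicator hE, setLIntegral_const, mul_comm]

theorem Piece.body_closed (P : Piece m) (δ W : ℝ) : IsClosed (P.body δ W) := by
  have : P.body δ W = {z | z.1 ∈ Icc P.p P.q} ∩ ({z | |z.2.1 - (P.a + P.k * δ * z.1)| ≤ W * δ} ∩
      ⋂ r, {z | |z.2.2 r - (P.b r + P.c r * δ * z.1)| ≤ W * δ}) := by
    ext z; simp [Piece.body]
  rw [this]
  refine (isClosed_Icc.preimage continuous_fst).inter ((isClosed_le (by fun_prop)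
    continuous_const).inter (isClosed_iInter fun r => isClosed_le (by fun_prop) continuous_const))

theorem Piece.E_closed (P Q : Piece m) (δ W : ℝ) : IsClosed (P.E Q δ W) := by
  have : P.E Q δ W = Icc P.p P.q ∩ (Icc Q.p Q.q ∩
      {t | |(Q.a + Q.k * δ * t) - (P.a + P.k * δ * t)| ≤ 2 * W * δ}) := by
    ext z; simp [Piece.E]
  rw [this]
  exact isClosed_Icc.inter (isClosed_Icc.inter (isClosed_le (by fun_prop) continuous_const))

theorem body_volume {P : Piece m} (hP : P.Good h δ ℓ K R) (hδ : 0 < δ) (hW : 0 ≤ W) :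
    volume (P.body δ W) ≤ ENNReal.ofReal (2 * ℓ * (2 * (W * δ)) ^ (m + 1)) := by
  have h1 := slab_volume (m := m) (E := Icc P.p P.q) measurableSet_Icc
    (fun t => P.a + P.k * δ * t) (fun t r => P.b r + P.c r * δ * t) (η := W * δ) (by positivity)
    (P.body_closed δ W).measurableSet (fun z hz => hz)
  refine h1.trans ?_
  rw [Real.volume_Icc, ← ENNReal.ofReal_mul' (by positivity)]
  apply ENNReal.ofReal_le_ofReal
  gcongr
  exact hP.hhi

theorem inter_volume (P Q : Piece m) (hδ : 0 < δ) (hW : 0 ≤ W) :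
    volume (P.body δ W ∩ Q.body δ W) ≤
      ENNReal.ofReal (volume.real (P.E Q δ W) * (2 * (W * δ)) ^ (m + 1)) := by
  have hfin : volume (P.E Q δ W) ≠ ∞ := by
    refine ne_top_of_le_ne_top ?_ (measure_mono (fun t ht => ht.1 : P.E Q δ W ⊆ Icc P.p P.q))
    simp
  have h1 := slab_volume (m := m) (E := P.E Q δ W) (P.E_closed Q δ W).measurableSet
    (fun t => P.a + P.k * δ * t) (fun t r => P.b r + P.c r * δ * t) (η := W * δ) (by positivity)
    ((P.body_closed δ W).measurableSet.inter (Q.body_closed δ W).measurableSet) (fun z hz => by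
      obtain ⟨hz1, hz2⟩ := hz
      refine ⟨⟨hz1.1, hz2.1, ?_⟩, hz1.2.1, hz1.2.2⟩
      have e : (Q.a + Q.k * δ * z.1) - (P.a + P.k * δ * z.1) =
        (z.2.1 - (P.a + P.k * δ * z.1)) - (z.2.1 - (Q.a + Q.k * δ * z.1)) := by ring
      rw [e]
      refine (abs_sub _ _).trans ?_
      have := hz1.2.1
      have := hz2.2.1
      linarith)
  refine h1.trans (le_of_eq ?_)
  rw [ENNReal.ofReal_mul measureReal_nonneg, measureReal_def, ENNReal.ofReal_toReal hfin]

/-- the constant of the class bound -/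
noncomputable def classC (m D : ℕ) (K L W : ℝ) : ℝ :=
  8 * 2 ^ m * (2 * W) ^ ((m + 1) ^ 2) * rowC m D K L W

theorem rowC_nonneg (hK : 0 < K) (hL : 0 ≤ L) (hW : 0 ≤ W) : 0 ≤ rowC m D K L W := by
  have := c1_nonneg (D := D) hK hL hW
  unfold rowC
  positivity

theorem classC_nonneg (hK : 0 < K) (hL : 0 ≤ L) (hW : 0 ≤ W) : 0 ≤ classC m D K L W := by
  have := rowC_nonneg (m := m) (D := D) hK hL hW
  unfold classC
  positivity

theorem class_bound {ι : Type*} (hm : 1 ≤ m) (A : ∀ r, Adm D L R (h r)) (hδ : 0 < δ)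
    (hδ1 : δ ≤ 1) (hℓ : 0 < ℓ) (hℓ1 : ℓ ≤ 1) (hK : 0 < K) (hL : 0 ≤ L) (hW : 0 ≤ W)
    (s : Finset ι) (P : ι → Piece m) (hP : ∀ i ∈ s, (P i).Good h δ ℓ K R)
    (hinj : ∀ i ∈ s, ∀ j ∈ s, (P i).k = (P j).k → (P i).c = (P j).c → i = j)
    (f : ℝ × ℝ × (Fin m → ℝ) → ℝ≥0∞) (hf : Measurable f) :
    ∑ i ∈ s, (∫⁻ z in (P i).body δ W, f z) ^ (m + 2) ≤
      ENNReal.ofReal (classC m D K L W * (1 + Real.log (1 / δ)) * δ ^ ((m + 1) ^ 2)) *
        ∫⁻ z, f z ^ (m + 2) := by
  have hlog0 : 0 ≤ Real.log (1 / δ) := Real.log_nonneg (by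
    rw [le_div_iff₀ hδ]; linarith)
  have hrC := rowC_nonneg (m := m) (D := D) hK hL hW
  have hrow : ∀ i ∈ s, ∑ j ∈ s, volume ((P i).body δ W ∩ (P j).body δ W) ≤
      ENNReal.ofReal (rowC m D K L W * (1 + Real.log (1 / δ)) / ℓ ^ m *
        (2 * (W * δ)) ^ (m + 1)) := by
    intro i hi
    calc ∑ j ∈ s, volume ((P i).body δ W ∩ (P j).body δ W)
        ≤ ∑ j ∈ s, ENNReal.ofReal (volume.real ((P i).E (P j) δ W) *
            (2 * (W * δ)) ^ (m + 1)) :=
          Finset.sum_le_sum fun j _ => inter_volume (P i) (P j) hδ hW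
      _ = ENNReal.ofReal ((∑ j ∈ s, volume.real ((P i).E (P j) δ W)) *
            (2 * (W * δ)) ^ (m + 1)) := by
          rw [Finset.sum_mul, ENNReal.ofReal_sum_of_nonneg]
          intro j _
          have : 0 ≤ volume.real ((P i).E (P j) δ W) := measureReal_nonneg
          positivity
      _ ≤ _ := by
          apply ENNReal.ofReal_le_ofReal
          have := row_sum A hδ hδ1 hℓ hℓ1 hK hL hW s P hP hinj hi
          gcongr
  have h1 := family_bound volume s (fun i => (P i).body δ W)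
    (fun i => ((P i).body_closed δ W).measurableSet) m hm
    (ENNReal.ofReal (2 * ℓ * (2 * (W * δ)) ^ (m + 1))) _ ENNReal.ofReal_ne_top
    (fun i hi => body_volume (hP i hi) hδ hW) hrow f hf
  refine h1.trans (le_of_eq ?_)
  congr 1
  rw [← ENNReal.ofReal_pow (by positivity)]
  have e8 : (8 : ℝ≥0∞) = ENNReal.ofReal 8 := by norm_num
  rw [e8, ← ENNReal.ofReal_mul (by norm_num), ← ENNReal.ofReal_mul (by positivity)]
  congr 1
  rw [classC]
  have e1 : (2 * ℓ * (2 * (W * δ)) ^ (m + 1)) ^ m *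
      (8 * (rowC m D K L W * (1 + Real.log (1 / δ)) / ℓ ^ m * (2 * (W * δ)) ^ (m + 1))) =
      8 * 2 ^ m * rowC m D K L W * (1 + Real.log (1 / δ)) *
        (((2 * (W * δ)) ^ (m + 1)) ^ m * (2 * (W * δ)) ^ (m + 1)) * (ℓ ^ m / ℓ ^ m) := by
    rw [mul_pow, mul_pow]
    ring
  rw [e1, div_self (by positivity), mul_one, ← pow_succ, ← pow_mul]
  have e2 : (m + 1) * (m + 1) = (m + 1) ^ 2 := by ring
  rw [e2, ← mul_assoc 2 W δ, mul_pow (2 * W) δ]
  ring

end Pool.Agent.H28.SM
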