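import Pool.Agent.H28.SM.Core

set_option autoImplicit false

/-!
# Kakeya near surfaces: coordinates
-/

open Set MeasureTheory Metric ENNReal
open scoped Pointwise

namespace Pool.Agent.H28.SM

variable {m : ℕ}

/-- Euclidean space -/
abbrev Eu (n : ℕ) : Type := EuclideanSpace ℝ (Fin n)

/-- The closed tube of length `1` and radius `δ` with centre `a` and axis direction `e`. -/
def tube {n : ℕ} (δ : ℝ) (e a : Eu n) : Set (Eu n) :=
  {y | |inner ℝ (y - a) e| ≤ 1 / 2 ∧ ‖(y - a) - (inner ℝ (y - a) e : ℝ) • e‖ ≤ δ}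

theorem tube_closed {n : ℕ} (δ : ℝ) (e a : Eu n) : IsClosed (tube δ e a) := by
  have : tube δ e a = {y | |inner ℝ (y - a) e| ≤ 1 / 2} ∩
    {y | ‖(y - a) - (inner ℝ (y - a) e : ℝ) • e‖ ≤ δ} := by
    ext y; simp [tube]
  rw [this]
  refine (isClosed_le (by fun_prop) continuous_const).inter (isClosed_le (by fun_prop)
    continuous_const)

/-- splitting off the first two coordinates -/
def ceq (m : ℕ) : (Fin (m + 2) → ℝ) ≃ᵐ ℝ × ℝ × (Fin m → ℝ) :=
  (MeasurableEquiv.piFinSuccAbove (fun _ => ℝ) 0).trans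
    ((MeasurableEquiv.refl ℝ).prodCongr (MeasurableEquiv.piFinSuccAbove (fun _ => ℝ) 0))

theorem ceq_apply (v : Fin (m + 2) → ℝ) : ceq m v = (v 0, v 1, fun r => v r.succ.succ) := by
  simp only [ceq, MeasurableEquiv.trans_apply, MeasurableEquiv.piFinSuccAbove_apply]
  rfl

theorem ceq_mp (m : ℕ) : MeasurePreserving (ceq m) volume volume :=
  ((MeasurePreserving.id (volume : Measure ℝ)).prod
    (volume_preserving_piFinSuccAbove (fun _ : Fin (m + 1) => ℝ) 0)).comp
    (volume_preserving_piFinSuccAbove (fun _ : Fin (m + 2) => ℝ) 0)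

/-- the coordinates of `z - z₀` in the orthonormal basis `b` -/
noncomputable def crd (b : OrthonormalBasis (Fin (m + 2)) ℝ (Eu (m + 2))) (z₀ : Eu (m + 2)) :
    Eu (m + 2) ≃ᵐ ℝ × ℝ × (Fin m → ℝ) :=
  (((Homeomorph.subRight z₀).trans b.repr.toHomeomorph).toMeasurableEquiv.trans
    (MeasurableEquiv.toLp 2 (Fin (m + 2) → ℝ)).symm).trans (ceq m)

theorem crd_apply (b : OrthonormalBasis (Fin (m + 2)) ℝ (Eu (m + 2))) (z₀ z : Eu (m + 2)) :
    crd b z₀ z = (b.repr (z - z₀) 0, b.repr (z - z₀) 1, fun r => b.repr (z - z₀) r.succ.succ) := by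
  show ceq m (b.repr (z - z₀)).ofLp = _
  rw [ceq_apply]

theorem crd_mp (b : OrthonormalBasis (Fin (m + 2)) ℝ (Eu (m + 2))) (z₀ : Eu (m + 2)) :
    MeasurePreserving (crd b z₀) volume volume := by
  have h1 : MeasurePreserving (fun y : Eu (m + 2) => y - z₀) volume volume :=
    measurePreserving_sub_right volume z₀
  have h2 := b.measurePreserving_repr
  have h3 := PiLp.volume_preserving_ofLp (Fin (m + 2))
  exact (ceq_mp m).comp (h3.comp (h2.comp h1))

theorem abs_repr_le (b : OrthonormalBasis (Fin (m + 2)) ℝ (Eu (m + 2))) (w : Eu (m + 2))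
    (i : Fin (m + 2)) : |b.repr w i| ≤ ‖w‖ := by
  have h1 := PiLp.norm_apply_le (b.repr w) i
  rw [b.repr.norm_map] at h1
  exact h1

/-- a tube whose direction is not far from the coordinate plane, in coordinates -/
theorem tube_sub_ltube (b : OrthonormalBasis (Fin (m + 2)) ℝ (Eu (m + 2))) {δ M : ℝ}
    (hδ : 0 < δ) (hM : 0 ≤ M) {e a z₀ : Eu (m + 2)} (he0 : b.repr e 0 ≠ 0)
    (he1 : |b.repr e 1| ≤ |b.repr e 0|)
    (her : ∀ r : Fin m, |b.repr e r.succ.succ| ≤ M * |b.repr e 0|) (k : ℤ) (c : Fin m → ℤ)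
    (hk : k = ⌊(b.repr e 1 / b.repr e 0) / δ⌋)
    (hc : ∀ r : Fin m, c r = ⌊(b.repr e r.succ.succ / b.repr e 0) / δ⌋) :
    ∃ (a' : ℝ) (b' : Fin m → ℝ), ∀ z ∈ tube δ e a, |(crd b z₀ z).1| ≤ 1 →
      crd b z₀ z ∈ ltube δ (M + 3) k c a' b' := by
  set e0 := b.repr e 0 with he0def
  set A : Fin (m + 2) → ℝ := fun i => b.repr (a - z₀) i with hA
  refine ⟨A 1 - (b.repr e 1 / e0) * A 0, fun r => A r.succ.succ -
    (b.repr e r.succ.succ / e0) * A 0, fun z hz ht => ?_⟩
  rw [crd_apply] at ht ⊢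
  simp only at ht
  set τ : ℝ := inner ℝ (z - a) e with hτ
  have hco : ∀ i, |b.repr (z - z₀) i - A i - τ * b.repr e i| ≤ δ := by
    intro i
    have h1 := (abs_repr_le b ((z - a) - τ • e) i).trans hz.2
    have e1 : b.repr ((z - a) - τ • e) i = b.repr (z - z₀) i - A i - τ * b.repr e i := by
      have e2 : (z - a) - τ • e = (z - z₀) - (a - z₀) - τ • e := by abel
      rw [e2, map_sub, map_sub, map_smul]
      simp [hA]
    rw [e1] at h1
    exact h1
  have key : ∀ (i : Fin (m + 2)) (M' : ℝ) (κ : ℤ), |b.repr e i| ≤ M' * |e0| →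
      κ = ⌊(b.repr e i / e0) / δ⌋ →
      |b.repr (z - z₀) i - ((A i - (b.repr e i / e0) * A 0) + κ * δ * b.repr (z - z₀) 0)| ≤
        (M' + 2) * δ := by
    intro i M' κ hi hκ
    set s := b.repr e i / e0 with hs
    have hsM : |s| ≤ M' := by
      rw [hs, abs_div, div_le_iff₀ (abs_pos.2 he0)]
      exact hi
    have hes : b.repr e i = s * e0 := by rw [hs]; field_simp
    have h1 := hco i
    have h2 := hco 0
    rw [hes] at h1
    have hfl1 := Int.floor_le (s / δ)
    have hfl2 := Int.lt_floor_add_one (s / δ)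
    rw [← hκ] at hfl1 hfl2
    rw [le_div_iff₀ hδ] at hfl1
    rw [div_lt_iff₀ hδ] at hfl2
    have h3 : |s - κ * δ| ≤ δ := by
      rw [abs_le]; constructor <;> nlinarith
    have e3 : b.repr (z - z₀) i - ((A i - s * A 0) + κ * δ * b.repr (z - z₀) 0) =
        (b.repr (z - z₀) i - A i - τ * (s * e0)) -
        s * (b.repr (z - z₀) 0 - A 0 - τ * e0) + (s - κ * δ) * b.repr (z - z₀) 0 := by ring
    rw [e3]
    have h4 : |s * (b.repr (z - z₀) 0 - A 0 - τ * e0)| ≤ M' * δ := by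
      rw [abs_mul]
      exact mul_le_mul hsM h2 (abs_nonneg _) ((abs_nonneg s).trans hsM)
    have h5 : |(s - κ * δ) * b.repr (z - z₀) 0| ≤ δ * 1 := by
      rw [abs_mul]
      exact mul_le_mul h3 ht (abs_nonneg _) hδ.le
    refine (abs_add_le _ _).trans ?_
    have h6 := abs_sub (b.repr (z - z₀) i - A i - τ * (s * e0))
      (s * (b.repr (z - z₀) 0 - A 0 - τ * e0))
    linarith
  constructor
  · show |b.repr (z - z₀) 1 - ((A 1 - (b.repr e 1 / e0) * A 0) + k * δ * b.repr (z - z₀) 0)| ≤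
        (M + 3) * δ
    have := key 1 1 k (by rw [one_mul]; exact he1) hk
    exact this.trans (mul_le_mul_of_nonneg_right (by linarith) hδ.le)
  · intro r
    show |b.repr (z - z₀) r.succ.succ - ((A r.succ.succ -
      (b.repr e r.succ.succ / e0) * A 0) + c r * δ * b.repr (z - z₀) 0)| ≤ (M + 3) * δ
    refine (key r.succ.succ M (c r) (her r) (hc r)).trans ?_
    gcongr
    norm_num

/-- the unit sphere -/
abbrev Sp (n : ℕ) : Type := sphere (0 : Eu n) 1

/-- surface measure -/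
noncomputable def surf (n : ℕ) : Measure (Sp n) := (volume : Measure (Eu n)).toSphere

/-- directions not far from the coordinate plane, with the first coordinate dominating -/
def good (b : OrthonormalBasis (Fin (m + 2)) ℝ (Eu (m + 2))) (M : ℝ) : Set (Sp (m + 2)) :=
  {e | b.repr (e : Eu (m + 2)) 0 ≠ 0 ∧
    |b.repr (e : Eu (m + 2)) 1| ≤ |b.repr (e : Eu (m + 2)) 0| ∧
    ∀ r : Fin m, |b.repr (e : Eu (m + 2)) r.succ.succ| ≤ M * |b.repr (e : Eu (m + 2)) 0|}

/-- the directions in one cell -/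
def cell (b : OrthonormalBasis (Fin (m + 2)) ℝ (Eu (m + 2))) (M δ : ℝ) (κ : ℤ × (Fin m → ℤ)) :
    Set (Sp (m + 2)) :=
  {e | e ∈ good b M ∧
    κ.1 = ⌊(b.repr (e : Eu (m + 2)) 1 / b.repr (e : Eu (m + 2)) 0) / δ⌋ ∧
    ∀ r : Fin m, κ.2 r =
      ⌊(b.repr (e : Eu (m + 2)) r.succ.succ / b.repr (e : Eu (m + 2)) 0) / δ⌋}

theorem meas_repr (b : OrthonormalBasis (Fin (m + 2)) ℝ (Eu (m + 2))) (i : Fin (m + 2)) :
    Measurable fun e : Sp (m + 2) => b.repr (e : Eu (m + 2)) i := by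
  have h1 : Continuous fun e : Sp (m + 2) => b.repr (e : Eu (m + 2)) i := by
    have h2 : Continuous fun v : Eu (m + 2) => v i := by fun_prop
    exact h2.comp (b.repr.continuous.comp continuous_subtype_val)
  exact h1.measurable

theorem good_meas (b : OrthonormalBasis (Fin (m + 2)) ℝ (Eu (m + 2))) (M : ℝ) :
    MeasurableSet (good b M) := by
  have h0 := meas_repr b 0
  have : good b M = {e : Sp (m + 2) | b.repr (e : Eu (m + 2)) 0 ≠ 0} ∩
      ({e : Sp (m + 2) | |b.repr (e : Eu (m + 2)) 1| ≤ |b.repr (e : Eu (m + 2)) 0|} ∩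
      ⋂ r : Fin m, {e : Sp (m + 2) | |b.repr (e : Eu (m + 2)) r.succ.succ| ≤
        M * |b.repr (e : Eu (m + 2)) 0|}) := by
    ext e
    simp only [good, mem_ofPred_eq, mem_inter_iff, mem_iInter]
  rw [this]
  refine (h0 (measurableSet_singleton 0).compl).inter
    ((measurableSet_le (meas_repr b 1).norm h0.norm).inter
      (MeasurableSet.iInter fun r => measurableSet_le (meas_repr b _).norm
        (h0.norm.const_mul M)))

theorem cell_meas (b : OrthonormalBasis (Fin (m + 2)) ℝ (Eu (m + 2))) (M δ : ℝ)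
    (κ : ℤ × (Fin m → ℤ)) : MeasurableSet (cell b M δ κ) := by
  have h0 := meas_repr b 0
  have hf : ∀ i : Fin (m + 2), Measurable fun e : Sp (m + 2) =>
      ⌊(b.repr (e : Eu (m + 2)) i / b.repr (e : Eu (m + 2)) 0) / δ⌋ := fun i =>
    Int.measurable_floor.comp (((meas_repr b i).div h0).div_const δ)
  have : cell b M δ κ = good b M ∩
      ({e : Sp (m + 2) | κ.1 =
        ⌊(b.repr (e : Eu (m + 2)) 1 / b.repr (e : Eu (m + 2)) 0) / δ⌋} ∩
      ⋂ r : Fin m, {e : Sp (m + 2) | κ.2 r =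
        ⌊(b.repr (e : Eu (m + 2)) r.succ.succ / b.repr (e : Eu (m + 2)) 0) / δ⌋}) := by
    ext e
    simp only [cell, mem_ofPred_eq, mem_inter_iff, mem_iInter]
  rw [this]
  refine (good_meas b M).inter ((measurableSet_eq_fun measurable_const (hf 1)).inter
    (MeasurableSet.iInter fun r => measurableSet_eq_fun measurable_const (hf _)))

theorem ltube_closed (δ W : ℝ) (k : ℤ) (c : Fin m → ℤ) (a : ℝ) (b : Fin m → ℝ) :
    IsClosed (ltube δ W k c a b) := by
  have : ltube δ W k c a b =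
    {z : ℝ × ℝ × (Fin m → ℝ) | |z.2.1 - (a + k * δ * z.1)| ≤ W * δ} ∩
    ⋂ r, {z : ℝ × ℝ × (Fin m → ℝ) | |z.2.2 r - (b r + c r * δ * z.1)| ≤ W * δ} := by
    ext z; simp [ltube]
  rw [this]
  exact (isClosed_le (by fun_prop) continuous_const).inter
    (isClosed_iInter fun r => isClosed_le (by fun_prop) continuous_const)

/-- the measure of a cell -/
theorem cell_measure (b : OrthonormalBasis (Fin (m + 2)) ℝ (Eu (m + 2))) {M δ : ℝ} (hδ : 0 < δ)
    (κ : ℤ × (Fin m → ℤ)) : surf (m + 2) (cell b M δ κ) ≤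
      ENNReal.ofReal ((m + 2) * (2 * (2 * δ) ^ (m + 1))) := by
  have h1 := Measure.toSphere_apply' (μ := (volume : Measure (Eu (m + 2))))
    (s := cell b M δ κ) (cell_meas b M δ κ)
  rw [surf, h1]
  have hdim : (Module.finrank ℝ (Eu (m + 2)) : ℝ≥0∞) = ENNReal.ofReal (m + 2) := by
    rw [finrank_euclideanSpace, Fintype.card_fin, ENNReal.ofReal_add (by positivity) (by norm_num),
      ENNReal.ofReal_natCast]
    norm_num
  rw [hdim, ENNReal.ofReal_mul (p := ((m : ℝ) + 2)) (by positivity)]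
  gcongr
  set B : Set (ℝ × ℝ × (Fin m → ℝ)) := {z | z.1 ∈ Icc (-1 : ℝ) 1} ∩ ltube δ 1 κ.1 κ.2 0 0 with hB
  have hBm : MeasurableSet B :=
    ((isClosed_Icc.preimage continuous_fst).inter (ltube_closed _ _ _ _ _ _)).measurableSet
  have hsub : Ioo (0 : ℝ) 1 • ((↑) '' cell b M δ κ : Set (Eu (m + 2))) ⊆ crd b 0 ⁻¹' B := by
    rintro _ ⟨ρ, hρ, _, ⟨e, he, rfl⟩, rfl⟩
    obtain ⟨⟨he0, he1, her⟩, hk, hc⟩ := he
    have hne : ‖(e : Eu (m + 2))‖ = 1 := norm_eq_of_mem_sphere e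
    have hco : ∀ i, b.repr (ρ • (e : Eu (m + 2)) - 0) i = ρ * b.repr (e : Eu (m + 2)) i := by
      intro i
      rw [sub_zero, map_smul]
      simp
    have ht : |ρ * b.repr (e : Eu (m + 2)) 0| ≤ 1 := by
      rw [abs_mul, abs_of_pos hρ.1]
      have h2 := abs_repr_le b (e : Eu (m + 2)) 0
      rw [hne] at h2
      have h3 : 0 ≤ |b.repr (e : Eu (m + 2)) 0| := abs_nonneg _
      nlinarith [hρ.1, hρ.2]
    have key : ∀ (i : Fin (m + 2)) (j : ℤ),
        j = ⌊(b.repr (e : Eu (m + 2)) i / b.repr (e : Eu (m + 2)) 0) / δ⌋ →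
        |ρ * b.repr (e : Eu (m + 2)) i - (0 + j * δ * (ρ * b.repr (e : Eu (m + 2)) 0))| ≤
          1 * δ := by
      intro i j hj
      set s := b.repr (e : Eu (m + 2)) i / b.repr (e : Eu (m + 2)) 0 with hs
      have hes : b.repr (e : Eu (m + 2)) i = s * b.repr (e : Eu (m + 2)) 0 := by
        rw [hs]; field_simp
      have hfl1 := Int.floor_le (s / δ)
      have hfl2 := Int.lt_floor_add_one (s / δ)
      rw [← hj] at hfl1 hfl2
      rw [le_div_iff₀ hδ] at hfl1
      rw [div_lt_iff₀ hδ] at hfl2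
      have h3 : |s - j * δ| ≤ δ := by
        rw [abs_le]; constructor <;> nlinarith
      have e3 : ρ * b.repr (e : Eu (m + 2)) i - (0 + j * δ * (ρ * b.repr (e : Eu (m + 2)) 0)) =
        (s - j * δ) * (ρ * b.repr (e : Eu (m + 2)) 0) := by
        rw [hes]; ring
      rw [e3, abs_mul]
      calc _ ≤ δ * 1 := mul_le_mul h3 ht (abs_nonneg _) hδ.le
        _ = 1 * δ := by ring
    show crd b 0 (ρ • (e : Eu (m + 2))) ∈ B
    rw [crd_apply]
    simp only [hco]
    refine ⟨abs_le.1 ht, ?_, fun r => ?_⟩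
    · exact key 1 κ.1 hk
    · exact key r.succ.succ (κ.2 r) (hc r)
  calc volume (Ioo (0 : ℝ) 1 • ((↑) '' cell b M δ κ : Set (Eu (m + 2))))
      ≤ volume (crd b 0 ⁻¹' B) := measure_mono hsub
    _ = volume B := (crd_mp b 0).measure_preimage hBm.nullMeasurableSet
    _ ≤ volume (Icc (-1 : ℝ) 1) * ENNReal.ofReal ((2 * (1 * δ)) ^ (m + 1)) :=
        slab_volume (m := m) measurableSet_Icc (fun t => 0 + κ.1 * δ * t)
          (fun t r => (0 : Fin m → ℝ) r + κ.2 r * δ * t) (by positivity) hBm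
          (fun z hz => ⟨hz.1, hz.2.1, hz.2.2⟩)
    _ = ENNReal.ofReal (2 * (2 * δ) ^ (m + 1)) := by
        rw [Real.volume_Icc, ← ENNReal.ofReal_mul (by norm_num)]
        congr 1
        ring

end Pool.Agent.H28.SM
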