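import Pool.Agent.H28.SM.Class

set_option autoImplicit false

/-!
# Kakeya near surfaces: the discrete estimate
-/

open Set MeasureTheory Polynomial ENNReal

namespace Pool.Agent.H28.SM

variable {m D : ℕ} {L R K W δ ℓ : ℝ} {h : Fin m → ℝ → ℝ → ℝ}

theorem holder_nat {Ω : Type*} [MeasurableSpace Ω] (μ : Measure Ω) (T : Set Ω) (m : ℕ)
    (f : Ω → ℝ≥0∞) (hf : Measurable f) :
    (∫⁻ x in T, f x ∂μ) ^ (m + 2) ≤ μ T ^ (m + 1) * ∫⁻ x in T, f x ^ (m + 2) ∂μ := by
  have hm' : (0 : ℝ) ≤ m := Nat.cast_nonneg m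
  set p : ℝ := (m : ℝ) + 2 with hp
  set q : ℝ := ((m : ℝ) + 2) / (m + 1) with hq
  have hpq : p.HolderConjugate q := by
    rw [Real.holderConjugate_iff]
    refine ⟨by rw [hp]; linarith, ?_⟩
    rw [hp, hq]
    field_simp
    ring
  have h1 := ENNReal.lintegral_mul_le_Lp_mul_Lq (μ.restrict T) hpq (f := f) (g := fun _ => 1)
    hf.aemeasurable aemeasurable_const
  simp only [Pi.mul_apply, mul_one, ENNReal.one_rpow, lintegral_const, one_mul,
    Measure.restrict_apply_univ] at h1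
  have e0 : ∀ x, f x ^ p = f x ^ (m + 2) := by
    intro x
    rw [hp, ← ENNReal.rpow_natCast]
    push_cast
    rfl
  simp_rw [e0] at h1
  calc (∫⁻ x in T, f x ∂μ) ^ (m + 2)
      ≤ ((∫⁻ x in T, f x ^ (m + 2) ∂μ) ^ (1 / p) * μ T ^ (1 / q)) ^ (m + 2) := by gcongr
    _ = μ T ^ (m + 1) * ∫⁻ x in T, f x ^ (m + 2) ∂μ := by
        rw [mul_pow, ← ENNReal.rpow_natCast, ← ENNReal.rpow_natCast, ← ENNReal.rpow_mul,
          ← ENNReal.rpow_mul]
        have e1 : 1 / p * ((m + 2 : ℕ) : ℝ) = ((1 : ℕ) : ℝ) := by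
          rw [hp]; push_cast; field_simp
        have e2 : 1 / q * ((m + 2 : ℕ) : ℝ) = ((m + 1 : ℕ) : ℝ) := by
          rw [hq]; push_cast; field_simp
        rw [e1, e2, ENNReal.rpow_natCast, ENNReal.rpow_natCast, mul_comm, pow_one]

theorem pow_sum_le {ι : Type*} (t : Finset ι) (x : ι → ℝ≥0∞) (n : ℕ) (hn : n ≠ 0) :
    (∑ i ∈ t, x i) ^ n ≤ (t.card : ℝ≥0∞) ^ n * ∑ i ∈ t, x i ^ n := by
  rcases t.eq_empty_or_nonempty with rfl | hne
  · simp [hn]
  obtain ⟨j, hj, hmax⟩ := t.exists_max_image x hne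
  calc (∑ i ∈ t, x i) ^ n ≤ (∑ _i ∈ t, x j) ^ n := by
        gcongr with i hi
        exact hmax i hi
    _ = (t.card : ℝ≥0∞) ^ n * x j ^ n := by
        rw [Finset.sum_const, nsmul_eq_mul, mul_pow]
    _ ≤ _ := by
        gcongr
        exact Finset.single_le_sum (f := fun i => x i ^ n) (fun i _ => zero_le) hj

theorem lint_biUnion_le {Ω ι : Type*} [MeasurableSpace Ω] (μ : Measure Ω) (t : Finset ι)
    (T : ι → Set Ω) (f : Ω → ℝ≥0∞) :
    ∫⁻ x in ⋃ i ∈ t, T i, f x ∂μ ≤ ∑ i ∈ t, ∫⁻ x in T i, f x ∂μ := by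
  classical
  induction t using Finset.induction_on with
  | empty => simp
  | insert i t hi ih =>
    rw [Finset.set_biUnion_insert, Finset.sum_insert hi]
    exact (lintegral_union_le _ _ _).trans (add_le_add le_rfl ih)

/-- a tube in the coordinates `(t, x, y)` -/
def ltube (δ W : ℝ) (k : ℤ) (c : Fin m → ℤ) (a : ℝ) (b : Fin m → ℝ) :
    Set (ℝ × ℝ × (Fin m → ℝ)) :=
  {z | |z.2.1 - (a + k * δ * z.1)| ≤ W * δ ∧ ∀ r, |z.2.2 r - (b r + c r * δ * z.1)| ≤ W * δ}

/-- the neighbourhood of the graph of `h` over the square -/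
def nbhd (h : Fin m → ℝ → ℝ → ℝ) (δ K : ℝ) : Set (ℝ × ℝ × (Fin m → ℝ)) :=
  {z | |z.1| ≤ 1 ∧ |z.2.1| ≤ 1 ∧ ∀ r, |z.2.2 r - h r z.1 z.2.1| ≤ K * δ}

/-- the points of a tube near the surface lie in few pieces -/
theorem tube_pieces (A : ∀ r, Adm D L (W + 5) (h r)) (hδ1 : δ ≤ 1) (hL : 0 ≤ L)
    {K0 : ℝ} (hW : 0 ≤ W) (k : ℤ) (c : Fin m → ℤ) (a : ℝ) (b : Fin m → ℝ)
    (hk : |(k : ℝ) * δ| ≤ 2) :
    ∃ p q : ℕ → ℝ, (∀ β, p β ≤ q β → -1 ≤ p β ∧ q β ≤ 1 ∧
      (∀ t, |t| ≤ 1 → |a + k * δ * t| ≤ W + 5) ∧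
      ∀ r, ∀ t ∈ Icc (p β) (q β),
        |h r t (a + k * δ * t) - b r - c r * δ * t| ≤ (L * W + K0 + W) * δ) ∧
      ∀ z ∈ ltube δ W k c a b, z ∈ nbhd h δ K0 →
        ∃ β < 2 * (D + 1) * m + 1, z ∈ (Piece.mk k c a b (p β) (q β)).body δ W := by
  classical
  by_cases hne : ∃ z ∈ ltube δ W k c a b, z ∈ nbhd h δ K0
  · obtain ⟨z0, hz0, hz0'⟩ := hne
    have hR : ∀ t, |t| ≤ 1 → |a + k * δ * t| ≤ W + 5 := by
      intro t ht
      have e : a + k * δ * t = z0.2.1 - (z0.2.1 - (a + k * δ * z0.1)) + (k * δ) * (t - z0.1) := by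
        ring
      rw [e]
      have h1 : |(k : ℝ) * δ * (t - z0.1)| ≤ 2 * 2 := by
        rw [abs_mul]
        apply mul_le_mul hk _ (abs_nonneg _) zero_le_two
        exact (abs_sub _ _).trans (by linarith [hz0'.1])
      have h2 : |z0.2.1 - (z0.2.1 - (a + k * δ * z0.1))| ≤ 1 + W * δ :=
        (abs_sub _ _).trans (add_le_add hz0'.2.1 hz0.1)
      have h3 : W * δ ≤ W := by nlinarith
      exact (abs_add_le _ _).trans (by linarith)
    set Q : Fin m → ℝ[X] := fun r => (A r).G0 a (k * δ) - (C (b r) + C (c r * δ) * X) with hQ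
    have hQd : ∀ r, (Q r).natDegree ≤ D + 1 := by
      intro r
      refine (natDegree_sub_le _ _).trans (max_le (((A r).deg0 _ _).trans (by omega)) ?_)
      refine (natDegree_add_le _ _).trans (max_le (by simp) ?_)
      exact ((natDegree_C_mul_le _ _).trans natDegree_X_le).trans (by omega)
    have hQe : ∀ r t, (Q r).eval t = h r t (a + k * δ * t) - b r - c r * δ * t := by
      intro r t
      rw [hQ]
      simp only [eval_sub, eval_add, eval_C, eval_mul, eval_X, (A r).ev]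
      ring
    obtain ⟨p, q, h1, h2⟩ := split_poly Q hQd ((L * W + K0 + W) * δ) (-1) 1
    rw [Fintype.card_fin] at h2
    refine ⟨p, q, fun β hβ => ⟨(h1 β _ (left_mem_Icc.2 hβ)).1.1, (h1 β _ (right_mem_Icc.2 hβ)).1.2,
      hR, fun r t ht => ?_⟩, fun z hz hz' => ?_⟩
    · rw [← hQe]
      exact (h1 β t ht).2 r
    · have ht : z.1 ∈ Icc (-1 : ℝ) 1 := abs_le.1 hz'.1
      obtain ⟨β, hβ, hβ2⟩ := h2 z.1 ht (by
        intro r
        rw [hQe]
        have h3 := (A r).lip z.1 z.1 (a + k * δ * z.1) z.2.1 hz'.1 hz'.1 (hR _ hz'.1)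
          (hz'.2.1.trans (by linarith))
        rw [sub_self, abs_zero, zero_add] at h3
        have h4 : |a + k * δ * z.1 - z.2.1| ≤ W * δ := by rw [abs_sub_comm]; exact hz.1
        have h5 : |h r z.1 (a + k * δ * z.1) - h r z.1 z.2.1| ≤ L * (W * δ) :=
          h3.trans (by gcongr)
        have h6 := hz'.2.2 r
        have h7 := hz.2 r
        have e : h r z.1 (a + k * δ * z.1) - b r - c r * δ * z.1 =
          (h r z.1 (a + k * δ * z.1) - h r z.1 z.2.1) - (z.2.2 r - h r z.1 z.2.1) +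
          (z.2.2 r - (b r + c r * δ * z.1)) := by ring
        rw [e]
        refine (abs_add_le _ _).trans ?_
        have h8 := abs_sub (h r z.1 (a + k * δ * z.1) - h r z.1 z.2.1) (z.2.2 r - h r z.1 z.2.1)
        linarith)
      exact ⟨β, hβ, hβ2, hz.1, hz.2⟩
  · refine ⟨fun _ => 1, fun _ => 0, fun β hβ => absurd hβ (by norm_num), fun z hz hz' => ?_⟩
    exact absurd ⟨z, hz, hz'⟩ hne

theorem Piece.body_eq_empty {P : Piece m} (h : P.q < P.p) (δ W : ℝ) : P.body δ W = ∅ := by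
  ext z
  simp only [mem_empty_iff_false, iff_false]
  intro hz
  exact absurd (hz.1.1.trans hz.1.2) (not_le.2 h)

theorem index_card (hδ : 0 < δ) (hδ1 : δ ≤ 1) {M : ℝ} (hM : 0 ≤ M)
    (s : Finset (ℤ × (Fin m → ℤ))) (hk : ∀ i ∈ s, |(i.1 : ℝ) * δ| ≤ 2)
    (hc : ∀ i ∈ s, ∀ r, |(i.2 r : ℝ) * δ| ≤ M) :
    (s.card : ℝ) ≤ 5 * (2 * M + 1) ^ m * (δ ^ (m + 1))⁻¹ := by
  classical
  have hsub : s ⊆ (s.image Prod.fst) ×ˢ (s.image Prod.snd) := by
    intro i hi
    rw [Finset.mem_product]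
    exact ⟨Finset.mem_image_of_mem _ hi, Finset.mem_image_of_mem _ hi⟩
  have h1 := Finset.card_le_card hsub
  rw [Finset.card_product] at h1
  have h2 : ((s.image Prod.fst).card : ℝ) ≤ 2 * (2 / δ) + 1 := by
    apply card_int_near _ 0 _ (by positivity)
    intro k hk'
    rw [Finset.mem_image] at hk'
    obtain ⟨i, hi, rfl⟩ := hk'
    have := hk i hi
    rw [abs_mul, abs_of_pos hδ] at this
    rw [sub_zero, le_div_iff₀ hδ]
    exact this
  have h3 : ((s.image Prod.snd).card : ℝ) ≤ (2 * (M / δ) + 1) ^ m := by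
    apply lattice_box _ (fun _ => 0) (by positivity)
    intro c hc' r
    rw [Finset.mem_image] at hc'
    obtain ⟨i, hi, rfl⟩ := hc'
    have := hc i hi r
    rw [abs_mul, abs_of_pos hδ] at this
    rw [sub_zero, le_div_iff₀ hδ]
    exact this
  calc (s.card : ℝ) ≤ ((s.image Prod.fst).card : ℝ) * ((s.image Prod.snd).card : ℝ) := by
        exact_mod_cast h1
    _ ≤ (2 * (2 / δ) + 1) * (2 * (M / δ) + 1) ^ m := by gcongr
    _ ≤ (5 / δ) * ((2 * M + 1) / δ) ^ m := by
        gcongr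
        · rw [le_div_iff₀ hδ]
          field_simp
          linarith
        · rw [le_div_iff₀ hδ]
          field_simp
          linarith
    _ = _ := by
        rw [div_pow, pow_succ]
        field_simp

/-- the short pieces -/
theorem short_bound (hδ : 0 < δ) (hδ1 : δ ≤ 1) (hW : 0 ≤ W) {M : ℝ} (hM : 0 ≤ M)
    (s : Finset (ℤ × (Fin m → ℤ))) (hk : ∀ i ∈ s, |(i.1 : ℝ) * δ| ≤ 2)
    (hc : ∀ i ∈ s, ∀ r, |(i.2 r : ℝ) * δ| ≤ M) (P : ℤ × (Fin m → ℤ) → Piece m)
    (hP : ∀ i ∈ s, (P i).q - (P i).p ≤ δ)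
    (f : ℝ × ℝ × (Fin m → ℝ) → ℝ≥0∞) (hf : Measurable f) :
    ∑ i ∈ s, (∫⁻ z in (P i).body δ W, f z) ^ (m + 2) ≤
      ENNReal.ofReal (5 * (2 * M + 1) ^ m * (2 * W) ^ ((m + 1) ^ 2) * δ ^ ((m + 1) ^ 2)) *
        ∫⁻ z, f z ^ (m + 2) := by
  have h1 : ∀ i ∈ s, (∫⁻ z in (P i).body δ W, f z) ^ (m + 2) ≤
      ENNReal.ofReal ((δ * (2 * (W * δ)) ^ (m + 1)) ^ (m + 1)) * ∫⁻ z, f z ^ (m + 2) := by
    intro i hi
    refine (holder_nat volume _ m f hf).trans ?_
    have hv := slab_volume (m := m) (E := Icc (P i).p (P i).q) measurableSet_Icc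
      (fun t => (P i).a + (P i).k * δ * t) (fun t r => (P i).b r + (P i).c r * δ * t)
      (η := W * δ) (by positivity) ((P i).body_closed δ W).measurableSet (fun z hz => hz)
    have hv2 : volume ((P i).body δ W) ≤ ENNReal.ofReal (δ * (2 * (W * δ)) ^ (m + 1)) := by
      refine hv.trans ?_
      rw [Real.volume_Icc, ← ENNReal.ofReal_mul' (by positivity)]
      apply ENNReal.ofReal_le_ofReal
      gcongr
      exact hP i hi
    rw [ENNReal.ofReal_pow (by positivity)]
    gcongr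
    exact Measure.restrict_le_self
  have hcard := index_card hδ hδ1 hM s hk hc
  calc ∑ i ∈ s, (∫⁻ z in (P i).body δ W, f z) ^ (m + 2)
      ≤ ∑ _i ∈ s, ENNReal.ofReal ((δ * (2 * (W * δ)) ^ (m + 1)) ^ (m + 1)) *
          ∫⁻ z, f z ^ (m + 2) := Finset.sum_le_sum h1
    _ = ENNReal.ofReal (s.card * (δ * (2 * (W * δ)) ^ (m + 1)) ^ (m + 1)) *
          ∫⁻ z, f z ^ (m + 2) := by
        rw [Finset.sum_const, nsmul_eq_mul, ← mul_assoc, ENNReal.ofReal_mul (Nat.cast_nonneg _),
          ENNReal.ofReal_natCast]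
    _ ≤ _ := by
        refine mul_le_mul' (ENNReal.ofReal_le_ofReal ?_) le_rfl
        calc (s.card : ℝ) * (δ * (2 * (W * δ)) ^ (m + 1)) ^ (m + 1)
            ≤ (5 * (2 * M + 1) ^ m * (δ ^ (m + 1))⁻¹) *
              (δ * (2 * (W * δ)) ^ (m + 1)) ^ (m + 1) := by gcongr
          _ = 5 * (2 * M + 1) ^ m * (((2 * (W * δ)) ^ (m + 1)) ^ (m + 1)) *
              ((δ ^ (m + 1))⁻¹ * δ ^ (m + 1)) := by
              rw [mul_pow δ]
              ring
          _ = _ := by
              rw [inv_mul_cancel₀ (by positivity), mul_one, ← pow_mul]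
              have e2 : (m + 1) * (m + 1) = (m + 1) ^ 2 := by ring
              rw [e2, ← mul_assoc 2 W δ, mul_pow (2 * W) δ]
              ring

theorem core (hm : 1 ≤ m) (D : ℕ) {L K0 W M : ℝ} (hL : 0 ≤ L) (hK0 : 0 ≤ K0) (hW : 0 < W)
    (hM : 0 ≤ M) : ∃ C : ℝ, 0 < C ∧ ∀ (h : Fin m → ℝ → ℝ → ℝ) (_A : ∀ r, Adm D L (W + 5) (h r))
      (δ : ℝ), 0 < δ → δ ≤ 1 → ∀ (s : Finset (ℤ × (Fin m → ℤ)))
      (a : ℤ × (Fin m → ℤ) → ℝ) (b : ℤ × (Fin m → ℤ) → Fin m → ℝ),
      (∀ i ∈ s, |(i.1 : ℝ) * δ| ≤ 2) → (∀ i ∈ s, ∀ r, |(i.2 r : ℝ) * δ| ≤ M) →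
      ∀ f : ℝ × ℝ × (Fin m → ℝ) → ℝ≥0∞, Measurable f → (∀ z, f z ≠ 0 → z ∈ nbhd h δ K0) →
      ∑ i ∈ s, (∫⁻ z in ltube δ W i.1 i.2 (a i) (b i), f z) ^ (m + 2) ≤
        ENNReal.ofReal (C * (1 + Real.log (1 / δ)) ^ 2 * δ ^ ((m + 1) ^ 2)) *
          ∫⁻ z, f z ^ (m + 2) := by
  classical
  set K : ℝ := L * W + K0 + W with hK
  have hK' : 0 < K := by positivity
  set N : ℕ := 2 * (D + 1) * m + 1 with hN
  set Cs : ℝ := 5 * (2 * M + 1) ^ m * (2 * W) ^ ((m + 1) ^ 2) with hCs
  set Cc : ℝ := classC m D K L W with hCc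
  have hCc0 : 0 ≤ Cc := classC_nonneg hK' hL hW.le
  have hCs0 : 0 < Cs := by positivity
  refine ⟨(N : ℝ) ^ (m + 2) * (N * (Cs + 2 * Cc)), by positivity, ?_⟩
  intro h A δ hδ hδ1 s a b hk hc f hf hsupp
  have hlog0 : 0 ≤ Real.log (1 / δ) := Real.log_nonneg (by
    rw [le_div_iff₀ hδ]; linarith)
  set lg := Real.log (1 / δ) with hlg
  set I : ℝ≥0∞ := ∫⁻ z, f z ^ (m + 2) with hI
  have hch : ∀ i : ℤ × (Fin m → ℤ), ∃ p q : ℕ → ℝ, i ∈ s → (∀ β, p β ≤ q β → -1 ≤ p β ∧ q β ≤ 1 ∧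
      (∀ t, |t| ≤ 1 → |a i + i.1 * δ * t| ≤ W + 5) ∧
      ∀ r, ∀ t ∈ Icc (p β) (q β),
        |h r t (a i + i.1 * δ * t) - b i r - i.2 r * δ * t| ≤ (L * W + K0 + W) * δ) ∧
      ∀ z ∈ ltube δ W i.1 i.2 (a i) (b i), z ∈ nbhd h δ K0 →
        ∃ β < 2 * (D + 1) * m + 1, z ∈ (Piece.mk i.1 i.2 (a i) (b i) (p β) (q β)).body δ W := by
    intro i
    by_cases hi : i ∈ s
    · obtain ⟨p, q, h1, h2⟩ := tube_pieces A hδ1 hL (K0 := K0) hW.le i.1 i.2 (a i) (b i) (hk i hi)
      exact ⟨p, q, fun _ => ⟨h1, h2⟩⟩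
    · exact ⟨fun _ => 0, fun _ => 0, fun h' => absurd h' hi⟩
  choose p q hpq using hch
  set P : ℕ → ℤ × (Fin m → ℤ) → Piece m := fun β i => Piece.mk i.1 i.2 (a i) (b i) (p i β) (q i β)
    with hP
  -- one bin
  have hbin : ∀ β : ℕ, ∑ i ∈ s, (∫⁻ z in (P β i).body δ W, f z) ^ (m + 2) ≤
      ENNReal.ofReal ((Cs + 2 * Cc) * (1 + lg) ^ 2 * δ ^ ((m + 1) ^ 2)) * I := by
    intro β
    set s1 := s.filter fun i => q i β - p i β ≤ δ with hs1
    set s2 := s.filter fun i => ¬ (q i β - p i β ≤ δ) with hs2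
    have hsplit : ∑ i ∈ s, (∫⁻ z in (P β i).body δ W, f z) ^ (m + 2) =
        ∑ i ∈ s1, (∫⁻ z in (P β i).body δ W, f z) ^ (m + 2) +
        ∑ i ∈ s2, (∫⁻ z in (P β i).body δ W, f z) ^ (m + 2) := by
      rw [hs1, hs2, Finset.sum_filter_add_sum_filter_not]
    have hshort := short_bound hδ hδ1 hW.le hM s1 (fun i hi => hk i (Finset.mem_filter.1 hi).1)
      (fun i hi => hc i (Finset.mem_filter.1 hi).1) (P β)
      (fun i hi => (Finset.mem_filter.1 hi).2) f hf
    set cl : ℤ × (Fin m → ℤ) → ℕ := fun i => ⌊Real.logb 2 (2 / (q i β - p i β))⌋₊ with hcl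
    set T : ℕ := ⌊Real.logb 2 (2 / δ)⌋₊ + 1 with hT
    have hcl2 : ∀ i ∈ s2, -1 ≤ p i β ∧ q i β ≤ 1 ∧ δ < q i β - p i β := by
      intro i hi
      rw [hs2, Finset.mem_filter, not_le] at hi
      obtain ⟨h1, h2⟩ := hpq i hi.1
      have h3 := h1 β (by linarith [hi.2])
      exact ⟨h3.1, h3.2.1, hi.2⟩
    have hmaps : ∀ i ∈ s2, cl i ∈ Finset.range T := by
      intro i hi
      obtain ⟨h1, h2, h3⟩ := hcl2 i hi
      rw [Finset.mem_range, hT, Nat.lt_succ_iff]
      apply Nat.floor_le_floor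
      apply Real.logb_le_logb_of_le (by norm_num) (by
        have : 0 < q i β - p i β := by linarith
        positivity)
      gcongr
    have hlong : ∑ i ∈ s2, (∫⁻ z in (P β i).body δ W, f z) ^ (m + 2) ≤
        ENNReal.ofReal (2 * Cc * (1 + lg) ^ 2 * δ ^ ((m + 1) ^ 2)) * I := by
      rw [← Finset.sum_fiberwise_of_maps_to hmaps]
      calc ∑ j ∈ Finset.range T, ∑ i ∈ s2.filter fun i => cl i = j,
            (∫⁻ z in (P β i).body δ W, f z) ^ (m + 2)
          ≤ ∑ _j ∈ Finset.range T, ENNReal.ofReal (Cc * (1 + lg) * δ ^ ((m + 1) ^ 2)) * I := by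
            apply Finset.sum_le_sum
            intro j _
            refine class_bound (ℓ := (1 / 2 : ℝ) ^ j) (R := W + 5) (K := K) hm A hδ hδ1
              (by positivity) (pow_le_one₀ (by norm_num) (by norm_num)) hK' hL hW.le _ (P β)
              ?_ ?_ f hf
            · intro i hi
              rw [Finset.mem_filter] at hi
              obtain ⟨h1, h2, h3⟩ := hcl2 i hi.1
              have his : i ∈ s := (Finset.mem_filter.1 (hs2 ▸ hi.1)).1
              have hlen0 : 0 < q i β - p i β := by linarith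
              obtain ⟨h4, -⟩ := hpq i his
              obtain ⟨-, -, h5, h6⟩ := h4 β (by linarith)
              have hlb : 0 ≤ Real.logb 2 (2 / (q i β - p i β)) := by
                apply Real.logb_nonneg (by norm_num)
                rw [le_div_iff₀ hlen0]
                linarith
              have h7 : (2 : ℝ) ^ j ≤ 2 / (q i β - p i β) := by
                have h8 := Nat.floor_le hlb
                rw [← Real.rpow_natCast, ← Real.le_logb_iff_rpow_le (by norm_num) (by positivity)]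
                rw [← hi.2]
                exact h8
              have h9 : 2 / (q i β - p i β) < (2 : ℝ) ^ (j + 1) := by
                have h8 := Nat.lt_floor_add_one (Real.logb 2 (2 / (q i β - p i β)))
                rw [← Real.rpow_natCast, ← Real.logb_lt_iff_lt_rpow (by norm_num) (by positivity)]
                rw [← hi.2]
                push_cast
                exact h8
              have e2 : (1 / 2 : ℝ) ^ j * 2 ^ j = 1 := by
                rw [← mul_pow]; norm_num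
              have hp2 : (0 : ℝ) < 2 ^ j := by positivity
              refine ⟨h1, h2, ?_, ?_, hk i his, h5, h6⟩
              · -- `(1/2)^j ≤ len`
                show (1 / 2 : ℝ) ^ j ≤ q i β - p i β
                rw [div_lt_iff₀ hlen0, pow_succ] at h9
                have h10 : 1 < (q i β - p i β) * 2 ^ j := by nlinarith
                by_contra hcon
                push Not at hcon
                have := mul_lt_mul_of_pos_right hcon hp2
                rw [e2] at this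
                linarith
              · show q i β - p i β ≤ 2 * (1 / 2 : ℝ) ^ j
                rw [le_div_iff₀ hlen0] at h7
                by_contra hcon
                push Not at hcon
                have := mul_lt_mul_of_pos_right hcon hp2
                rw [mul_assoc, e2] at this
                nlinarith
            · intro i _ i' _ h1 h2
              exact Prod.ext h1 h2
        _ = ENNReal.ofReal (T * (Cc * (1 + lg) * δ ^ ((m + 1) ^ 2))) * I := by
            rw [Finset.sum_const, Finset.card_range, nsmul_eq_mul, ← mul_assoc,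
              ENNReal.ofReal_mul (Nat.cast_nonneg _), ENNReal.ofReal_natCast]
        _ ≤ _ := by
            refine mul_le_mul' (ENNReal.ofReal_le_ofReal ?_) le_rfl
            have hT2 : (T : ℝ) ≤ 2 * (1 + lg) := by
              have h1 : 0 ≤ Real.logb 2 (2 / δ) := by
                apply Real.logb_nonneg (by norm_num)
                rw [le_div_iff₀ hδ]
                linarith
              have h2 := Nat.floor_le h1
              have h3 : Real.logb 2 (2 / δ) = 1 + lg / Real.log 2 := by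
                rw [Real.logb, hlg, ← mul_one_div 2 δ, Real.log_mul (by norm_num) (by positivity)]
                have : Real.log 2 ≠ 0 := by positivity
                field_simp
              have h4 : lg / Real.log 2 ≤ 2 * lg := by
                rw [div_le_iff₀ (by positivity)]
                have := Real.log_two_gt_d9
                nlinarith
              rw [hT]
              push_cast
              linarith
            calc (T : ℝ) * (Cc * (1 + lg) * δ ^ ((m + 1) ^ 2))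
                ≤ (2 * (1 + lg)) * (Cc * (1 + lg) * δ ^ ((m + 1) ^ 2)) := by gcongr
              _ = _ := by ring
    rw [hsplit]
    calc _ ≤ ENNReal.ofReal (Cs * δ ^ ((m + 1) ^ 2)) * I +
          ENNReal.ofReal (2 * Cc * (1 + lg) ^ 2 * δ ^ ((m + 1) ^ 2)) * I :=
          add_le_add hshort hlong
      _ = ENNReal.ofReal (Cs * δ ^ ((m + 1) ^ 2) + 2 * Cc * (1 + lg) ^ 2 * δ ^ ((m + 1) ^ 2)) * I := by
          rw [← add_mul, ENNReal.ofReal_add (by positivity) (by positivity)]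
      _ ≤ _ := by
          gcongr
          have h1 : 1 ≤ (1 + lg) ^ 2 := one_le_pow₀ (by linarith)
          have h2 : 0 < δ ^ ((m + 1) ^ 2) := by positivity
          have h3 : Cs * δ ^ ((m + 1) ^ 2) ≤ Cs * δ ^ ((m + 1) ^ 2) * (1 + lg) ^ 2 :=
            le_mul_of_one_le_right (by positivity) h1
          nlinarith
  -- all bins
  have hpt : ∀ i ∈ s, (∫⁻ z in ltube δ W i.1 i.2 (a i) (b i), f z) ^ (m + 2) ≤
      (N : ℝ≥0∞) ^ (m + 2) * ∑ β ∈ Finset.range N, (∫⁻ z in (P β i).body δ W, f z) ^ (m + 2) := by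
    intro i hi
    have h1 : ∫⁻ z in ltube δ W i.1 i.2 (a i) (b i), f z ≤
        ∑ β ∈ Finset.range N, ∫⁻ z in (P β i).body δ W, f z := by
      have hVm : Measurable f := hf
      calc ∫⁻ z in ltube δ W i.1 i.2 (a i) (b i), f z
          ≤ ∫⁻ z in ⋃ β ∈ Finset.range N, (P β i).body δ W, f z := by
            have hU : MeasurableSet (⋃ β ∈ Finset.range N, (P β i).body δ W) :=
              Finset.measurableSet_biUnion _ fun β _ => ((P β i).body_closed δ W).measurableSet
            have hTm : MeasurableSet (ltube δ W i.1 i.2 (a i) (b i)) := by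
              have : ltube δ W i.1 i.2 (a i) (b i) =
                {z : ℝ × ℝ × (Fin m → ℝ) | |z.2.1 - (a i + i.1 * δ * z.1)| ≤ W * δ} ∩
                ⋂ r, {z : ℝ × ℝ × (Fin m → ℝ) |
                  |z.2.2 r - (b i r + i.2 r * δ * z.1)| ≤ W * δ} := by
                ext z; simp [ltube]
              rw [this]
              exact ((isClosed_le (by fun_prop) continuous_const).inter
                (isClosed_iInter fun r => isClosed_le (by fun_prop) continuous_const)).measurableSet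
            rw [← lintegral_indicator hU, ← lintegral_indicator hTm]
            apply lintegral_mono
            intro z
            by_cases hz : z ∈ ltube δ W i.1 i.2 (a i) (b i)
            · simp only [indicator_of_mem hz]
              by_cases hz0 : f z = 0
              · rw [hz0]; exact zero_le
              · obtain ⟨β, hβ, hβ2⟩ := (hpq i hi).2 z hz (hsupp z hz0)
                rw [indicator_of_mem]
                exact mem_biUnion (Finset.mem_range.2 hβ) hβ2
            · simp only [indicator_of_notMem hz]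
              exact zero_le
        _ ≤ ∑ β ∈ Finset.range N, ∫⁻ z in (P β i).body δ W, f z :=
            lint_biUnion_le _ _ _ _
    calc (∫⁻ z in ltube δ W i.1 i.2 (a i) (b i), f z) ^ (m + 2)
        ≤ (∑ β ∈ Finset.range N, ∫⁻ z in (P β i).body δ W, f z) ^ (m + 2) := by gcongr
      _ ≤ _ := by
          have := pow_sum_le (Finset.range N) (fun β => ∫⁻ z in (P β i).body δ W, f z) (m + 2)
            (by omega)
          rw [Finset.card_range] at this
          exact this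
  calc ∑ i ∈ s, (∫⁻ z in ltube δ W i.1 i.2 (a i) (b i), f z) ^ (m + 2)
      ≤ ∑ i ∈ s, (N : ℝ≥0∞) ^ (m + 2) *
          ∑ β ∈ Finset.range N, (∫⁻ z in (P β i).body δ W, f z) ^ (m + 2) :=
        Finset.sum_le_sum hpt
    _ = (N : ℝ≥0∞) ^ (m + 2) * ∑ β ∈ Finset.range N,
          ∑ i ∈ s, (∫⁻ z in (P β i).body δ W, f z) ^ (m + 2) := by
        rw [← Finset.mul_sum, Finset.sum_comm]
    _ ≤ (N : ℝ≥0∞) ^ (m + 2) * ∑ _β ∈ Finset.range N,
          ENNReal.ofReal ((Cs + 2 * Cc) * (1 + lg) ^ 2 * δ ^ ((m + 1) ^ 2)) * I := by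
        gcongr with β _
        exact hbin β
    _ = ENNReal.ofReal ((N : ℝ) ^ (m + 2) * (N * (Cs + 2 * Cc)) * (1 + lg) ^ 2 *
          δ ^ ((m + 1) ^ 2)) * I := by
        rw [Finset.sum_const, Finset.card_range, nsmul_eq_mul]
        have e1 : (N : ℝ) ^ (m + 2) * (N * (Cs + 2 * Cc)) * (1 + lg) ^ 2 * δ ^ ((m + 1) ^ 2) =
          (N : ℝ) ^ (m + 2) * (N * ((Cs + 2 * Cc) * (1 + lg) ^ 2 * δ ^ ((m + 1) ^ 2))) := by ring
        rw [e1, ENNReal.ofReal_mul (p := (N : ℝ) ^ (m + 2)) (by positivity),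
          ENNReal.ofReal_mul (p := (N : ℝ)) (Nat.cast_nonneg _),
          ENNReal.ofReal_pow (Nat.cast_nonneg _), ENNReal.ofReal_natCast]
        ring

end Pool.Agent.H28.SM
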