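import Mathlib

set_option autoImplicit false

/-!
# Kakeya near surfaces: lattice points near a curve
-/

open Set MeasureTheory

namespace Pool.Agent.H28.SM

theorem lattice_box {m : ℕ} (F : Finset (Fin m → ℤ)) (z : Fin m → ℝ) {A : ℝ} (hA : 0 ≤ A)
    (h : ∀ κ ∈ F, ∀ r, |(κ r : ℝ) - z r| ≤ A) : (F.card : ℝ) ≤ (2 * A + 1) ^ m := by
  classical
  have hsub : F ⊆ Fintype.piFinset (fun r => Finset.Icc ⌈z r - A⌉ ⌊z r + A⌋) := by
    intro κ hκ
    rw [Fintype.mem_piFinset]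
    intro r
    have h1 := h κ hκ r
    rw [abs_le] at h1
    rw [Finset.mem_Icc]
    exact ⟨Int.ceil_le.2 (by linarith [h1.1]), Int.le_floor.2 (by linarith [h1.2])⟩
  have h1 := Finset.card_le_card hsub
  rw [Fintype.card_piFinset] at h1
  calc (F.card : ℝ) ≤ ((∏ r : Fin m, (Finset.Icc ⌈z r - A⌉ ⌊z r + A⌋).card : ℕ) : ℝ) := by
        exact_mod_cast h1
    _ = ∏ r : Fin m, ((Finset.Icc ⌈z r - A⌉ ⌊z r + A⌋).card : ℝ) := by push_cast; rfl
    _ ≤ ∏ _r : Fin m, (2 * A + 1) := by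
        apply Finset.prod_le_prod
        · intro r _; positivity
        · intro r _
          rw [Int.card_Icc]
          have h2 : ((⌊z r + A⌋ + 1 - ⌈z r - A⌉ : ℤ) : ℝ) ≤ 2 * A + 1 := by
            push_cast
            have h3 := Int.floor_le (z r + A)
            have h4 := Int.le_ceil (z r - A)
            linarith
          rcases le_total 0 (⌊z r + A⌋ + 1 - ⌈z r - A⌉) with h3 | h3
          · have h4 : (((⌊z r + A⌋ + 1 - ⌈z r - A⌉).toNat : ℕ) : ℝ) =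
                ((⌊z r + A⌋ + 1 - ⌈z r - A⌉ : ℤ) : ℝ) := by
              exact_mod_cast congrArg (Int.cast : ℤ → ℝ) (Int.toNat_of_nonneg h3)
            rw [h4]
            exact h2
          · rw [Int.toNat_of_nonpos h3]
            push_cast
            linarith
    _ = (2 * A + 1) ^ m := by simp

theorem count_interval {m : ℕ} (u u' : ℝ → Fin m → ℝ)
    (hu : ∀ t r, HasDerivAt (fun t => u t r) (u' t r) t)
    (hc : ∀ r, Continuous (fun t => u' t r)) (p q : ℝ) {ρ δ C1 : ℝ} (hρ : 0 < ρ) (hδ : 0 < δ)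
    (hC1 : 0 ≤ C1) (J : Finset (Fin m → ℤ))
    (hJ : ∀ κ ∈ J, ∃ τ ∈ Icc p q, ∀ r, |(κ r : ℝ) * δ - u τ r| ≤ C1 * ρ) :
    (J.card : ℝ) ≤ (1 + 1 / ρ * ∫ t in Icc p q, ∑ r, |u' t r|) *
      (2 * ((C1 + 1) * ρ / δ) + 1) ^ m := by
  classical
  set H : ℝ → ℝ := fun t => ∑ r, |u' t r| with hH
  have hHc : Continuous H := continuous_finsetSum _ fun r _ => (hc r).abs
  have hH0 : ∀ t, 0 ≤ H t := fun t => Finset.sum_nonneg fun r _ => abs_nonneg _
  have hI0 : 0 ≤ ∫ t in Icc p q, H t := integral_nonneg hH0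
  rcases J.eq_empty_or_nonempty with hJe | hJne
  · rw [hJe]
    simp only [Finset.card_empty, Nat.cast_zero]
    positivity
  have hpq : p ≤ q := by
    obtain ⟨κ, hκ⟩ := hJne
    obtain ⟨τ, hτ, -⟩ := hJ κ hκ
    exact hτ.1.trans hτ.2
  set w : ℝ → ℝ := fun τ => 1 / ρ * ∫ t in p..τ, H t with hw
  have hint : ∀ a b : ℝ, IntervalIntegrable H volume a b := fun a b => hHc.intervalIntegrable a b
  have hwdiff : ∀ a b : ℝ, w b - w a = 1 / ρ * ∫ t in a..b, H t := by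
    intro a b
    rw [hw]
    simp only
    rw [← mul_sub, intervalIntegral.integral_interval_sub_left (hint _ _) (hint _ _)]
  have hwmono : ∀ a b : ℝ, a ≤ b → w a ≤ w b := by
    intro a b hab
    have h1 := hwdiff a b
    have h2 : 0 ≤ ∫ t in a..b, H t := intervalIntegral.integral_nonneg hab fun t _ => hH0 t
    have h3 : 0 ≤ 1 / ρ * ∫ t in a..b, H t := by positivity
    linarith
  have hwp : w p = 0 := by rw [hw]; simp
  have hvar : ∀ a b : ℝ, a ≤ b → w b - w a ≤ 1 → ∀ r, |u b r - u a r| ≤ ρ := by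
    intro a b hab h1 r
    have h2 : ∫ t in a..b, u' t r = u b r - u a r :=
      intervalIntegral.integral_eq_sub_of_hasDerivAt (fun t _ => hu t r)
        ((hc r).intervalIntegrable a b)
    rw [← h2]
    calc |∫ t in a..b, u' t r| ≤ ∫ t in a..b, |u' t r| :=
          intervalIntegral.abs_integral_le_integral_abs hab
      _ ≤ ∫ t in a..b, H t := by
          apply intervalIntegral.integral_mono_on hab ((hc r).abs.intervalIntegrable a b)
            (hint a b)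
          intro t _
          exact Finset.single_le_sum (f := fun r => |u' t r|) (fun r _ => abs_nonneg _)
            (Finset.mem_univ r)
      _ = ρ * (w b - w a) := by
          rw [hwdiff]; field_simp
      _ ≤ ρ := by nlinarith
  have hch : ∀ κ : Fin m → ℤ, ∃ τ : ℝ, κ ∈ J → τ ∈ Icc p q ∧
      ∀ r, |(κ r : ℝ) * δ - u τ r| ≤ C1 * ρ := by
    intro κ
    by_cases hκ : κ ∈ J
    · obtain ⟨τ, h1, h2⟩ := hJ κ hκ
      exact ⟨τ, fun _ => ⟨h1, h2⟩⟩
    · exact ⟨0, fun h => absurd h hκ⟩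
  choose τ hτ using hch
  set Mx : ℝ := (2 * ((C1 + 1) * ρ / δ) + 1) ^ m with hMx
  have hMx0 : 0 ≤ Mx := by positivity
  have hmaps : ∀ κ ∈ J, ⌊w (τ κ)⌋₊ ∈ Finset.range (⌊w q⌋₊ + 1) := by
    intro κ hκ
    rw [Finset.mem_range]
    exact Nat.lt_succ_of_le (Nat.floor_le_floor (hwmono _ _ (hτ κ hκ).1.2))
  have hfib : ∀ b ∈ Finset.range (⌊w q⌋₊ + 1), (J.filter fun κ => ⌊w (τ κ)⌋₊ = b).card ≤ ⌊Mx⌋₊ := by
    intro b _
    apply Nat.le_floor
    rcases (J.filter fun κ => ⌊w (τ κ)⌋₊ = b).eq_empty_or_nonempty with he | ⟨κ0, hκ0⟩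
    · rw [he]; simpa using hMx0
    rw [Finset.mem_filter] at hκ0
    refine lattice_box _ (fun r => u (τ κ0) r / δ) (by positivity) ?_
    intro κ hκ r
    rw [Finset.mem_filter] at hκ
    have h1 := (hτ κ hκ.1).2 r
    have h2 : |u (τ κ) r - u (τ κ0) r| ≤ ρ := by
      have e1 : (⌊w (τ κ)⌋₊ : ℝ) = ⌊w (τ κ0)⌋₊ := by rw [hκ.2, hκ0.2]
      have h3 : 0 ≤ w (τ κ) := by rw [← hwp]; exact hwmono _ _ (hτ κ hκ.1).1.1
      have h4 : 0 ≤ w (τ κ0) := by rw [← hwp]; exact hwmono _ _ (hτ κ0 hκ0.1).1.1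
      have h5 := Nat.floor_le h3
      have h6 := Nat.floor_le h4
      have h7 := Nat.lt_floor_add_one (w (τ κ))
      have h8 := Nat.lt_floor_add_one (w (τ κ0))
      rcases le_total (τ κ) (τ κ0) with h9 | h9
      · rw [abs_sub_comm]
        exact hvar _ _ h9 (by linarith) r
      · exact hvar _ _ h9 (by linarith) r
    have e2 : (κ r : ℝ) - u (τ κ0) r / δ = ((κ r : ℝ) * δ - u (τ κ0) r) / δ := by
      field_simp
    rw [e2, abs_div, abs_of_pos hδ]
    gcongr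
    have e3 : (κ r : ℝ) * δ - u (τ κ0) r =
      ((κ r : ℝ) * δ - u (τ κ) r) + (u (τ κ) r - u (τ κ0) r) := by ring
    rw [e3]
    refine (abs_add_le _ _).trans ?_
    linarith
  have h1 := Finset.card_le_mul_card_image_of_maps_to hmaps ⌊Mx⌋₊ hfib
  rw [Finset.card_range] at h1
  have hwq : w q = 1 / ρ * ∫ t in Icc p q, H t := by
    rw [hw]
    simp only
    rw [intervalIntegral.integral_of_le hpq, ← integral_Icc_eq_integral_Ioc]
  have hwq0 : 0 ≤ w q := by rw [hwq]; positivity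
  calc (J.card : ℝ) ≤ ((⌊Mx⌋₊ * (⌊w q⌋₊ + 1) : ℕ) : ℝ) := by exact_mod_cast h1
    _ = (⌊Mx⌋₊ : ℝ) * ((⌊w q⌋₊ : ℝ) + 1) := by push_cast; ring
    _ ≤ Mx * (w q + 1) := by
        gcongr
        · exact Nat.floor_le hMx0
        · exact Nat.floor_le hwq0
    _ = _ := by rw [hwq]; ring

/-- lattice points near finitely many arcs of a curve -/
theorem count_curve {m N : ℕ} (u u' : ℝ → Fin m → ℝ)
    (hu : ∀ t r, HasDerivAt (fun t => u t r) (u' t r) t)
    (hc : ∀ r, Continuous (fun t => u' t r)) (p q : ℕ → ℝ) {ρ δ C1 : ℝ} (hρ : 0 < ρ) (hδ : 0 < δ)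
    (hC1 : 0 ≤ C1) (J : Finset (Fin m → ℤ))
    (hJ : ∀ κ ∈ J, ∃ b < N, ∃ τ ∈ Icc (p b) (q b), ∀ r, |(κ r : ℝ) * δ - u τ r| ≤ C1 * ρ) :
    (J.card : ℝ) ≤ (∑ b ∈ Finset.range N, (1 + 1 / ρ * ∫ t in Icc (p b) (q b), ∑ r, |u' t r|)) *
      (2 * ((C1 + 1) * ρ / δ) + 1) ^ m := by
  classical
  have hsub : J ⊆ (Finset.range N).biUnion fun b => J.filter fun κ =>
      ∃ τ ∈ Icc (p b) (q b), ∀ r, |(κ r : ℝ) * δ - u τ r| ≤ C1 * ρ := by
    intro κ hκ
    obtain ⟨b, hb, h⟩ := hJ κ hκ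
    rw [Finset.mem_biUnion]
    exact ⟨b, Finset.mem_range.2 hb, Finset.mem_filter.2 ⟨hκ, h⟩⟩
  have h1 := (Finset.card_le_card hsub).trans Finset.card_biUnion_le
  calc (J.card : ℝ) ≤ ((∑ b ∈ Finset.range N, (J.filter fun κ =>
      ∃ τ ∈ Icc (p b) (q b), ∀ r, |(κ r : ℝ) * δ - u τ r| ≤ C1 * ρ).card : ℕ) : ℝ) := by
        exact_mod_cast h1
    _ = ∑ b ∈ Finset.range N, ((J.filter fun κ =>
      ∃ τ ∈ Icc (p b) (q b), ∀ r, |(κ r : ℝ) * δ - u τ r| ≤ C1 * ρ).card : ℝ) := by push_cast; rfl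
    _ ≤ ∑ b ∈ Finset.range N, (1 + 1 / ρ * ∫ t in Icc (p b) (q b), ∑ r, |u' t r|) *
      (2 * ((C1 + 1) * ρ / δ) + 1) ^ m := by
        apply Finset.sum_le_sum
        intro b _
        exact count_interval u u' hu hc (p b) (q b) hρ hδ hC1 _
          (fun κ hκ => (Finset.mem_filter.1 hκ).2)
    _ = _ := by rw [Finset.sum_mul]

end Pool.Agent.H28.SM
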