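import Pool.Agent.H28.SM.Leaf2

set_option autoImplicit false

/-!
# Kakeya near surfaces: the global estimate
-/

open Set MeasureTheory Metric ENNReal

namespace Pool.Agent.H28.SM

variable {m : ℕ}

theorem exists_lb {ι : Type*} (t : Finset ι) (f : ι → ℝ) (hf : ∀ i ∈ t, 0 < f i) :
    ∃ ε : ℝ, 0 < ε ∧ ∀ i ∈ t, ε ≤ f i := by
  classical
  rcases t.eq_empty_or_nonempty with rfl | hne
  · exact ⟨1, one_pos, by simp⟩
  · obtain ⟨j, hj, hmin⟩ := t.exists_min_image f hne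
    exact ⟨f j, hf j hj, hmin⟩

theorem log_absorb {ε : ℝ} (hε : 0 < ε) {δ : ℝ} (hδ : 0 < δ) (hδ1 : δ ≤ 1) :
    (1 + Real.log (1 / δ)) ^ 2 ≤ (1 + 4 / ε) ^ 2 * δ ^ (-(ε / 2)) := by
  have hx : 0 ≤ 1 / δ := by positivity
  have h1 := Real.log_le_rpow_div hx (by positivity : 0 < ε / 4)
  have h2 : (1 / δ) ^ (ε / 4) = δ ^ (-(ε / 4)) := by
    rw [one_div, Real.inv_rpow hδ.le, ← Real.rpow_neg hδ.le]
  rw [h2] at h1
  have h3 : 1 ≤ δ ^ (-(ε / 4)) := by
    rw [Real.rpow_neg hδ.le]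
    exact (one_le_inv₀ (Real.rpow_pos_of_pos hδ _)).2 (Real.rpow_le_one hδ.le hδ1 (by positivity))
  have h4 : 1 + Real.log (1 / δ) ≤ (1 + 4 / ε) * δ ^ (-(ε / 4)) := by
    calc 1 + Real.log (1 / δ) ≤ δ ^ (-(ε / 4)) + δ ^ (-(ε / 4)) / (ε / 4) := add_le_add h3 h1
      _ = _ := by field_simp
  have h5 : 0 ≤ 1 + Real.log (1 / δ) := by
    have : 0 ≤ Real.log (1 / δ) := Real.log_nonneg (by rw [le_div_iff₀ hδ]; linarith)
    linarith
  calc (1 + Real.log (1 / δ)) ^ 2 ≤ ((1 + 4 / ε) * δ ^ (-(ε / 4))) ^ 2 :=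
        pow_le_pow_left₀ h5 h4 2
    _ = (1 + 4 / ε) ^ 2 * δ ^ (-(ε / 2)) := by
        rw [mul_pow, ← Real.rpow_natCast (δ ^ (-(ε / 4))), ← Real.rpow_mul hδ.le]
        congr 2
        push_cast
        ring

/-- large `δ` -/
theorem large_delta (K : Set (Eu (m + 2))) (hK : IsCompact K) {δ₁ : ℝ} (hδ₁ : 0 < δ₁) :
    ∃ C : ℝ, 0 < C ∧ ∀ δ : ℝ, δ₁ ≤ δ → ∀ g : Eu (m + 2) → ℝ≥0∞, Measurable g →
      ∀ (e : Sp (m + 2)) (a : Eu (m + 2)) (B : Set (Eu (m + 2))),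
        avg δ (B.indicator (K.indicator g)) (e : Eu (m + 2)) a ^ (m + 2) ≤
          ENNReal.ofReal C * ∫⁻ y in K, g y ^ (m + 2) := by
  obtain ⟨c, hc, hvol⟩ := vol_tube (m + 1)
  set v : ℝ := volume.real K with hv
  have hv0 : 0 ≤ v := measureReal_nonneg
  have hvK : volume K = ENNReal.ofReal v := by
    rw [hv, measureReal_def, ENNReal.ofReal_toReal hK.measure_lt_top.ne]
  refine ⟨((c * δ₁ ^ (m + 1))⁻¹) ^ (m + 2) * v ^ (m + 1) + 1, by positivity, ?_⟩
  intro δ hδ g hg e a B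
  have hδ0 : 0 < δ := lt_of_lt_of_le hδ₁ hδ
  have hne : ‖(e : Eu (m + 2))‖ = 1 := norm_eq_of_mem_sphere e
  have hcd : 0 < c * δ₁ ^ (m + 1) := by positivity
  have h1 : avg δ (B.indicator (K.indicator g)) (e : Eu (m + 2)) a ≤
      ENNReal.ofReal ((c * δ₁ ^ (m + 1))⁻¹) * ∫⁻ y in K, g y := by
    unfold avg
    rw [ENNReal.ofReal_inv_of_pos hcd]
    refine mul_le_mul' (ENNReal.inv_le_inv.2
      (le_trans (ENNReal.ofReal_le_ofReal ?_) (hvol δ e a hδ0 hne))) ?_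
    · gcongr
    · calc ∫⁻ y in tube δ (e : Eu (m + 2)) a, B.indicator (K.indicator g) y
          ≤ ∫⁻ y, B.indicator (K.indicator g) y := setLIntegral_le_lintegral _ _
        _ ≤ ∫⁻ y, K.indicator g y := lintegral_mono fun y => indicator_le_self _ _ _
        _ = ∫⁻ y in K, g y := lintegral_indicator hK.measurableSet _
  have h2 := holder_nat volume K m g hg
  rw [hvK] at h2
  calc avg δ (B.indicator (K.indicator g)) (e : Eu (m + 2)) a ^ (m + 2)
      ≤ (ENNReal.ofReal ((c * δ₁ ^ (m + 1))⁻¹) * ∫⁻ y in K, g y) ^ (m + 2) := by gcongr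
    _ = ENNReal.ofReal ((c * δ₁ ^ (m + 1))⁻¹) ^ (m + 2) * (∫⁻ y in K, g y) ^ (m + 2) := by
        rw [mul_pow]
    _ ≤ ENNReal.ofReal ((c * δ₁ ^ (m + 1))⁻¹) ^ (m + 2) *
        (ENNReal.ofReal v ^ (m + 1) * ∫⁻ y in K, g y ^ (m + 2)) := by gcongr
    _ = ENNReal.ofReal (((c * δ₁ ^ (m + 1))⁻¹) ^ (m + 2) * v ^ (m + 1)) *
        ∫⁻ y in K, g y ^ (m + 2) := by
        rw [← mul_assoc, ← ENNReal.ofReal_pow (by positivity), ← ENNReal.ofReal_pow hv0,
          ← ENNReal.ofReal_mul (by positivity)]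
    _ ≤ _ := by
        gcongr
        linarith

theorem global_maj (hm : 1 ≤ m) {U : Set (Eu (m + 2))} (hU : IsOpen U)
    {F : Eu (m + 2) → (Fin m → ℝ)} (hF : ∀ k : ℕ, ContDiffOn ℝ (k + 1) F U)
    {K : Set (Eu (m + 2))} (hK : IsCompact K) (hKU : K ⊆ U)
    (hreg : ∀ z ∈ K, Function.Surjective (fderiv ℝ F z)) {ε : ℝ} (hε : 0 < ε) :
    ∃ C : ℝ, 0 < C ∧ ∀ δ : ℝ, 0 < δ → δ < 1 → ∀ g : Eu (m + 2) → ℝ≥0∞, Measurable g →
      ∃ G : Sp (m + 2) → ℝ≥0∞, Measurable G ∧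
        (∀ e : Sp (m + 2), ∀ a c, avg δ ({z | ‖F z - c‖ ≤ δ}.indicator (K.indicator g))
          (e : Eu (m + 2)) a ^ (m + 2) ≤ G e) ∧
        ∫⁻ e, G e ∂(surf (m + 2)) ≤
          ENNReal.ofReal (C * δ ^ (-ε)) * ∫⁻ z in K, g z ^ (m + 2) := by
  classical
  set k : ℕ := ⌈4 * ((m : ℝ) + 2) / ε⌉₊ with hk
  have hkε : 2 * ((m : ℝ) + 2) / (k + 1) ≤ ε / 2 := by
    have h1 : 4 * ((m : ℝ) + 2) / ε ≤ k := Nat.le_ceil _
    rw [div_le_iff₀ hε] at h1
    rw [div_le_iff₀ (by positivity)]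
    nlinarith
  have hloc : ∀ z₀ : Eu (m + 2), ∃ ρ' δ₀ C : ℝ, z₀ ∈ K → (0 < ρ' ∧ 0 < δ₀ ∧ 0 < C ∧
      ∀ (F' : Eu (m + 2) → (Fin m → ℝ)), Measurable F' →
      ∀ δ : ℝ, 0 < δ → δ ≤ 1 → δ < δ₀ → ∀ g : Eu (m + 2) → ℝ≥0∞, Measurable g →
      (∀ z, g z ≠ 0 → z ∈ ball z₀ ρ' ∧ F' z = F z) →
      ∃ G : Sp (m + 2) → ℝ≥0∞, Measurable G ∧
        (∀ e : Sp (m + 2), ∀ a c, avg δ ({z | ‖F' z - c‖ ≤ δ}.indicator g)
          (e : Eu (m + 2)) a ^ (m + 2) ≤ G e) ∧
        ∫⁻ e, G e ∂(surf (m + 2)) ≤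
          ENNReal.ofReal (C * δ ^ (-(2 * ((m : ℝ) + 2) / (k + 1))) *
            (1 + Real.log (1 / δ)) ^ 2) * ∫⁻ z, g z ^ (m + 2)) := by
    intro z₀
    by_cases hz : z₀ ∈ K
    · obtain ⟨ρ', δ₀, C, h⟩ := local_maj hm k
        ((hF k).contDiffAt (hU.mem_nhds (hKU hz))) (hreg z₀ hz)
      exact ⟨ρ', δ₀, C, fun _ => h⟩
    · exact ⟨0, 0, 0, fun h => absurd h hz⟩
  choose ρ δ₀ Cz hz using hloc
  obtain ⟨t, htK, htcov⟩ := hK.elim_nhds_subcover (fun z => ball z (ρ z))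
    (fun z hzK => ball_mem_nhds z (hz z hzK).1)
  obtain ⟨δ₁, hδ₁, hδ₁t⟩ := exists_lb t δ₀ (fun z hzt => (hz z (htK z hzt)).2.1)
  obtain ⟨C1, hC1, hlarge⟩ := large_delta K hK hδ₁
  set σ : ℝ := (surf (m + 2)).real univ with hσ
  have hσ0 : 0 ≤ σ := measureReal_nonneg
  have hσt : surf (m + 2) univ = ENNReal.ofReal σ := by
    rw [hσ, measureReal_def, ENNReal.ofReal_toReal]
    unfold surf
    exact measure_ne_top _ _
  set C2 : ℝ := ∑ z ∈ t, Cz z with hC2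
  have hC20 : 0 ≤ C2 := Finset.sum_nonneg fun z hzt => (hz z (htK z hzt)).2.2.1.le
  set C3 : ℝ := (t.card : ℝ) ^ (m + 2) * C2 * (1 + 4 / ε) ^ 2 with hC3
  have hC30 : 0 ≤ C3 := by positivity
  refine ⟨C3 + C1 * σ + 1, by positivity, ?_⟩
  intro δ hδ hδ1 g hg
  have hδε : 1 ≤ δ ^ (-ε) := by
    rw [Real.rpow_neg hδ.le]
    exact (one_le_inv₀ (Real.rpow_pos_of_pos hδ _)).2 (Real.rpow_le_one hδ.le hδ1.le hε.le)
  set I := ∫⁻ z in K, g z ^ (m + 2) with hI
  rcases lt_or_ge δ δ₁ with hlt | hge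
  swap
  · refine ⟨fun _ => ENNReal.ofReal C1 * I, measurable_const,
      fun e a c => hlarge δ hge g hg e a _, ?_⟩
    rw [lintegral_const, hσt]
    calc ENNReal.ofReal C1 * I * ENNReal.ofReal σ = ENNReal.ofReal (C1 * σ) * I := by
          rw [ENNReal.ofReal_mul hC1.le]; ring
      _ ≤ _ := by
          refine mul_le_mul' (ENNReal.ofReal_le_ofReal ?_) le_rfl
          have h1 : 0 ≤ C1 * σ := by positivity
          nlinarith
  · -- the function `F` restricted to `K`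
    set F' : Eu (m + 2) → (Fin m → ℝ) := K.indicator F with hF'
    have hF'm : Measurable F' := by
      have hc : ContinuousOn F K := (hF 0).continuousOn.mono hKU
      exact hc.measurable_piecewise continuousOn_const hK.measurableSet
    have hF'K : ∀ z ∈ K, F' z = F z := fun z hzK => indicator_of_mem hzK F
    set gz : Eu (m + 2) → Eu (m + 2) → ℝ≥0∞ := fun z₀ =>
      (K ∩ ball z₀ (ρ z₀)).indicator g with hgz
    have hgzm : ∀ z₀, Measurable (gz z₀) := fun z₀ =>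
      hg.indicator (hK.measurableSet.inter measurableSet_ball)
    have hgzs : ∀ z₀ z, gz z₀ z ≠ 0 → z ∈ ball z₀ (ρ z₀) ∧ F' z = F z := by
      intro z₀ z h
      by_cases hmem : z ∈ K ∩ ball z₀ (ρ z₀)
      · exact ⟨hmem.2, hF'K z hmem.1⟩
      · rw [hgz] at h
        simp only [indicator_of_notMem hmem] at h
        exact absurd rfl h
    have hex : ∀ z₀ : Eu (m + 2), ∃ G : Sp (m + 2) → ℝ≥0∞, z₀ ∈ t → (Measurable G ∧
        (∀ e : Sp (m + 2), ∀ a c, avg δ ({z | ‖F' z - c‖ ≤ δ}.indicator (gz z₀))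
          (e : Eu (m + 2)) a ^ (m + 2) ≤ G e) ∧
        ∫⁻ e, G e ∂(surf (m + 2)) ≤
          ENNReal.ofReal (Cz z₀ * δ ^ (-(2 * ((m : ℝ) + 2) / (k + 1))) *
            (1 + Real.log (1 / δ)) ^ 2) * ∫⁻ z, gz z₀ z ^ (m + 2)) := by
      intro z₀
      by_cases hzt : z₀ ∈ t
      · obtain ⟨G, hG⟩ := (hz z₀ (htK z₀ hzt)).2.2.2 F' hF'm δ hδ hδ1.le
          (lt_of_lt_of_le hlt (hδ₁t z₀ hzt)) (gz z₀) (hgzm z₀) (hgzs z₀)
        exact ⟨G, fun _ => hG⟩
      · exact ⟨fun _ => 0, fun h => absurd h hzt⟩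
    choose G hG using hex
    have hlog := log_absorb hε hδ hδ1.le
    have hpow : δ ^ (-(2 * ((m : ℝ) + 2) / (k + 1))) ≤ δ ^ (-(ε / 2)) :=
      Real.rpow_le_rpow_of_exponent_ge hδ hδ1.le (by linarith)
    refine ⟨fun e => (t.card : ℝ≥0∞) ^ (m + 2) * ∑ z₀ ∈ t, G z₀ e, ?_, ?_, ?_⟩
    · exact (Finset.measurable_fun_sum _ fun z₀ hzt => (hG z₀ hzt).1).const_mul _
    · intro e a c
      have h1 : avg δ ({z | ‖F z - c‖ ≤ δ}.indicator (K.indicator g)) (e : Eu (m + 2)) a ≤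
          ∑ z₀ ∈ t, avg δ ({z | ‖F' z - c‖ ≤ δ}.indicator (gz z₀)) (e : Eu (m + 2)) a := by
        unfold avg
        have hmc : MeasurableSet {z | ‖F' z - c‖ ≤ δ} :=
          measurableSet_le (hF'm.sub_const c).norm measurable_const
        rw [← Finset.mul_sum, ← lintegral_finsetSum' _ (fun z₀ _ =>
          ((hgzm z₀).indicator hmc).aemeasurable)]
        gcongr with z
        by_cases hz1 : z ∈ {z | ‖F z - c‖ ≤ δ}
        · rw [indicator_of_mem hz1]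
          by_cases hz2 : z ∈ K
          · rw [indicator_of_mem hz2]
            obtain ⟨z₀, hz₀t, hz₀⟩ := mem_iUnion₂.1 (htcov hz2)
            have hz3 : z ∈ {z | ‖F' z - c‖ ≤ δ} := by
              show ‖F' z - c‖ ≤ δ
              rw [hF'K z hz2]
              exact hz1
            have e1 : g z = {z | ‖F' z - c‖ ≤ δ}.indicator (gz z₀) z := by
              have hmem : z ∈ K ∩ ball z₀ (ρ z₀) := ⟨hz2, hz₀⟩
              rw [indicator_of_mem hz3, hgz]
              simp only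
              rw [indicator_of_mem hmem]
            rw [e1]
            exact Finset.single_le_sum
              (f := fun z₀ => {z | ‖F' z - c‖ ≤ δ}.indicator (gz z₀) z)
              (fun z₀ _ => zero_le) hz₀t
          · rw [indicator_of_notMem hz2]
            exact zero_le
        · rw [indicator_of_notMem hz1]
          exact zero_le
      calc avg δ ({z | ‖F z - c‖ ≤ δ}.indicator (K.indicator g)) (e : Eu (m + 2)) a ^ (m + 2)
          ≤ (∑ z₀ ∈ t, avg δ ({z | ‖F' z - c‖ ≤ δ}.indicator (gz z₀))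
              (e : Eu (m + 2)) a) ^ (m + 2) := by gcongr
        _ ≤ (t.card : ℝ≥0∞) ^ (m + 2) * ∑ z₀ ∈ t,
              avg δ ({z | ‖F' z - c‖ ≤ δ}.indicator (gz z₀)) (e : Eu (m + 2)) a ^ (m + 2) :=
            pow_sum_le _ _ _ (by omega)
        _ ≤ (t.card : ℝ≥0∞) ^ (m + 2) * ∑ z₀ ∈ t, G z₀ e := by
            gcongr with z₀ hzt
            exact (hG z₀ hzt).2.1 e a c
    · rw [lintegral_const_mul' _ _ (ENNReal.pow_ne_top (ENNReal.natCast_ne_top _)),
        lintegral_finsetSum' _ (fun z₀ hzt => (hG z₀ hzt).1.aemeasurable)]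
      set D : ℝ := δ ^ (-(2 * ((m : ℝ) + 2) / (k + 1))) * (1 + Real.log (1 / δ)) ^ 2 with hD
      have hD0 : 0 ≤ D := by
        have := Real.rpow_nonneg hδ.le (-(2 * ((m : ℝ) + 2) / (k + 1)))
        positivity
      have h2 : ∑ z₀ ∈ t, ∫⁻ e, G z₀ e ∂(surf (m + 2)) ≤ ENNReal.ofReal (C2 * D) * I := by
        calc ∑ z₀ ∈ t, ∫⁻ e, G z₀ e ∂(surf (m + 2))
            ≤ ∑ z₀ ∈ t, ENNReal.ofReal (Cz z₀ * D) * I := by
              apply Finset.sum_le_sum
              intro z₀ hzt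
              refine (hG z₀ hzt).2.2.trans ?_
              rw [mul_assoc (Cz z₀)]
              refine mul_le_mul' le_rfl ?_
              rw [hI, ← lintegral_indicator hK.measurableSet]
              apply lintegral_mono
              intro z
              by_cases hz1 : z ∈ K ∩ ball z₀ (ρ z₀)
              · rw [indicator_of_mem hz1.1, hgz]
                simp only [indicator_of_mem hz1]
                exact le_rfl
              · rw [hgz]
                simp only [indicator_of_notMem hz1]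
                rw [zero_pow (by omega)]
                exact zero_le
          _ = ENNReal.ofReal (C2 * D) * I := by
              rw [← Finset.sum_mul, ← ENNReal.ofReal_sum_of_nonneg, hC2, Finset.sum_mul]
              intro z₀ hzt
              exact mul_nonneg (hz z₀ (htK z₀ hzt)).2.2.1.le hD0
      calc (t.card : ℝ≥0∞) ^ (m + 2) * ∑ z₀ ∈ t, ∫⁻ e, G z₀ e ∂(surf (m + 2))
          ≤ (t.card : ℝ≥0∞) ^ (m + 2) * (ENNReal.ofReal (C2 * D) * I) := by gcongr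
        _ = ENNReal.ofReal ((t.card : ℝ) ^ (m + 2) * (C2 * D)) * I := by
            rw [← mul_assoc, ENNReal.ofReal_mul (p := (t.card : ℝ) ^ (m + 2)) (by positivity),
              ENNReal.ofReal_pow (Nat.cast_nonneg _), ENNReal.ofReal_natCast]
        _ ≤ _ := by
            refine mul_le_mul' (ENNReal.ofReal_le_ofReal ?_) le_rfl
            have hDle : D ≤ (1 + 4 / ε) ^ 2 * δ ^ (-ε) := by
              calc D ≤ δ ^ (-(ε / 2)) * ((1 + 4 / ε) ^ 2 * δ ^ (-(ε / 2))) := by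
                    rw [hD]
                    exact mul_le_mul hpow hlog (by positivity)
                      (Real.rpow_nonneg hδ.le _)
                _ = (1 + 4 / ε) ^ 2 * (δ ^ (-(ε / 2)) * δ ^ (-(ε / 2))) := by ring
                _ = _ := by
                    rw [← Real.rpow_add hδ]
                    congr 2
                    ring
            have h3 : (t.card : ℝ) ^ (m + 2) * (C2 * D) ≤ C3 * δ ^ (-ε) := by
              calc (t.card : ℝ) ^ (m + 2) * (C2 * D) ≤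
                    (t.card : ℝ) ^ (m + 2) * (C2 * ((1 + 4 / ε) ^ 2 * δ ^ (-ε))) := by gcongr
                _ = _ := by rw [hC3]; ring
            have h4 : 0 ≤ (C1 * σ + 1) * δ ^ (-ε) := by positivity
            linarith

end Pool.Agent.H28.SM
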