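import Pool.Agent.H28.SM.Coord

set_option autoImplicit false

/-!
# Kakeya near surfaces: adapted coordinates
-/

open Set MeasureTheory Metric Filter Topology

namespace Pool.Agent.H28.SM

variable {m : ℕ}

/-- a frame whose first two vectors span the kernel -/
theorem exists_frame (T : Eu (m + 2) →L[ℝ] (Fin m → ℝ)) (hT : Function.Surjective T) :
    ∃ b : OrthonormalBasis (Fin (m + 2)) ℝ (Eu (m + 2)),
      ∀ v, T v = 0 → b.repr v 0 = 0 → b.repr v 1 = 0 → v = 0 := by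
  classical
  set N : Submodule ℝ (Eu (m + 2)) := LinearMap.ker (T : Eu (m + 2) →ₗ[ℝ] (Fin m → ℝ)) with hN
  have hfin : Module.finrank ℝ N = 2 := by
    have h1 := LinearMap.finrank_range_add_finrank_ker (T : Eu (m + 2) →ₗ[ℝ] (Fin m → ℝ))
    rw [finrank_euclideanSpace, Fintype.card_fin] at h1
    have h2 : LinearMap.range (T : Eu (m + 2) →ₗ[ℝ] (Fin m → ℝ)) = ⊤ :=
      LinearMap.range_eq_top.2 hT
    rw [h2, finrank_top, Module.finrank_fin_fun] at h1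
    rw [hN]
    omega
  set o : OrthonormalBasis (Fin 2) ℝ N := (stdOrthonormalBasis ℝ N).reindex (finCongr hfin)
    with ho
  set v : Fin (m + 2) → Eu (m + 2) := fun i => if i = 0 then (o 0 : Eu (m + 2)) else
    if i = 1 then (o 1 : Eu (m + 2)) else 0 with hv
  have hv0 : v 0 = o 0 := by simp [hv]
  have hv1 : v 1 = o 1 := by simp [hv]
  have hoo : ∀ i j : Fin 2, (inner ℝ (o i : Eu (m + 2)) (o j : Eu (m + 2)) : ℝ) =
      if i = j then 1 else 0 := by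
    intro i j
    have := o.orthonormal
    rw [orthonormal_iff_ite] at this
    exact this i j
  have hon : Orthonormal ℝ (({0, 1} : Set (Fin (m + 2))).domRestrict v) := by
    rw [orthonormal_iff_ite]
    rintro ⟨i, hi⟩ ⟨j, hj⟩
    change (inner ℝ (v i) (v j) : ℝ) = _
    simp only [Subtype.mk.injEq]
    have h01 : (0 : Fin (m + 2)) ≠ 1 := by
      intro h
      simp at h
    rcases hi with rfl | hi <;> rcases hj with rfl | hj
    · rw [hv0, hoo]; simp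
    · rw [mem_singleton_iff] at hj
      subst hj
      rw [hv0, hv1, hoo]; simp
    · rw [mem_singleton_iff] at hi
      subst hi
      rw [hv0, hv1, hoo]; simp
    · rw [mem_singleton_iff] at hi hj
      subst hi; subst hj
      rw [hv1, hoo]; simp
  obtain ⟨b, hb⟩ := hon.exists_orthonormalBasis_extension_of_card_eq (by simp)
  refine ⟨b, fun w hw h0 h1 => ?_⟩
  have hb0 : b 0 = o 0 := by rw [hb 0 (by simp), hv0]
  have hb1 : b 1 = o 1 := by rw [hb 1 (by simp), hv1]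
  rw [OrthonormalBasis.repr_apply_apply, hb0] at h0
  rw [OrthonormalBasis.repr_apply_apply, hb1] at h1
  have hwN : w ∈ N := hw
  have h2 : (⟨w, hwN⟩ : N) = 0 := by
    apply o.repr.map_eq_zero_iff.1
    ext i
    rw [OrthonormalBasis.repr_apply_apply]
    fin_cases i
    · exact h0
    · exact h1
  exact congrArg Subtype.val h2

theorem bdd_near {V : Type*} [NormedAddCommGroup V] [NormedSpace ℝ V] {k : ℕ}
    (H : Fin m → V → ℝ) (w₀ : V) (hH : ∀ r, ContDiffAt ℝ (k + 1) (H r) w₀) :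
    ∃ ρ A : ℝ, 0 < ρ ∧ 0 ≤ A ∧ ∀ w ∈ ball w₀ ρ, ∀ r, ContDiffAt ℝ (k + 1) (H r) w ∧
      ∀ j ≤ k + 1, ‖iteratedFDeriv ℝ j (H r) w‖ ≤ A := by
  classical
  have hneT : ((k : WithTop ℕ∞) + 1) ≠ (⊤ : ℕ∞) := by
    have : ((k : WithTop ℕ∞) + 1) = (((k + 1 : ℕ) : ℕ∞) : WithTop ℕ∞) := by norm_cast
    rw [this]
    intro h
    have := WithTop.coe_injective h
    exact ENat.natCast_ne_top _ this
  set g : Fin m → ℕ → ℝ := fun r j => ‖iteratedFDeriv ℝ j (H r) w₀‖ + 1 with hg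
  have hg0 : ∀ r j, 0 ≤ g r j := fun r j => add_nonneg (norm_nonneg _) zero_le_one
  set A : ℝ := ∑ r : Fin m, ∑ j ∈ Finset.range (k + 2), g r j with hA
  have hA0 : 0 ≤ A := Finset.sum_nonneg fun r _ => Finset.sum_nonneg fun j _ => hg0 r j
  have hev : ∀ r, ∀ᶠ w in 𝓝 w₀, ContDiffAt ℝ (k + 1) (H r) w ∧
      ∀ j ∈ Finset.range (k + 2), ‖iteratedFDeriv ℝ j (H r) w‖ ≤ A := by
    intro r
    refine ((hH r).eventually hneT).and ?_
    rw [Finset.eventually_all]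
    intro j hj
    have hj' : j ≤ k + 1 := by rw [Finset.mem_range] at hj; omega
    have hc : ContinuousAt (fun w => ‖iteratedFDeriv ℝ j (H r) w‖) w₀ :=
      ((hH r).continuousAt_iteratedFDeriv (by exact_mod_cast hj')).norm
    have hlt : ‖iteratedFDeriv ℝ j (H r) w₀‖ < g r j := lt_add_one _
    have hle : g r j ≤ A := by
      calc g r j ≤ ∑ j ∈ Finset.range (k + 2), g r j :=
            Finset.single_le_sum (fun j _ => hg0 r j) hj
        _ ≤ A := Finset.single_le_sum (f := fun r => ∑ j ∈ Finset.range (k + 2), g r j)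
              (fun r _ => Finset.sum_nonneg fun j _ => hg0 r j) (Finset.mem_univ r)
    filter_upwards [hc.eventually (gt_mem_nhds hlt)] with w hw
    exact hw.le.trans hle
  rw [← eventually_all] at hev
  obtain ⟨ρ, hρ, hball⟩ := Metric.eventually_nhds_iff_ball.1 hev
  refine ⟨ρ, A, hρ, hA0, fun w hw r => ⟨(hball w hw r).1, fun j hj => ?_⟩⟩
  exact (hball w hw r).2 j (Finset.mem_range.2 (by omega))

theorem chart_exists {k : ℕ} {F : Eu (m + 2) → (Fin m → ℝ)} {z₀ : Eu (m + 2)}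
    (hF : ContDiffAt ℝ (k + 1) F z₀) (hs : Function.Surjective (fderiv ℝ F z₀)) :
    ∃ (b : OrthonormalBasis (Fin (m + 2)) ℝ (Eu (m + 2)))
      (H : Fin m → ℝ × ℝ × (Fin m → ℝ) → ℝ) (ρ A : ℝ), 0 < ρ ∧ ρ ≤ 1 ∧ 0 ≤ A ∧
      (∀ r, ∀ w ∈ ball (b.repr z₀ 0, b.repr z₀ 1, F z₀) ρ, ContDiffAt ℝ (k + 1) (H r) w ∧
        ∀ j ≤ k + 1, ‖iteratedFDeriv ℝ j (H r) w‖ ≤ A) ∧
      ∃ ρ' : ℝ, 0 < ρ' ∧ ∀ z ∈ ball z₀ ρ',
        (b.repr z 0, b.repr z 1, F z) ∈ ball (b.repr z₀ 0, b.repr z₀ 1, F z₀) (ρ / 2) ∧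
        ∀ r : Fin m, b.repr z r.succ.succ = H r (b.repr z 0, b.repr z 1, F z) := by
  classical
  obtain ⟨b, hb⟩ := exists_frame (fderiv ℝ F z₀) hs
  set Φ : Eu (m + 2) → ℝ × ℝ × (Fin m → ℝ) := fun z => (b.repr z 0, b.repr z 1, F z) with hΦ
  set p : Fin (m + 2) → (Eu (m + 2) →L[ℝ] ℝ) := fun i =>
    (EuclideanSpace.proj i : EuclideanSpace ℝ (Fin (m + 2)) →L[ℝ] ℝ).comp
      (b.repr.toContinuousLinearEquiv : Eu (m + 2) →L[ℝ] EuclideanSpace ℝ (Fin (m + 2))) with hp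
  have hpa : ∀ i z, p i z = b.repr z i := fun i z => rfl
  set Φ' : Eu (m + 2) →L[ℝ] ℝ × ℝ × (Fin m → ℝ) :=
    (p 0).prod ((p 1).prod (fderiv ℝ F z₀)) with hΦ'
  have hΦe : Φ = fun z => (p 0 z, p 1 z, F z) := rfl
  have hne : ((k : WithTop ℕ∞) + 1) ≠ 0 := by
    intro h
    have : (k + 1 : ℕ) = 0 := by exact_mod_cast h
    omega
  have hΦc : ContDiffAt ℝ (k + 1) Φ z₀ := by
    rw [hΦe]
    exact (p 0).contDiff.contDiffAt.prodMk ((p 1).contDiff.contDiffAt.prodMk hF)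
  have hΦd : HasFDerivAt Φ Φ' z₀ := by
    rw [hΦe, hΦ']
    exact (p 0).hasFDerivAt.prodMk ((p 1).hasFDerivAt.prodMk
      (hF.differentiableAt hne).hasFDerivAt)
  have hinj : Function.Injective (Φ' : Eu (m + 2) →ₗ[ℝ] ℝ × ℝ × (Fin m → ℝ)) := by
    rw [injective_iff_map_eq_zero]
    intro v hv
    have h1 : (p 0 v, p 1 v, fderiv ℝ F z₀ v) = (0 : ℝ × ℝ × (Fin m → ℝ)) := hv
    rw [Prod.ext_iff, Prod.ext_iff] at h1
    exact hb v h1.2.2 h1.1 h1.2.1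
  have hdim : Module.finrank ℝ (Eu (m + 2)) = Module.finrank ℝ (ℝ × ℝ × (Fin m → ℝ)) := by
    rw [finrank_euclideanSpace, Fintype.card_fin, Module.finrank_prod, Module.finrank_prod,
      Module.finrank_self, Module.finrank_fin_fun]
    omega
  set Le := LinearMap.linearEquivOfInjective
    (Φ' : Eu (m + 2) →ₗ[ℝ] ℝ × ℝ × (Fin m → ℝ)) hinj hdim with hLe
  set Ce : Eu (m + 2) ≃L[ℝ] ℝ × ℝ × (Fin m → ℝ) := Le.toContinuousLinearEquiv with hCe
  have hCeq : (Ce : Eu (m + 2) →L[ℝ] ℝ × ℝ × (Fin m → ℝ)) = Φ' := by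
    ext v <;> rfl
  have hΦd' : HasFDerivAt Φ (Ce : Eu (m + 2) →L[ℝ] ℝ × ℝ × (Fin m → ℝ)) z₀ := by
    rw [hCeq]; exact hΦd
  set Ψ := hΦc.localInverse hΦd' hne with hΨ
  have hΨc : ContDiffAt ℝ (k + 1) Ψ (Φ z₀) := hΦc.to_localInverse hΦd' hne
  have hleft : ∀ᶠ z in 𝓝 z₀, Ψ (Φ z) = z :=
    (hΦc.hasStrictFDerivAt' hΦd' hne).eventually_left_inverse
  set H : Fin m → ℝ × ℝ × (Fin m → ℝ) → ℝ := fun r w => p r.succ.succ (Ψ w) with hH
  have hHc : ∀ r, ContDiffAt ℝ (k + 1) (H r) (Φ z₀) := fun r =>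
    (p r.succ.succ).contDiff.contDiffAt.comp _ hΨc
  obtain ⟨ρ1, A, hρ1, hA0, hball⟩ := bdd_near H (Φ z₀) hHc
  set ρ := min ρ1 1 with hρ
  have hρ0 : 0 < ρ := lt_min hρ1 one_pos
  have hev3 : ∀ᶠ z in 𝓝 z₀, Φ z ∈ ball (Φ z₀) (ρ / 2) :=
    hΦc.continuousAt.eventually (ball_mem_nhds _ (by positivity))
  obtain ⟨ρ', hρ', hball'⟩ := Metric.eventually_nhds_iff_ball.1 (hleft.and hev3)
  refine ⟨b, H, ρ, A, hρ0, min_le_right _ _, hA0, ?_, ρ', hρ', ?_⟩
  · intro r w hw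
    exact hball w (ball_subset_ball (min_le_left _ _) hw) r
  · intro z hz
    obtain ⟨h1, h2⟩ := hball' z hz
    refine ⟨h2, fun r => ?_⟩
    show b.repr z r.succ.succ = b.repr (Ψ (Φ z)) r.succ.succ
    rw [h1]

end Pool.Agent.H28.SM
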