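import Mathlib

set_option autoImplicit false

/-!
# Kakeya near surfaces: two sums over integers
-/

open Set MeasureTheory

namespace Pool.Agent.H28.SM

theorem card_int_near (S : Finset ℤ) (z A : ℝ) (hA : 0 ≤ A) (h : ∀ k ∈ S, |(k : ℝ) - z| ≤ A) :
    (S.card : ℝ) ≤ 2 * A + 1 := by
  have hsub : S ⊆ Finset.Icc ⌈z - A⌉ ⌊z + A⌋ := by
    intro k hk
    have h1 := h k hk
    rw [abs_le] at h1
    rw [Finset.mem_Icc]
    exact ⟨Int.ceil_le.2 (by linarith [h1.1]), Int.le_floor.2 (by linarith [h1.2])⟩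
  have h1 := Finset.card_le_card hsub
  rw [Int.card_Icc] at h1
  have h2 : ((⌊z + A⌋ + 1 - ⌈z - A⌉ : ℤ) : ℝ) ≤ 2 * A + 1 := by
    push_cast
    have h3 := Int.floor_le (z + A)
    have h4 := Int.le_ceil (z - A)
    linarith
  have h5 : (S.card : ℝ) ≤ (((⌊z + A⌋ + 1 - ⌈z - A⌉).toNat : ℕ) : ℝ) := by exact_mod_cast h1
  refine h5.trans ?_
  rcases le_total 0 (⌊z + A⌋ + 1 - ⌈z - A⌉) with h3 | h3
  · have h4 : (((⌊z + A⌋ + 1 - ⌈z - A⌉).toNat : ℕ) : ℝ) =
        ((⌊z + A⌋ + 1 - ⌈z - A⌉ : ℤ) : ℝ) := by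
      exact_mod_cast congrArg (Int.cast : ℤ → ℝ) (Int.toNat_of_nonneg h3)
    rw [h4]
    exact h2
  · rw [Int.toNat_of_nonpos h3]
    push_cast
    linarith

theorem card_int_zero (S : Finset ℤ) (A : ℝ) (hA : 0 ≤ A) (h : ∀ k ∈ S, k ≠ 0 ∧ |(k : ℝ)| ≤ A) :
    (S.card : ℝ) ≤ 2 * A := by
  have hsub : insert 0 S ⊆ Finset.Icc (-⌊A⌋) ⌊A⌋ := by
    intro k hk
    rcases Finset.mem_insert.1 hk with rfl | hk
    · rw [Finset.mem_Icc]
      have : 0 ≤ ⌊A⌋ := Int.floor_nonneg.2 hA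
      omega
    · have h1 := (h k hk).2
      rw [abs_le] at h1
      rw [Finset.mem_Icc]
      refine ⟨?_, Int.le_floor.2 h1.2⟩
      have : -k ≤ ⌊A⌋ := Int.le_floor.2 (by push_cast; linarith [h1.1])
      omega
  have h1 := Finset.card_le_card hsub
  rw [Finset.card_insert_of_notMem (fun h0 => (h 0 h0).1 rfl), Int.card_Icc] at h1
  have h0 : 0 ≤ ⌊A⌋ := Int.floor_nonneg.2 hA
  have h2 : (⌊A⌋ + 1 - -⌊A⌋).toNat = 2 * ⌊A⌋.toNat + 1 := by omega
  rw [h2] at h1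
  have h3 : S.card ≤ 2 * ⌊A⌋.toNat := by omega
  have h4 : ((⌊A⌋.toNat : ℕ) : ℝ) ≤ A := by
    have : ((⌊A⌋.toNat : ℕ) : ℝ) = ((⌊A⌋ : ℤ) : ℝ) := by
      exact_mod_cast congrArg (Int.cast : ℤ → ℝ) (Int.toNat_of_nonneg h0)
    rw [this]
    exact Int.floor_le A
  calc (S.card : ℝ) ≤ ((2 * ⌊A⌋.toNat : ℕ) : ℝ) := by exact_mod_cast h3
    _ = 2 * ((⌊A⌋.toNat : ℕ) : ℝ) := by push_cast; ring
    _ ≤ 2 * A := by linarith

/-- the number of `k` for which a quadratic is small -/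
theorem pointwise_sum (S : Finset ℤ) (β g B : ℝ) (hB : 0 ≤ B)
    (h : ∀ k ∈ S, k ≠ 0 ∧ |(k : ℝ)| * |2 * β + k * g| ≤ B) :
    (S.card : ℝ) * |β| ≤ 4 * B + |β| := by
  classical
  rcases eq_or_ne β 0 with hβ | hβ
  · rw [hβ, abs_zero]
    simpa using hB
  have hβ0 : 0 < |β| := abs_pos.2 hβ
  set A := B / |β| with hA
  have hA0 : 0 ≤ A := by positivity
  have h1 : ((S.filter fun k : ℤ => |β| ≤ |2 * β + k * g|).card : ℝ) ≤ 2 * A := by
    apply card_int_zero _ A hA0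
    intro k hk
    rw [Finset.mem_filter] at hk
    obtain ⟨hk0, hkB⟩ := h k hk.1
    refine ⟨hk0, ?_⟩
    rw [hA, le_div_iff₀ hβ0]
    exact (mul_le_mul_of_nonneg_left hk.2 (abs_nonneg _)).trans hkB
  have h2 : ((S.filter fun k : ℤ => ¬ |β| ≤ |2 * β + k * g|).card : ℝ) ≤ 2 * A + 1 := by
    apply card_int_near _ (-2 * β / g) A hA0
    intro k hk
    rw [Finset.mem_filter, not_le] at hk
    obtain ⟨hk0, hkB⟩ := h k hk.1
    have h3 : |β| < |(k : ℝ) * g| := by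
      have h4 : |2 * β| ≤ |2 * β + k * g| + |(k : ℝ) * g| := by
        have : 2 * β = (2 * β + k * g) - k * g := by ring
        calc |2 * β| = |(2 * β + k * g) - k * g| := by rw [← this]
          _ ≤ _ := abs_sub _ _
      rw [abs_mul, abs_of_pos (by norm_num : (0:ℝ) < 2)] at h4
      linarith [hk.2]
    have hg : g ≠ 0 := by
      rintro rfl
      rw [mul_zero, abs_zero] at h3
      linarith
    have h4 : 2 * β + k * g = g * ((k : ℝ) - -2 * β / g) := by field_simp; ring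
    rw [h4, abs_mul, ← mul_assoc] at hkB
    rw [abs_mul] at h3
    rw [hA, le_div_iff₀ hβ0, mul_comm]
    exact (mul_le_mul_of_nonneg_right h3.le (abs_nonneg _)).trans hkB
  have h3 : (S.card : ℝ) ≤ 4 * A + 1 := by
    have h4 := Finset.card_filter_add_card_filter_not (s := S)
      (fun k : ℤ => |β| ≤ |2 * β + k * g|)
    have h5 : (S.card : ℝ) = ((S.filter fun k : ℤ => |β| ≤ |2 * β + k * g|).card : ℝ) +
        ((S.filter fun k : ℤ => ¬ |β| ≤ |2 * β + k * g|).card : ℝ) := by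
      rw [← h4]; push_cast; rfl
    linarith
  calc (S.card : ℝ) * |β| ≤ (4 * A + 1) * |β| := by gcongr
    _ = 4 * B + |β| := by rw [hA]; field_simp

theorem harmonic_sum (S : Finset ℤ) (N : ℕ) (h : ∀ k ∈ S, k ≠ 0 ∧ k.natAbs ≤ N) :
    ∑ k ∈ S, 1 / |(k : ℝ)| ≤ 2 * (1 + Real.log N) := by
  classical
  have hsub : S ⊆ (Finset.Icc 1 N).image (fun j : ℕ => (j : ℤ)) ∪
      (Finset.Icc 1 N).image (fun j : ℕ => -(j : ℤ)) := by
    intro k hk
    obtain ⟨hk0, hkN⟩ := h k hk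
    rw [Finset.mem_union, Finset.mem_image, Finset.mem_image]
    rcases lt_or_gt_of_ne hk0 with h1 | h1
    · right
      exact ⟨k.natAbs, Finset.mem_Icc.2 ⟨by omega, hkN⟩, by omega⟩
    · left
      exact ⟨k.natAbs, Finset.mem_Icc.2 ⟨by omega, hkN⟩, by omega⟩
  have h1 : ∑ j ∈ Finset.Icc 1 N, 1 / (j : ℝ) ≤ 1 + Real.log N := by
    have := harmonic_le_one_add_log N
    rw [harmonic_eq_sum_Icc] at this
    push_cast at this
    simpa [one_div] using this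
  calc ∑ k ∈ S, 1 / |(k : ℝ)| ≤ ∑ k ∈ (Finset.Icc 1 N).image (fun j : ℕ => (j : ℤ)) ∪
      (Finset.Icc 1 N).image (fun j : ℕ => -(j : ℤ)), 1 / |(k : ℝ)| :=
        Finset.sum_le_sum_of_subset_of_nonneg hsub fun k _ _ => by positivity
    _ ≤ ∑ k ∈ (Finset.Icc 1 N).image (fun j : ℕ => (j : ℤ)), 1 / |(k : ℝ)| +
        ∑ k ∈ (Finset.Icc 1 N).image (fun j : ℕ => -(j : ℤ)), 1 / |(k : ℝ)| := by
        rw [← Finset.sum_union_inter]
        have : 0 ≤ ∑ k ∈ (Finset.Icc 1 N).image (fun j : ℕ => (j : ℤ)) ∩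
          (Finset.Icc 1 N).image (fun j : ℕ => -(j : ℤ)), 1 / |(k : ℝ)| :=
          Finset.sum_nonneg fun k _ => by positivity
        linarith
    _ = ∑ j ∈ Finset.Icc 1 N, 1 / (j : ℝ) + ∑ j ∈ Finset.Icc 1 N, 1 / (j : ℝ) := by
        rw [Finset.sum_image (fun a _ b _ h => by exact_mod_cast h),
          Finset.sum_image (fun a _ b _ h => by
            have h' : -(a : ℤ) = -(b : ℤ) := h
            omega)]
        congr 1
        · apply Finset.sum_congr rfl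
          intro j _
          simp
        · apply Finset.sum_congr rfl
          intro j _
          simp
    _ ≤ 2 * (1 + Real.log N) := by linarith

end Pool.Agent.H28.SM
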