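import Pool.Agent.H28.SM.Coord
import Pool.Graph.R_seed8.H742R2.Kk.Sphere

set_option autoImplicit false

/-!
# Kakeya near surfaces: from the discrete estimate to the sphere
-/

open Set MeasureTheory Metric ENNReal
open scoped Pointwise

namespace Pool.Agent.H28.SM

variable {m : ℕ}

/-- average over a tube -/
noncomputable def avg {n : ℕ} (δ : ℝ) (f : Eu n → ℝ≥0∞) (e a : Eu n) : ℝ≥0∞ :=
  (volume (tube δ e a))⁻¹ * ∫⁻ y in tube δ e a, f y

theorem vol_tube (n : ℕ) : ∃ c : ℝ, 0 < c ∧ ∀ (δ : ℝ) (e a : Eu (n + 1)), 0 < δ → ‖e‖ = 1 →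
    ENNReal.ofReal (c * δ ^ n) ≤ volume (tube δ e a) :=
  Pool.Agent.H742R2.Kk.volume_tube n

theorem sum_iSup_le {ι X : Type*} [Nonempty X] (s : Finset ι) (g : ι → X → ℝ≥0∞) (B : ℝ≥0∞)
    (h : ∀ x : ι → X, ∑ i ∈ s, g i (x i) ≤ B) : ∑ i ∈ s, ⨆ x, g i x ≤ B := by
  classical
  have h1 : ∀ i, (⨆ x, g i x) = ⨆ x : ι → X, g i (x i) := by
    intro i
    apply le_antisymm
    · apply iSup_le
      intro x
      exact le_iSup (fun x : ι → X => g i (x i)) (fun _ => x)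
    · apply iSup_le
      intro x
      exact le_iSup (fun x => g i x) (x i)
  simp_rw [h1]
  rw [ENNReal.finsetSum_iSup]
  · exact iSup_le h
  · intro x y
    refine ⟨fun i => if g i (x i) ≤ g i (y i) then y i else x i, fun i => ?_⟩
    by_cases hc : g i (x i) ≤ g i (y i)
    · simp only [if_pos hc]
      exact ⟨hc, le_rfl⟩
    · simp only [if_neg hc]
      exact ⟨le_rfl, (not_le.1 hc).le⟩

/-- finitely many cells -/
theorem cells_finite {δ M : ℝ} (hδ : 0 < δ) : {κ : ℤ × (Fin m → ℤ) | |(κ.1 : ℝ) * δ| ≤ 2 ∧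
    ∀ r, |(κ.2 r : ℝ) * δ| ≤ M}.Finite := by
  classical
  apply Set.Finite.subset ((Finset.Icc (-⌈2 / δ⌉) ⌈2 / δ⌉ ×ˢ
    Fintype.piFinset (fun _ : Fin m => Finset.Icc (-⌈M / δ⌉) ⌈M / δ⌉)).finite_toSet)
  have key : ∀ (j : ℤ) (B : ℝ), |(j : ℝ) * δ| ≤ B → j ∈ Finset.Icc (-⌈B / δ⌉) ⌈B / δ⌉ := by
    intro j B hj
    rw [abs_mul, abs_of_pos hδ, ← le_div_iff₀ hδ, abs_le] at hj
    have h1 := Int.le_ceil (B / δ)
    rw [Finset.mem_Icc]
    constructor
    · have : (-⌈B / δ⌉ : ℝ) ≤ j := by linarith [hj.1]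
      exact_mod_cast this
    · have : (j : ℝ) ≤ ⌈B / δ⌉ := by linarith [hj.2]
      exact_mod_cast this
  rintro κ ⟨h1, h2⟩
  rw [Finset.mem_coe, Finset.mem_product, Fintype.mem_piFinset]
  exact ⟨key _ _ h1, fun r => key _ _ (h2 r)⟩

theorem good_part (hm : 1 ≤ m) (D : ℕ) {L K0 M : ℝ} (hL : 0 ≤ L) (hK0 : 0 ≤ K0) (hM : 1 ≤ M) :
    ∃ C : ℝ, 0 < C ∧ ∀ (b : OrthonormalBasis (Fin (m + 2)) ℝ (Eu (m + 2))) (z₀ : Eu (m + 2))
      (h : Fin m → ℝ → ℝ → ℝ) (_A : ∀ r, Adm D L (M + 8) (h r)) (δ : ℝ), 0 < δ → δ ≤ 1 →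
      ∀ f : Eu (m + 2) → ℝ≥0∞, Measurable f → (∀ z, f z ≠ 0 → crd b z₀ z ∈ nbhd h δ K0) →
      ∃ G : Sp (m + 2) → ℝ≥0∞, Measurable G ∧
        (∀ e ∈ good b M, ∀ a, avg δ f (e : Eu (m + 2)) a ^ (m + 2) ≤ G e) ∧
        ∫⁻ e, G e ∂(surf (m + 2)) ≤
          ENNReal.ofReal (C * (1 + Real.log (1 / δ)) ^ 2) * ∫⁻ z, f z ^ (m + 2) := by
  classical
  have hM0 : 0 ≤ M := by linarith
  obtain ⟨C0, hC0, hcore⟩ := core (m := m) hm D (L := L) (K0 := K0) (W := M + 3) (M := M + 1)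
    hL hK0 (by linarith) (by linarith)
  obtain ⟨c, hc, hvol⟩ := vol_tube (m + 1)
  refine ⟨(m + 2) * 2 ^ (m + 2) * (c⁻¹) ^ (m + 2) * C0, by positivity, ?_⟩
  intro b z₀ h A δ hδ hδ1 f hf hsupp
  have hlog0 : 0 ≤ Real.log (1 / δ) := Real.log_nonneg (by
    rw [le_div_iff₀ hδ]; linarith)
  have hR : M + 8 = M + 3 + 5 := by ring
  rw [hR] at A
  set Θ := crd b z₀ with hΘ
  have hΘmp : MeasurePreserving Θ volume volume := crd_mp b z₀
  set F : ℝ × ℝ × (Fin m → ℝ) → ℝ≥0∞ := fun w => f (Θ.symm w) with hF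
  have hFm : Measurable F := hf.comp Θ.symm.measurable
  have hFs : ∀ w, F w ≠ 0 → w ∈ nbhd h δ K0 := by
    intro w hw
    have := hsupp _ hw
    rwa [MeasurableEquiv.apply_symm_apply] at this
  have hFint : ∀ g : Eu (m + 2) → ℝ≥0∞, ∫⁻ w, g (Θ.symm w) = ∫⁻ z, g z := by
    intro g
    exact (hΘmp.symm Θ).lintegral_comp_emb Θ.symm.measurableEmbedding g
  set s : Finset (ℤ × (Fin m → ℤ)) := (cells_finite (m := m) (M := M + 1) hδ).toFinset with hs
  have hsmem : ∀ κ, κ ∈ s ↔ |(κ.1 : ℝ) * δ| ≤ 2 ∧ ∀ r, |(κ.2 r : ℝ) * δ| ≤ M + 1 := by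
    intro κ
    rw [hs, Set.Finite.mem_toFinset]
    rfl
  set SS : ℤ × (Fin m → ℤ) → ℝ≥0∞ := fun κ => ⨆ ab : ℝ × (Fin m → ℝ),
    (∫⁻ w in ltube δ (M + 3) κ.1 κ.2 ab.1 ab.2, F w) ^ (m + 2) with hSS
  have hsum : ∑ κ ∈ s, SS κ ≤ ENNReal.ofReal (C0 * (1 + Real.log (1 / δ)) ^ 2 *
      δ ^ ((m + 1) ^ 2)) * ∫⁻ z, f z ^ (m + 2) := by
    apply sum_iSup_le
    intro x
    have h1 := hcore h A δ hδ hδ1 s (fun κ => (x κ).1) (fun κ => (x κ).2)
      (fun i hi => ((hsmem i).1 hi).1) (fun i hi => ((hsmem i).1 hi).2) F hFm hFs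
    rw [hFint (fun z => f z ^ (m + 2))] at h1
    exact h1
  set V : ℝ≥0∞ := (ENNReal.ofReal (c * δ ^ (m + 1)))⁻¹ ^ (m + 2) with hV
  have hcd : 0 < c * δ ^ (m + 1) := by positivity
  refine ⟨fun e => ∑ κ ∈ s, (cell b M δ κ).indicator (fun _ => V * SS κ) e, ?_, ?_, ?_⟩
  · exact Finset.measurable_sum _ fun κ _ => measurable_const.indicator (cell_meas b M δ κ)
  · intro e he a
    have hne : ‖(e : Eu (m + 2))‖ = 1 := norm_eq_of_mem_sphere e
    set κ : ℤ × (Fin m → ℤ) :=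
      (⌊(b.repr (e : Eu (m + 2)) 1 / b.repr (e : Eu (m + 2)) 0) / δ⌋,
        fun r => ⌊(b.repr (e : Eu (m + 2)) r.succ.succ / b.repr (e : Eu (m + 2)) 0) / δ⌋) with hκ
    have hecell : e ∈ cell b M δ κ := ⟨he, rfl, fun r => rfl⟩
    obtain ⟨he0, he1, her⟩ := he
    have hfl : ∀ (s' M' : ℝ), |s'| ≤ M' → |(⌊s' / δ⌋ : ℝ) * δ| ≤ M' + 1 := by
      intro s' M' hs'
      have h1 := Int.floor_le (s' / δ)
      have h2 := Int.lt_floor_add_one (s' / δ)
      rw [le_div_iff₀ hδ] at h1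
      rw [div_lt_iff₀ hδ] at h2
      have h3 := abs_le.1 hs'
      rw [abs_le]
      constructor <;> nlinarith
    have hκs : κ ∈ s := by
      rw [hsmem]
      constructor
      · have := hfl (b.repr (e : Eu (m + 2)) 1 / b.repr (e : Eu (m + 2)) 0) 1 (by
          rw [abs_div, div_le_one (abs_pos.2 he0)]
          exact he1)
        refine this.trans (by norm_num)
      · intro r
        exact hfl _ M (by
          rw [abs_div, div_le_iff₀ (abs_pos.2 he0)]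
          exact her r)
    obtain ⟨a', b', hab⟩ := tube_sub_ltube b hδ hM0 (e := (e : Eu (m + 2))) (a := a) (z₀ := z₀) he0
      he1 her κ.1 κ.2 rfl (fun r => rfl)
    have h1 : ∫⁻ y in tube δ (e : Eu (m + 2)) a, f y ≤
        ∫⁻ w in ltube δ (M + 3) κ.1 κ.2 a' b', F w := by
      rw [← lintegral_indicator (tube_closed _ _ _).measurableSet,
        ← lintegral_indicator (ltube_closed _ _ _ _ _ _).measurableSet, ← hFint]
      apply lintegral_mono
      intro w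
      by_cases hw : Θ.symm w ∈ tube δ (e : Eu (m + 2)) a
      · simp only [indicator_of_mem hw]
        by_cases hw0 : F w = 0
        · show F w ≤ _
          rw [hw0]; exact zero_le
        · have h2 := hFs w hw0
          have h3 := hab _ hw (by
            rw [← hΘ, MeasurableEquiv.apply_symm_apply]
            exact h2.1)
          rw [← hΘ, MeasurableEquiv.apply_symm_apply] at h3
          rw [indicator_of_mem h3]
      · simp only [indicator_of_notMem hw]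
        exact zero_le
    calc avg δ f (e : Eu (m + 2)) a ^ (m + 2)
        ≤ ((ENNReal.ofReal (c * δ ^ (m + 1)))⁻¹ *
            ∫⁻ w in ltube δ (M + 3) κ.1 κ.2 a' b', F w) ^ (m + 2) := by
          unfold avg
          gcongr
          exact hvol δ e a hδ hne
      _ = V * (∫⁻ w in ltube δ (M + 3) κ.1 κ.2 a' b', F w) ^ (m + 2) := by rw [mul_pow]
      _ ≤ V * SS κ := by
          gcongr
          exact le_iSup (fun ab : ℝ × (Fin m → ℝ) =>
            (∫⁻ w in ltube δ (M + 3) κ.1 κ.2 ab.1 ab.2, F w) ^ (m + 2)) (a', b')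
      _ = (cell b M δ κ).indicator (fun _ => V * SS κ) e := by rw [indicator_of_mem hecell]
      _ ≤ _ := Finset.single_le_sum (f := fun κ => (cell b M δ κ).indicator
            (fun _ => V * SS κ) e) (fun κ _ => zero_le) hκs
  · rw [lintegral_finsetSum' _ (fun κ _ =>
      (measurable_const.indicator (cell_meas b M δ κ)).aemeasurable)]
    calc ∑ κ ∈ s, ∫⁻ e, (cell b M δ κ).indicator (fun _ => V * SS κ) e ∂(surf (m + 2))
        = ∑ κ ∈ s, V * SS κ * surf (m + 2) (cell b M δ κ) := by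
          apply Finset.sum_congr rfl
          intro κ _
          rw [lintegral_indicator (cell_meas b M δ κ), setLIntegral_const]
      _ ≤ ∑ κ ∈ s, V * SS κ * ENNReal.ofReal ((m + 2) * (2 * (2 * δ) ^ (m + 1))) := by
          gcongr with κ _
          exact cell_measure b hδ κ
      _ = V * ENNReal.ofReal ((m + 2) * (2 * (2 * δ) ^ (m + 1))) * ∑ κ ∈ s, SS κ := by
          rw [Finset.mul_sum]
          apply Finset.sum_congr rfl
          intro κ _
          ring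
      _ ≤ V * ENNReal.ofReal ((m + 2) * (2 * (2 * δ) ^ (m + 1))) *
          (ENNReal.ofReal (C0 * (1 + Real.log (1 / δ)) ^ 2 * δ ^ ((m + 1) ^ 2)) *
            ∫⁻ z, f z ^ (m + 2)) := by gcongr
      _ = _ := by
          rw [← mul_assoc]
          congr 1
          rw [hV, ← ENNReal.ofReal_inv_of_pos hcd, ← ENNReal.ofReal_pow (by positivity),
            ← ENNReal.ofReal_mul (by positivity), ← ENNReal.ofReal_mul (by positivity)]
          congr 1
          rw [mul_inv, mul_pow, mul_pow 2 δ]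
          have e1 : (c⁻¹) ^ (m + 2) * ((δ ^ (m + 1))⁻¹) ^ (m + 2) *
              ((m + 2) * (2 * (2 ^ (m + 1) * δ ^ (m + 1)))) *
              (C0 * (1 + Real.log (1 / δ)) ^ 2 * δ ^ ((m + 1) ^ 2)) =
              (m + 2) * 2 ^ (m + 2) * (c⁻¹) ^ (m + 2) * C0 * (1 + Real.log (1 / δ)) ^ 2 *
              (((δ ^ (m + 1))⁻¹) ^ (m + 2) * (δ ^ (m + 1) * δ ^ ((m + 1) ^ 2))) := by
            rw [pow_succ 2 (m + 1)]
            ring
          have e2 : ((δ ^ (m + 1))⁻¹) ^ (m + 2) * (δ ^ (m + 1) * δ ^ ((m + 1) ^ 2)) = 1 := by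
            have e3 : δ ^ (m + 1) * δ ^ ((m + 1) ^ 2) = (δ ^ (m + 1)) ^ (m + 2) := by
              rw [← pow_add, ← pow_mul]
              congr 1
              ring
            rw [e3, ← mul_pow, inv_mul_cancel₀ (by positivity), one_pow]
          rw [e1, e2, mul_one]

/-- the opposite directions -/
def bad (b : OrthonormalBasis (Fin (m + 2)) ℝ (Eu (m + 2))) (M : ℝ) : Set (Sp (m + 2)) :=
  {e | ∃ r : Fin m, M * |b.repr (e : Eu (m + 2)) 0| < |b.repr (e : Eu (m + 2)) r.succ.succ| ∧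
    M * |b.repr (e : Eu (m + 2)) 1| < |b.repr (e : Eu (m + 2)) r.succ.succ|}

/-- the basis with the first two vectors exchanged -/
noncomputable def swp (b : OrthonormalBasis (Fin (m + 2)) ℝ (Eu (m + 2))) :
    OrthonormalBasis (Fin (m + 2)) ℝ (Eu (m + 2)) := b.reindex (Equiv.swap 0 1)

theorem swp_zero (b : OrthonormalBasis (Fin (m + 2)) ℝ (Eu (m + 2))) (v : Eu (m + 2)) :
    (swp b).repr v 0 = b.repr v 1 := by
  rw [OrthonormalBasis.repr_apply_apply, OrthonormalBasis.repr_apply_apply, swp,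
    OrthonormalBasis.reindex_apply]
  simp

theorem swp_one (b : OrthonormalBasis (Fin (m + 2)) ℝ (Eu (m + 2))) (v : Eu (m + 2)) :
    (swp b).repr v 1 = b.repr v 0 := by
  rw [OrthonormalBasis.repr_apply_apply, OrthonormalBasis.repr_apply_apply, swp,
    OrthonormalBasis.reindex_apply]
  simp

theorem swp_succ (b : OrthonormalBasis (Fin (m + 2)) ℝ (Eu (m + 2))) (v : Eu (m + 2))
    (r : Fin m) : (swp b).repr v r.succ.succ = b.repr v r.succ.succ := by
  rw [OrthonormalBasis.repr_apply_apply, OrthonormalBasis.repr_apply_apply, swp,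
    OrthonormalBasis.reindex_apply, Equiv.symm_swap, Equiv.swap_apply_of_ne_of_ne]
  · exact Fin.succ_ne_zero _
  · intro h
    exact Fin.succ_ne_zero r (Fin.succ_injective _ h)

theorem norm_sq_repr (b : OrthonormalBasis (Fin (m + 2)) ℝ (Eu (m + 2))) (v : Eu (m + 2)) :
    ‖v‖ ^ 2 = b.repr v 0 ^ 2 + (b.repr v 1 ^ 2 + ∑ r : Fin m, b.repr v r.succ.succ ^ 2) := by
  rw [← b.repr.norm_map v, EuclideanSpace.norm_sq_eq, Fin.sum_univ_succ, Fin.sum_univ_succ]
  simp only [Real.norm_eq_abs, sq_abs]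
  rfl

theorem mem_bad (b : OrthonormalBasis (Fin (m + 2)) ℝ (Eu (m + 2))) {M : ℝ} (hM : 0 ≤ M)
    {e : Sp (m + 2)} (h1 : e ∉ good b M) (h2 : e ∉ good (swp b) M) : e ∈ bad b M := by
  have key : ∀ x y : ℝ, (∀ r : Fin m, ¬ (M * |x| < |b.repr (e : Eu (m + 2)) r.succ.succ| ∧
      M * |y| < |b.repr (e : Eu (m + 2)) r.succ.succ|)) → |y| ≤ |x| →
      ‖(e : Eu (m + 2))‖ ^ 2 = x ^ 2 + (y ^ 2 + ∑ r : Fin m,
        b.repr (e : Eu (m + 2)) r.succ.succ ^ 2) →
      x ≠ 0 ∧ |y| ≤ |x| ∧ ∀ r : Fin m, |b.repr (e : Eu (m + 2)) r.succ.succ| ≤ M * |x| := by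
    intro x y hno hxy hsq
    have h3 : ∀ r : Fin m, |b.repr (e : Eu (m + 2)) r.succ.succ| ≤ M * |x| := by
      intro r
      by_contra hcon
      push Not at hcon
      exact hno r ⟨hcon, lt_of_le_of_lt (mul_le_mul_of_nonneg_left hxy hM) hcon⟩
    refine ⟨?_, hxy, h3⟩
    rintro rfl
    rw [abs_zero] at hxy
    have hy : y = 0 := abs_eq_zero.1 (le_antisymm hxy (abs_nonneg _))
    have hr : ∀ r : Fin m, b.repr (e : Eu (m + 2)) r.succ.succ = 0 := by
      intro r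
      have := h3 r
      rw [abs_zero, mul_zero] at this
      exact abs_eq_zero.1 (le_antisymm this (abs_nonneg _))
    rw [norm_eq_of_mem_sphere e, hy] at hsq
    simp [hr] at hsq
  by_contra hcon
  have hno : ∀ r : Fin m, ¬ (M * |b.repr (e : Eu (m + 2)) 0| <
      |b.repr (e : Eu (m + 2)) r.succ.succ| ∧
      M * |b.repr (e : Eu (m + 2)) 1| < |b.repr (e : Eu (m + 2)) r.succ.succ|) :=
    fun r hr => hcon ⟨r, hr⟩
  rcases le_total |b.repr (e : Eu (m + 2)) 1| |b.repr (e : Eu (m + 2)) 0| with h3 | h3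
  · exact h1 (key _ _ hno h3 (norm_sq_repr b _))
  · apply h2
    have := key _ _ (fun r hr => hno r ⟨hr.2, hr.1⟩) h3 (by rw [norm_sq_repr b]; ring)
    refine ⟨?_, ?_, fun r => ?_⟩
    · rw [swp_zero]; exact this.1
    · rw [swp_zero, swp_one]; exact this.2.1
    · rw [swp_zero, swp_succ]; exact this.2.2 r

theorem bad_big (b : OrthonormalBasis (Fin (m + 2)) ℝ (Eu (m + 2))) {L1 : ℝ} (hL1 : 0 ≤ L1)
    {e : Sp (m + 2)} (he : e ∈ bad b (4 * L1 + 1)) : ∃ r : Fin m,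
      (4 * L1 + 1) * |b.repr (e : Eu (m + 2)) 0| < |b.repr (e : Eu (m + 2)) r.succ.succ| ∧
      (4 * L1 + 1) * |b.repr (e : Eu (m + 2)) 1| < |b.repr (e : Eu (m + 2)) r.succ.succ| ∧
      1 ≤ (m + 2) * |b.repr (e : Eu (m + 2)) r.succ.succ| := by
  have hne : ‖(e : Eu (m + 2))‖ = 1 := norm_eq_of_mem_sphere e
  obtain ⟨r0, hr0⟩ := he
  obtain ⟨r, -, hrmax⟩ := Finset.exists_max_image (Finset.univ : Finset (Fin m))
    (fun r => |b.repr (e : Eu (m + 2)) r.succ.succ|) ⟨r0, Finset.mem_univ _⟩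
  set er := |b.repr (e : Eu (m + 2)) r.succ.succ| with her
  have hr0le : |b.repr (e : Eu (m + 2)) r0.succ.succ| ≤ er := hrmax r0 (Finset.mem_univ _)
  have he0 : (4 * L1 + 1) * |b.repr (e : Eu (m + 2)) 0| < er := lt_of_lt_of_le hr0.1 hr0le
  have he1 : (4 * L1 + 1) * |b.repr (e : Eu (m + 2)) 1| < er := lt_of_lt_of_le hr0.2 hr0le
  have ha0 : 0 ≤ |b.repr (e : Eu (m + 2)) 0| := abs_nonneg _
  have ha1 : 0 ≤ |b.repr (e : Eu (m + 2)) 1| := abs_nonneg _
  have her0 : 0 ≤ er := abs_nonneg _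
  refine ⟨r, he0, he1, ?_⟩
  have h1 := norm_sq_repr b (e : Eu (m + 2))
  rw [hne] at h1
  have h2 : b.repr (e : Eu (m + 2)) 0 ^ 2 ≤ er ^ 2 := by
    rw [← sq_abs]
    apply pow_le_pow_left₀ ha0
    nlinarith
  have h3 : b.repr (e : Eu (m + 2)) 1 ^ 2 ≤ er ^ 2 := by
    rw [← sq_abs]
    apply pow_le_pow_left₀ ha1
    nlinarith
  have h4 : ∑ r : Fin m, b.repr (e : Eu (m + 2)) r.succ.succ ^ 2 ≤ m * er ^ 2 := by
    calc ∑ r : Fin m, b.repr (e : Eu (m + 2)) r.succ.succ ^ 2 ≤ ∑ _r : Fin m, er ^ 2 := by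
          apply Finset.sum_le_sum
          intro i _
          rw [← sq_abs]
          exact pow_le_pow_left₀ (abs_nonneg _) (hrmax i (Finset.mem_univ _)) 2
      _ = m * er ^ 2 := by simp
  have hm0 : (0 : ℝ) ≤ m := Nat.cast_nonneg m
  by_contra hcon
  push Not at hcon
  have h6 : ((m : ℝ) + 2) * er ^ 2 < 1 := by
    have h7 : ((m + 2) * er) ^ 2 < 1 := by
      apply pow_lt_one₀ (by positivity) hcon (by norm_num)
    nlinarith [sq_nonneg er]
  nlinarith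

theorem bad_close {L1 K0 : ℝ} (hL1 : 0 ≤ L1)
    (b : OrthonormalBasis (Fin (m + 2)) ℝ (Eu (m + 2))) (z₀ : Eu (m + 2))
    (h : Fin m → ℝ → ℝ → ℝ) (hlip : ∀ r t t' x x', |t| ≤ 1 → |t'| ≤ 1 → |x| ≤ 1 → |x'| ≤ 1 →
      |h r t x - h r t' x'| ≤ L1 * (|t - t'| + |x - x'|)) {δ : ℝ}
    {e : Sp (m + 2)} (he : e ∈ bad b (4 * L1 + 1)) {a z z' : Eu (m + 2)}
    (hz : z ∈ tube δ (e : Eu (m + 2)) a) (hz' : z' ∈ tube δ (e : Eu (m + 2)) a)
    (hu : crd b z₀ z ∈ nbhd h δ K0) (hv : crd b z₀ z' ∈ nbhd h δ K0) :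
    dist z' z ≤ (2 * (m + 2) * (4 * L1 + 2 * K0 + 2) + 2) * δ := by
  have hne : ‖(e : Eu (m + 2))‖ = 1 := norm_eq_of_mem_sphere e
  obtain ⟨r, he0, he1, hbig⟩ := bad_big b hL1 he
  set er := |b.repr (e : Eu (m + 2)) r.succ.succ| with her
  have ha0 : 0 ≤ |b.repr (e : Eu (m + 2)) 0| := abs_nonneg _
  have ha1 : 0 ≤ |b.repr (e : Eu (m + 2)) 1| := abs_nonneg _
  have her0 : 0 ≤ er := abs_nonneg _
  obtain ⟨u1, u2, u3⟩ := hu
  obtain ⟨v1, v2, v3⟩ := hv
  rw [crd_apply] at u1 u2 u3 v1 v2 v3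
  simp only at u1 u2 u3 v1 v2 v3
  set τ : ℝ := inner ℝ (z' - a) (e : Eu (m + 2)) - inner ℝ (z - a) (e : Eu (m + 2)) with hτ
  have hdiff : ‖(z' - z) - τ • (e : Eu (m + 2))‖ ≤ 2 * δ := by
    have e1 : (z' - z) - τ • (e : Eu (m + 2)) =
        ((z' - a) - (inner ℝ (z' - a) (e : Eu (m + 2)) : ℝ) • (e : Eu (m + 2))) -
        ((z - a) - (inner ℝ (z - a) (e : Eu (m + 2)) : ℝ) • (e : Eu (m + 2))) := by
      rw [hτ, sub_smul]; abel
    rw [e1]
    refine (norm_sub_le _ _).trans ?_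
    linarith [hz.2, hz'.2]
  have hco : ∀ i, |b.repr (z' - z₀) i - b.repr (z - z₀) i - τ * b.repr (e : Eu (m + 2)) i| ≤
      2 * δ := by
    intro i
    have h1 := (abs_repr_le b ((z' - z) - τ • (e : Eu (m + 2))) i).trans hdiff
    have e1 : b.repr ((z' - z) - τ • (e : Eu (m + 2))) i =
        b.repr (z' - z₀) i - b.repr (z - z₀) i - τ * b.repr (e : Eu (m + 2)) i := by
      have e2 : (z' - z) - τ • (e : Eu (m + 2)) =
        (z' - z₀) - (z - z₀) - τ • (e : Eu (m + 2)) := by abel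
      rw [e2, map_sub, map_sub, map_smul]
      simp
    rw [e1] at h1
    exact h1
  set Z' : Fin (m + 2) → ℝ := fun i => b.repr (z' - z₀) i with hZ'
  set Z : Fin (m + 2) → ℝ := fun i => b.repr (z - z₀) i with hZ
  set ε : Fin (m + 2) → ℝ := fun i => b.repr (e : Eu (m + 2)) i with hε
  have hco' : ∀ i, |Z' i - Z i - τ * ε i| ≤ 2 * δ := hco
  have hle : ∀ i, |Z' i - Z i| ≤ 2 * δ + |τ| * |ε i| := by
    intro i
    have h1 := hco' i
    have e1 : Z' i - Z i = (Z' i - Z i - τ * ε i) + τ * ε i := by ring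
    rw [e1]
    refine (abs_add_le _ _).trans ?_
    rw [abs_mul τ]
    linarith
  have hmain : |τ| * er ≤ 2 * δ + (2 * K0 * δ + L1 * ((2 * δ +
      |τ| * |ε 0|) + (2 * δ + |τ| * |ε 1|))) := by
    have h1 := hco' r.succ.succ
    have h2 : |h r (Z' 0) (Z' 1) - h r (Z 0) (Z 1)| ≤ L1 * (|Z' 0 - Z 0| + |Z' 1 - Z 1|) :=
      hlip r _ _ _ _ v1 u1 v2 u2
    have h3 : |Z r.succ.succ - h r (Z 0) (Z 1)| ≤ K0 * δ := u3 r
    have h4 : |Z' r.succ.succ - h r (Z' 0) (Z' 1)| ≤ K0 * δ := v3 r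
    have h5 : |Z' r.succ.succ - Z r.succ.succ| ≤
        2 * K0 * δ + L1 * ((2 * δ + |τ| * |ε 0|) + (2 * δ + |τ| * |ε 1|)) := by
      have e1 : Z' r.succ.succ - Z r.succ.succ =
        (Z' r.succ.succ - h r (Z' 0) (Z' 1)) - (Z r.succ.succ - h r (Z 0) (Z 1)) +
        (h r (Z' 0) (Z' 1) - h r (Z 0) (Z 1)) := by ring
      rw [e1]
      refine (abs_add_le _ _).trans ?_
      have h6 := abs_sub (Z' r.succ.succ - h r (Z' 0) (Z' 1)) (Z r.succ.succ - h r (Z 0) (Z 1))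
      have h7 := mul_le_mul_of_nonneg_left (add_le_add (hle 0) (hle 1)) hL1
      linarith
    have e2 : |τ| * er = |(Z' r.succ.succ - Z r.succ.succ) -
        (Z' r.succ.succ - Z r.succ.succ - τ * ε r.succ.succ)| := by
      rw [her, ← abs_mul]
      congr 1
      ring
    rw [e2]
    refine (abs_sub _ _).trans ?_
    linarith
  have hτ0 : 0 ≤ |τ| := abs_nonneg _
  have he0' : (4 * L1 + 1) * |ε 0| < er := he0
  have he1' : (4 * L1 + 1) * |ε 1| < er := he1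
  have h0' : 0 ≤ |ε 0| := abs_nonneg _
  have h1' : 0 ≤ |ε 1| := abs_nonneg _
  have hτer : |τ| * er ≤ 2 * ((4 * L1 + 2 * K0 + 2) * δ) := by
    have h1 : L1 * (|τ| * |ε 0|) ≤ |τ| * er / 4 := by
      have : L1 * |ε 0| ≤ er / 4 := by linarith
      have h8 := mul_le_mul_of_nonneg_left this hτ0
      linarith
    have h2 : L1 * (|τ| * |ε 1|) ≤ |τ| * er / 4 := by
      have : L1 * |ε 1| ≤ er / 4 := by linarith
      have h8 := mul_le_mul_of_nonneg_left this hτ0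
      linarith
    linarith
  have hτle : |τ| ≤ (m + 2) * (2 * ((4 * L1 + 2 * K0 + 2) * δ)) := by
    calc |τ| = |τ| * 1 := (mul_one _).symm
      _ ≤ |τ| * ((m + 2) * er) := by gcongr
      _ = (m + 2) * (|τ| * er) := by ring
      _ ≤ _ := by gcongr
  rw [dist_eq_norm]
  have e3 : z' - z = ((z' - z) - τ • (e : Eu (m + 2))) + τ • (e : Eu (m + 2)) := by abel
  rw [e3]
  refine (norm_add_le _ _).trans ?_
  rw [norm_smul, hne, mul_one, Real.norm_eq_abs]
  calc ‖(z' - z) - τ • (e : Eu (m + 2))‖ + |τ| ≤ 2 * δ +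
        (m + 2) * (2 * ((4 * L1 + 2 * K0 + 2) * δ)) := add_le_add hdiff hτle
    _ = (2 * (m + 2) * (4 * L1 + 2 * K0 + 2) + 2) * δ := by ring

theorem bad_part {L1 K0 : ℝ} (hL1 : 0 ≤ L1) (hK0 : 0 ≤ K0) :
    ∃ C : ℝ, 0 < C ∧ ∀ (b : OrthonormalBasis (Fin (m + 2)) ℝ (Eu (m + 2))) (z₀ : Eu (m + 2))
      (h : Fin m → ℝ → ℝ → ℝ), (∀ r t t' x x', |t| ≤ 1 → |t'| ≤ 1 → |x| ≤ 1 → |x'| ≤ 1 →
        |h r t x - h r t' x'| ≤ L1 * (|t - t'| + |x - x'|)) → ∀ (δ : ℝ), 0 < δ →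
      ∀ f : Eu (m + 2) → ℝ≥0∞, Measurable f → (∀ z, f z ≠ 0 → crd b z₀ z ∈ nbhd h δ K0) →
      ∀ e ∈ bad b (4 * L1 + 1), ∀ a, avg δ f (e : Eu (m + 2)) a ^ (m + 2) ≤
        ENNReal.ofReal C * ∫⁻ z, f z ^ (m + 2) := by
  classical
  obtain ⟨c, hc, hvol⟩ := vol_tube (m + 1)
  set B : ℝ := 2 * (m + 2) * (4 * L1 + 2 * K0 + 2) + 2 with hB
  have hB0 : 0 < B := by positivity
  set ω : ℝ := volume.real (ball (0 : Eu (m + 2)) 1) with hω
  have hω0 : 0 ≤ ω := measureReal_nonneg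
  refine ⟨(c⁻¹) ^ (m + 2) * (B ^ (m + 2) * ω) ^ (m + 1) + 1, by positivity, ?_⟩
  intro b z₀ h hlip δ hδ f hf hsupp e he a
  have hne : ‖(e : Eu (m + 2))‖ = 1 := norm_eq_of_mem_sphere e
  set I := ∫⁻ z, f z ^ (m + 2) with hI
  by_cases hex : ∃ z ∈ tube δ (e : Eu (m + 2)) a, f z ≠ 0
  · obtain ⟨z, hz, hfz⟩ := hex
    have h1 : ∫⁻ y in tube δ (e : Eu (m + 2)) a, f y ≤ ∫⁻ y in closedBall z (B * δ), f y := by
      rw [← lintegral_indicator (tube_closed _ _ _).measurableSet,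
        ← lintegral_indicator isClosed_closedBall.measurableSet]
      apply lintegral_mono
      intro y
      by_cases hy : y ∈ tube δ (e : Eu (m + 2)) a
      · simp only [indicator_of_mem hy]
        by_cases hy0 : f y = 0
        · rw [hy0]; exact zero_le
        · have hmem : y ∈ closedBall z (B * δ) :=
            bad_close hL1 b z₀ h hlip he hz hy (hsupp z hfz) (hsupp y hy0)
          rw [indicator_of_mem hmem]
      · simp only [indicator_of_notMem hy]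
        exact zero_le
    have h2 := holder_nat volume (closedBall z (B * δ)) m f hf
    have h3 : volume (closedBall z (B * δ)) = ENNReal.ofReal ((B * δ) ^ (m + 2) * ω) := by
      rw [Measure.addHaar_closedBall _ _ (by positivity), finrank_euclideanSpace,
        Fintype.card_fin, ENNReal.ofReal_mul (by positivity), hω, measureReal_def,
        ENNReal.ofReal_toReal measure_ball_lt_top.ne]
    have hcd : 0 < c * δ ^ (m + 1) := by positivity
    calc avg δ f (e : Eu (m + 2)) a ^ (m + 2)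
        ≤ ((ENNReal.ofReal (c * δ ^ (m + 1)))⁻¹ *
            ∫⁻ y in closedBall z (B * δ), f y) ^ (m + 2) := by
          unfold avg
          gcongr
          exact hvol δ e a hδ hne
      _ = (ENNReal.ofReal (c * δ ^ (m + 1)))⁻¹ ^ (m + 2) *
            (∫⁻ y in closedBall z (B * δ), f y) ^ (m + 2) := by rw [mul_pow]
      _ ≤ (ENNReal.ofReal (c * δ ^ (m + 1)))⁻¹ ^ (m + 2) *
            (ENNReal.ofReal ((B * δ) ^ (m + 2) * ω) ^ (m + 1) * I) := by
          rw [h3] at h2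
          gcongr
          exact h2.trans (mul_le_mul' le_rfl (setLIntegral_le_lintegral _ _))
      _ = ENNReal.ofReal ((c⁻¹) ^ (m + 2) * (B ^ (m + 2) * ω) ^ (m + 1)) * I := by
          rw [← mul_assoc, ← ENNReal.ofReal_inv_of_pos hcd, ← ENNReal.ofReal_pow (by positivity),
            ← ENNReal.ofReal_pow (by positivity), ← ENNReal.ofReal_mul (by positivity)]
          congr 2
          rw [mul_inv, mul_pow, mul_pow B δ]
          have e1 : (c⁻¹) ^ (m + 2) * ((δ ^ (m + 1))⁻¹) ^ (m + 2) *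
              (B ^ (m + 2) * δ ^ (m + 2) * ω) ^ (m + 1) =
              (c⁻¹) ^ (m + 2) * (B ^ (m + 2) * ω) ^ (m + 1) *
              (((δ ^ (m + 1))⁻¹) ^ (m + 2) * (δ ^ (m + 2)) ^ (m + 1)) := by
            have : B ^ (m + 2) * δ ^ (m + 2) * ω = (B ^ (m + 2) * ω) * δ ^ (m + 2) := by ring
            rw [this, mul_pow (B ^ (m + 2) * ω)]
            ring
          have e2 : ((δ ^ (m + 1))⁻¹) ^ (m + 2) * (δ ^ (m + 2)) ^ (m + 1) = 1 := by
            rw [inv_pow, ← pow_mul, ← pow_mul, mul_comm (m + 1) (m + 2)]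
            exact inv_mul_cancel₀ (by positivity)
          rw [e1, e2, mul_one]
      _ ≤ _ := by
          gcongr
          linarith
  · push Not at hex
    have h1 : ∫⁻ y in tube δ (e : Eu (m + 2)) a, f y = 0 := by
      rw [setLIntegral_congr_fun (tube_closed _ _ _).measurableSet hex]
      simp
    unfold avg
    rw [h1, mul_zero, zero_pow (by omega)]
    exact zero_le

/-- **The maximal estimate near a polynomial graph.** -/
theorem graph_maj (hm : 1 ≤ m) (D : ℕ) {L L1 K0 : ℝ} (hL : 0 ≤ L) (hL1 : 0 ≤ L1)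
    (hK0 : 0 ≤ K0) :
    ∃ C : ℝ, 0 < C ∧ ∀ (b : OrthonormalBasis (Fin (m + 2)) ℝ (Eu (m + 2))) (z₀ : Eu (m + 2))
      (h : Fin m → ℝ → ℝ → ℝ) (_A : ∀ r, Adm D L (4 * L1 + 9) (h r))
      (_A' : ∀ r, Adm D L (4 * L1 + 9) (fun t x => h r x t)),
      (∀ r t t' x x', |t| ≤ 1 → |t'| ≤ 1 → |x| ≤ 1 → |x'| ≤ 1 →
        |h r t x - h r t' x'| ≤ L1 * (|t - t'| + |x - x'|)) → ∀ (δ : ℝ), 0 < δ → δ ≤ 1 →
      ∀ f : Eu (m + 2) → ℝ≥0∞, Measurable f → (∀ z, f z ≠ 0 → crd b z₀ z ∈ nbhd h δ K0) →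
      ∃ G : Sp (m + 2) → ℝ≥0∞, Measurable G ∧
        (∀ e : Sp (m + 2), ∀ a, avg δ f (e : Eu (m + 2)) a ^ (m + 2) ≤ G e) ∧
        ∫⁻ e, G e ∂(surf (m + 2)) ≤
          ENNReal.ofReal (C * (1 + Real.log (1 / δ)) ^ 2) * ∫⁻ z, f z ^ (m + 2) := by
  obtain ⟨C1, hC1, hgood⟩ := good_part hm D (L := L) (K0 := K0) (M := 4 * L1 + 1) hL hK0
    (by linarith)
  obtain ⟨C2, hC2, hbad⟩ := bad_part (m := m) hL1 hK0
  set σ : ℝ := (surf (m + 2)).real univ with hσ
  have hσ0 : 0 ≤ σ := measureReal_nonneg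
  have hσt : surf (m + 2) univ = ENNReal.ofReal σ := by
    rw [hσ, measureReal_def, ENNReal.ofReal_toReal]
    unfold surf
    exact measure_ne_top _ _
  refine ⟨2 * C1 + C2 * σ, by positivity, ?_⟩
  intro b z₀ h A A' hlip δ hδ hδ1 f hf hsupp
  have hlog0 : 0 ≤ Real.log (1 / δ) := Real.log_nonneg (by
    rw [le_div_iff₀ hδ]; linarith)
  have hR : 4 * L1 + 9 = 4 * L1 + 1 + 8 := by ring
  rw [hR] at A A'
  obtain ⟨G1, hG1m, hG1, hG1i⟩ := hgood b z₀ h A δ hδ hδ1 f hf hsupp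
  obtain ⟨G2, hG2m, hG2, hG2i⟩ := hgood (swp b) z₀ (fun r t x => h r x t) A' δ hδ hδ1 f hf (by
    intro z hz
    have h1 := hsupp z hz
    rw [crd_apply] at h1 ⊢
    obtain ⟨u1, u2, u3⟩ := h1
    refine ⟨?_, ?_, fun r => ?_⟩
    · show |(swp b).repr (z - z₀) 0| ≤ 1
      rw [swp_zero]; exact u2
    · show |(swp b).repr (z - z₀) 1| ≤ 1
      rw [swp_one]; exact u1
    · show |(swp b).repr (z - z₀) r.succ.succ -
        h r ((swp b).repr (z - z₀) 1) ((swp b).repr (z - z₀) 0)| ≤ K0 * δ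
      rw [swp_zero, swp_one, swp_succ]; exact u3 r)
  set I := ∫⁻ z, f z ^ (m + 2) with hI
  refine ⟨fun e => G1 e + G2 e + ENNReal.ofReal C2 * I, (hG1m.add hG2m).add_const _, ?_, ?_⟩
  · intro e a
    by_cases h1 : e ∈ good b (4 * L1 + 1)
    · exact (hG1 e h1 a).trans (le_self_add.trans le_self_add)
    · by_cases h2 : e ∈ good (swp b) (4 * L1 + 1)
      · exact (hG2 e h2 a).trans (le_add_self.trans le_self_add)
      · exact (hbad b z₀ h hlip δ hδ f hf hsupp e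
          (mem_bad b (by linarith) h1 h2) a).trans le_add_self
  · rw [lintegral_add_right _ measurable_const, lintegral_add_right _ hG2m, lintegral_const, hσt]
    set lg := Real.log (1 / δ) with hlg
    calc _ ≤ ENNReal.ofReal (C1 * (1 + lg) ^ 2) * I + ENNReal.ofReal (C1 * (1 + lg) ^ 2) * I +
          ENNReal.ofReal C2 * I * ENNReal.ofReal σ := by gcongr
      _ = ENNReal.ofReal (C1 * (1 + lg) ^ 2 + C1 * (1 + lg) ^ 2 + C2 * σ) * I := by
          rw [ENNReal.ofReal_add (by positivity) (by positivity),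
            ENNReal.ofReal_add (by positivity) (by positivity), ENNReal.ofReal_mul hC2.le]
          ring
      _ ≤ _ := by
          refine mul_le_mul' (ENNReal.ofReal_le_ofReal ?_) le_rfl
          have h1 : 1 ≤ (1 + lg) ^ 2 := one_le_pow₀ (by linarith)
          have h2 : C2 * σ ≤ C2 * σ * (1 + lg) ^ 2 := le_mul_of_one_le_right (by positivity) h1
          nlinarith

end Pool.Agent.H28.SM
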