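import Pool.Agent.H28.SM.Mono

set_option autoImplicit false

/-!
# Kakeya near surfaces: Taylor polynomials
-/

open Set MeasureTheory

namespace Pool.Agent.H28.SM

variable {m : ℕ}

/-- the Taylor polynomial at `w` in the first two variables, recentred at `(q1, q2)` -/
noncomputable def tpq (H : ℝ × ℝ × (Fin m → ℝ) → ℝ) (k : ℕ) (w : ℝ × ℝ × (Fin m → ℝ))
    (q1 q2 t x : ℝ) : ℝ :=
  ∑ j ∈ Finset.range (k + 1), (j.factorial : ℝ)⁻¹ *
    iteratedFDeriv ℝ j H w (fun _ => (t - q1, x - q2, 0))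

/-- the index set of the monomials -/
abbrev MI (k : ℕ) : Type := (j : Fin (k + 1)) × (Fin j → Fin 2)

/-- the two coordinate directions -/
def dir (m : ℕ) : Fin 2 → ℝ × ℝ × (Fin m → ℝ) := ![(1, 0, 0), (0, 1, 0)]

/-- the coefficients -/
noncomputable def tco (H : ℝ × ℝ × (Fin m → ℝ) → ℝ) (k : ℕ) (w : ℝ × ℝ × (Fin m → ℝ))
    (ν : MI k) : ℝ :=
  ((ν.1 : ℕ).factorial : ℝ)⁻¹ * iteratedFDeriv ℝ ν.1 H w (fun i => dir m (ν.2 i))

/-- the exponents -/
def tex {k : ℕ} (ν : MI k) (c : Fin 2) : ℕ := (Finset.univ.filter fun i => ν.2 i = c).card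

theorem tex_le {k : ℕ} (ν : MI k) : tex ν 0 + tex ν 1 ≤ k := by
  have h1 : tex ν 0 + tex ν 1 = (ν.1 : ℕ) := by
    have h2 := Finset.card_filter_add_card_filter_not (s := (Finset.univ : Finset (Fin ν.1)))
      (fun i => ν.2 i = 0)
    rw [Finset.card_univ, Fintype.card_fin] at h2
    have h3 : (Finset.univ.filter fun i => ν.2 i = 1) =
        Finset.univ.filter fun i => ¬ ν.2 i = 0 := by
      apply Finset.filter_congr
      intro i _
      omega
    unfold tex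
    rw [h3]
    exact h2
  have := ν.1.2
  omega

theorem tpq_expand (H : ℝ × ℝ × (Fin m → ℝ) → ℝ) (k : ℕ) (w : ℝ × ℝ × (Fin m → ℝ))
    (q1 q2 t x : ℝ) : tpq H k w q1 q2 t x =
      ∑ ν : MI k, tco H k w ν * ((t - q1) ^ tex ν 0 * (x - q2) ^ tex ν 1) := by
  classical
  have hterm : ∀ j : ℕ, iteratedFDeriv ℝ j H w (fun _ => (t - q1, x - q2, 0)) =
      ∑ r : Fin j → Fin 2, iteratedFDeriv ℝ j H w (fun i => dir m (r i)) *
        ((t - q1) ^ (Finset.univ.filter fun i => r i = 0).card *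
          (x - q2) ^ (Finset.univ.filter fun i => r i = 1).card) := by
    intro j
    set y : Fin 2 → ℝ := ![t - q1, x - q2] with hy
    have hu : ((t - q1, x - q2, 0) : ℝ × ℝ × (Fin m → ℝ)) = ∑ c, y c • dir m c := by
      rw [Fin.sum_univ_two]
      simp [hy, dir]
    rw [hu, ContinuousMultilinearMap.map_sum]
    apply Finset.sum_congr rfl
    intro r _
    have h1 := (iteratedFDeriv ℝ j H w).map_smul_univ (fun i => y (r i)) (fun i => dir m (r i))
    rw [h1, smul_eq_mul, mul_comm]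
    congr 1
    rw [← Finset.prod_fiberwise' Finset.univ r y, Fin.prod_univ_two, Finset.prod_const,
      Finset.prod_const]
    simp [hy]
  unfold tpq
  rw [Fintype.sum_sigma, Finset.sum_range]
  apply Finset.sum_congr rfl
  intro j _
  rw [hterm, Finset.mul_sum]
  apply Finset.sum_congr rfl
  intro r _
  unfold tco tex
  ring

theorem dir_norm (c : Fin 2) : ‖dir m c‖ ≤ 1 := by
  fin_cases c
  · simp [dir]
  · simp [dir]

theorem tco_le {H : ℝ × ℝ × (Fin m → ℝ) → ℝ} {k : ℕ} {w : ℝ × ℝ × (Fin m → ℝ)} {A : ℝ}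
    (hA : ∀ j ≤ k, ‖iteratedFDeriv ℝ j H w‖ ≤ A) (ν : MI k) : |tco H k w ν| ≤ A := by
  have hA0 : 0 ≤ A := (norm_nonneg _).trans (hA 0 (Nat.zero_le k))
  unfold tco
  rw [abs_mul, abs_inv, Nat.abs_cast]
  have h1 : (((ν.1 : ℕ).factorial : ℝ))⁻¹ ≤ 1 :=
    inv_le_one_of_one_le₀ (by exact_mod_cast Nat.factorial_pos _)
  have h2 : |iteratedFDeriv ℝ ν.1 H w (fun i => dir m (ν.2 i))| ≤ A := by
    rw [← Real.norm_eq_abs]
    refine (ContinuousMultilinearMap.le_opNorm _ _).trans ?_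
    have h3 : ∏ i, ‖dir m (ν.2 i)‖ ≤ 1 :=
      Finset.prod_le_one (fun i _ => norm_nonneg _) (fun i _ => dir_norm _)
    calc ‖iteratedFDeriv ℝ ν.1 H w‖ * ∏ i, ‖dir m (ν.2 i)‖ ≤ A * 1 :=
          mul_le_mul (hA _ (by have := ν.1.2; omega)) h3
            (Finset.prod_nonneg fun i _ => norm_nonneg _) hA0
      _ = A := mul_one A
  calc _ ≤ 1 * A := mul_le_mul h1 h2 (abs_nonneg _) zero_le_one
    _ = A := one_mul A

/-- the constant for Taylor polynomials -/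
noncomputable def ltay (k : ℕ) (A R : ℝ) : ℝ := Fintype.card (MI k) * A * lmon k R

theorem ltay_nonneg (k : ℕ) {A R : ℝ} (hA : 0 ≤ A) (hR : 1 ≤ R) : 0 ≤ ltay k A R := by
  have := lmon_nonneg k hR
  unfold ltay
  positivity

theorem tpq_adm {H : ℝ × ℝ × (Fin m → ℝ) → ℝ} {k : ℕ} {w : ℝ × ℝ × (Fin m → ℝ)} {A : ℝ}
    (hA : ∀ j ≤ k, ‖iteratedFDeriv ℝ j H w‖ ≤ A) {q1 q2 R : ℝ} (hq1 : |q1| ≤ 1)
    (hq2 : |q2| ≤ 1) (hR : 1 ≤ R) (c : ℝ) :
    Nonempty (Adm k (ltay k A R) R (fun t x => tpq H k w q1 q2 t x + c)) ∧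
    Nonempty (Adm k (ltay k A R) R (fun t x => tpq H k w q1 q2 x t + c)) := by
  have hA0 : 0 ≤ A := (norm_nonneg _).trans (hA 0 (Nat.zero_le k))
  have hsum : ∑ ν : MI k, |tco H k w ν| ≤ Fintype.card (MI k) * A := by
    calc ∑ ν : MI k, |tco H k w ν| ≤ ∑ _ν : MI k, A := Finset.sum_le_sum fun ν _ => tco_le hA ν
      _ = _ := by simp
  have hle : (∑ ν : MI k, |tco H k w ν|) * lmon k R ≤ ltay k A R :=
    mul_le_mul_of_nonneg_right hsum (lmon_nonneg k hR)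
  constructor
  · have B := ((Adm.sum Finset.univ (tco H k w)
      (fun ν t x => (t - q1) ^ tex ν 0 * (x - q2) ^ tex ν 1)
      (fun ν => admMon k (tex ν 0) (tex ν 1) (tex_le ν) hq1 hq2 hR)).mono hle).addConst c
    have e : (fun t x => tpq H k w q1 q2 t x + c) = fun t x =>
        (∑ ν : MI k, tco H k w ν * ((t - q1) ^ tex ν 0 * (x - q2) ^ tex ν 1)) + c := by
      funext t x
      rw [tpq_expand]
    rw [e]
    exact ⟨B⟩
  · have B := ((Adm.sum Finset.univ (tco H k w)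
      (fun ν t x => (t - q2) ^ tex ν 1 * (x - q1) ^ tex ν 0)
      (fun ν => admMon k (tex ν 1) (tex ν 0) (by have := tex_le ν; omega)
        hq2 hq1 hR)).mono hle).addConst c
    have e : (fun t x => tpq H k w q1 q2 x t + c) = fun t x =>
        (∑ ν : MI k, tco H k w ν * ((t - q2) ^ tex ν 1 * (x - q1) ^ tex ν 0)) + c := by
      funext t x
      rw [tpq_expand]
      congr 1
      apply Finset.sum_congr rfl
      intro ν _
      ring
    rw [e]
    exact ⟨B⟩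

/-- Taylor's formula -/
theorem taylor_tpq {H : ℝ × ℝ × (Fin m → ℝ) → ℝ} {k : ℕ} {B : Set (ℝ × ℝ × (Fin m → ℝ))}
    (hB : Convex ℝ B) (hH : ∀ w ∈ B, ContDiffAt ℝ (k + 1) H w) {A : ℝ}
    (hA : ∀ w ∈ B, ‖iteratedFDeriv ℝ (k + 1) H w‖ ≤ A) {p1 p2 t x : ℝ} {c : Fin m → ℝ}
    (hw : (p1, p2, c) ∈ B) (hv : (t, x, c) ∈ B) {η : ℝ} (h1 : |t - p1| ≤ η) (h2 : |x - p2| ≤ η)
    {τ0 ξ0 : ℝ} :
    |H (t, x, c) - tpq H k (p1, p2, c) (p1 - τ0) (p2 - ξ0) (t - τ0) (x - ξ0)| ≤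
      A * η ^ (k + 1) := by
  set w : ℝ × ℝ × (Fin m → ℝ) := (p1, p2, c) with hwdef
  set y : ℝ × ℝ × (Fin m → ℝ) := (t - p1, x - p2, 0) with hy
  have hv' : w + y = (t, x, c) := by
    rw [hwdef, hy]
    simp
  have hη0 : 0 ≤ η := (abs_nonneg _).trans h1
  have hyn : ‖y‖ ≤ η := by
    rw [hy, Prod.norm_def, Prod.norm_def]
    simp only [Real.norm_eq_abs, norm_zero]
    exact max_le h1 (max_le h2 hη0)
  have hseg : ∀ s ∈ Icc (0:ℝ) 1, w + s • y ∈ B := by
    intro s hs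
    have := hB hw hv (a := 1 - s) (b := s) (by linarith [hs.2]) hs.1 (by ring)
    rw [← hv'] at this
    convert this using 1
    rw [sub_smul, one_smul, smul_add]; abel
  have h := map_add_eq_sum_add_integral_iteratedFDeriv (f := H) (x := w) (y := y) (n := k)
    (fun s hs => hH _ (hseg s hs))
  rw [hv'] at h
  have e1 : tpq H k w (p1 - τ0) (p2 - ξ0) (t - τ0) (x - ξ0) =
      ∑ j ∈ Finset.range (k + 1), (j.factorial : ℝ)⁻¹ • iteratedFDeriv ℝ j H w (fun _ => y) := by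
    unfold tpq
    apply Finset.sum_congr rfl
    intro j _
    rw [smul_eq_mul, hy]
    have a1 : t - τ0 - (p1 - τ0) = t - p1 := by ring
    have a2 : x - ξ0 - (p2 - ξ0) = x - p2 := by ring
    rw [a1, a2]
  rw [h, e1, add_sub_cancel_left, smul_eq_mul, abs_mul, abs_inv, Nat.abs_cast,
    ← Real.norm_eq_abs]
  have hA0 : 0 ≤ A := (norm_nonneg _).trans (hA _ hv)
  have hint : ‖∫ s in (0:ℝ)..1, (1 - s) ^ k • iteratedFDeriv ℝ (k + 1) H (w + s • y)
      (fun _ => y)‖ ≤ (A * η ^ (k + 1)) * |(1:ℝ) - 0| := by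
    apply intervalIntegral.norm_integral_le_of_norm_le_const
    intro s hs
    rw [uIoc_of_le zero_le_one] at hs
    have hin := hseg s ⟨hs.1.le, hs.2⟩
    rw [norm_smul, norm_pow, Real.norm_of_nonneg (by linarith [hs.2] : (0:ℝ) ≤ 1 - s)]
    have h3 : (1 - s) ^ k ≤ 1 := pow_le_one₀ (by linarith [hs.2]) (by linarith [hs.1])
    have h4 : ‖iteratedFDeriv ℝ (k + 1) H (w + s • y) (fun _ => y)‖ ≤ A * η ^ (k + 1) := by
      refine (ContinuousMultilinearMap.le_opNorm _ _).trans ?_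
      rw [Finset.prod_const, Finset.card_univ, Fintype.card_fin]
      exact mul_le_mul (hA _ hin) (pow_le_pow_left₀ (norm_nonneg _) hyn _) (by positivity) hA0
    calc (1 - s) ^ k * ‖iteratedFDeriv ℝ (k + 1) H (w + s • y) (fun _ => y)‖
        ≤ 1 * (A * η ^ (k + 1)) := mul_le_mul h3 h4 (norm_nonneg _) zero_le_one
      _ = _ := one_mul _
  rw [sub_zero, abs_one, mul_one] at hint
  have hf : ((k.factorial : ℝ))⁻¹ ≤ 1 :=
    inv_le_one_of_one_le₀ (by exact_mod_cast Nat.factorial_pos k)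
  calc _ ≤ 1 * (A * η ^ (k + 1)) := mul_le_mul hf hint (norm_nonneg _) zero_le_one
    _ = _ := one_mul _

end Pool.Agent.H28.SM
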