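import Pool.Agent.H28.SM.Ift
import Pool.Agent.H28.SM.Tay
import Pool.Agent.H28.SM.Sphere

set_option autoImplicit false

/-!
# Kakeya near surfaces: one small piece of a leaf
-/

open Set MeasureTheory Metric ENNReal

namespace Pool.Agent.H28.SM

variable {m : ℕ}

theorem piece_maj (hm : 1 ≤ m) (k : ℕ) {A : ℝ} (hA : 0 ≤ A) :
    ∃ C : ℝ, 0 < C ∧ ∀ (b : OrthonormalBasis (Fin (m + 2)) ℝ (Eu (m + 2))) (z₀ : Eu (m + 2))
      (F : Eu (m + 2) → (Fin m → ℝ)) (H : Fin m → ℝ × ℝ × (Fin m → ℝ) → ℝ) (ρ : ℝ), 0 < ρ →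
      ρ ≤ 1 →
      (∀ r, ∀ w ∈ ball (b.repr z₀ 0, b.repr z₀ 1, F z₀) ρ, ContDiffAt ℝ (k + 1) (H r) w ∧
        ∀ j ≤ k + 1, ‖iteratedFDeriv ℝ j (H r) w‖ ≤ A) →
      ∀ (δ η : ℝ), 0 < δ → δ ≤ 1 → δ < ρ / 4 → 0 ≤ η → η ^ (k + 1) ≤ δ →
      ∀ (g : Eu (m + 2) → ℝ≥0∞), Measurable g → ∀ c : Fin m → ℝ,
      (∀ z, g z ≠ 0 →
        (b.repr z 0, b.repr z 1, F z) ∈ ball (b.repr z₀ 0, b.repr z₀ 1, F z₀) (ρ / 2) ∧
        (∀ r : Fin m, b.repr z r.succ.succ = H r (b.repr z 0, b.repr z 1, F z)) ∧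
        ‖F z - c‖ ≤ 2 * δ) →
      (∀ z z', g z ≠ 0 → g z' ≠ 0 → |b.repr z 0 - b.repr z' 0| ≤ η ∧
        |b.repr z 1 - b.repr z' 1| ≤ η) →
      ∃ G : Sp (m + 2) → ℝ≥0∞, Measurable G ∧
        (∀ e : Sp (m + 2), ∀ a, avg δ g (e : Eu (m + 2)) a ^ (m + 2) ≤ G e) ∧
        ∫⁻ e, G e ∂(surf (m + 2)) ≤
          ENNReal.ofReal (C * (1 + Real.log (1 / δ)) ^ 2) * ∫⁻ z, g z ^ (m + 2) := by
  classical
  set L1 : ℝ := ltay k A 1 with hL1
  have hL10 : 0 ≤ L1 := ltay_nonneg k hA le_rfl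
  set L : ℝ := ltay k A (4 * L1 + 9) with hL
  have hL0 : 0 ≤ L := ltay_nonneg k hA (by linarith)
  obtain ⟨C, hC, hmaj⟩ := graph_maj (m := m) hm k (L := L) (L1 := L1) (K0 := 3 * A) hL0 hL10
    (by positivity)
  refine ⟨C, hC, ?_⟩
  intro b z₀ F H ρ hρ hρ1 hH δ η hδ hδ1 hδρ hη hηk g hg c hg1 hg2
  by_cases hex : ∃ z, g z ≠ 0
  swap
  · push Not at hex
    refine ⟨fun _ => 0, measurable_const, fun e a => ?_, by simp⟩
    unfold avg
    simp [hex]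
  obtain ⟨zs, hzs⟩ := hex
  obtain ⟨hs1, hs2, hs3⟩ := hg1 zs hzs
  set p1 := b.repr zs 0 with hp1
  set p2 := b.repr zs 1 with hp2
  set τ0 := b.repr z₀ 0 with hτ0
  set ξ0 := b.repr z₀ 1 with hξ0
  set B := ball ((τ0, ξ0, F z₀) : ℝ × ℝ × (Fin m → ℝ)) ρ with hB
  have hcoord : ∀ t x : ℝ, ∀ u : Fin m → ℝ, ((t, x, u) : ℝ × ℝ × (Fin m → ℝ)) ∈
      ball (τ0, ξ0, F z₀) (ρ / 2) → |t - τ0| ≤ 1 ∧ |x - ξ0| ≤ 1 := by
    intro t x u h
    rw [mem_ball, Prod.dist_eq, Prod.dist_eq, max_lt_iff, max_lt_iff, Real.dist_eq,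
      Real.dist_eq] at h
    exact ⟨by linarith [h.1], by linarith [h.2.1]⟩
  have hmem : ∀ t x : ℝ, ∀ u : Fin m → ℝ, ((t, x, u) : ℝ × ℝ × (Fin m → ℝ)) ∈
      ball (τ0, ξ0, F z₀) (ρ / 2) → ‖u - c‖ ≤ 2 * δ →
      ((t, x, c) : ℝ × ℝ × (Fin m → ℝ)) ∈ B := by
    intro t x u h hu
    rw [mem_ball, Prod.dist_eq, Prod.dist_eq, max_lt_iff, max_lt_iff] at h
    rw [hB, mem_ball, Prod.dist_eq, Prod.dist_eq, max_lt_iff, max_lt_iff]
    refine ⟨by linarith [h.1], by linarith [h.2.1], ?_⟩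
    have h3 : dist c (F z₀) ≤ dist c u + dist u (F z₀) := dist_triangle _ _ _
    have h4 : dist c u ≤ 2 * δ := by rw [dist_comm, dist_eq_norm]; exact hu
    have h5 := h.2.2
    show dist c (F z₀) < ρ
    linarith
  have hw : ((p1, p2, c) : ℝ × ℝ × (Fin m → ℝ)) ∈ B := hmem _ _ _ hs1 hs3
  have hq := hcoord _ _ _ hs1
  set h : Fin m → ℝ → ℝ → ℝ := fun r t x =>
    tpq (H r) k (p1, p2, c) (p1 - τ0) (p2 - ξ0) t x + (-(b.repr z₀ r.succ.succ)) with hh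
  have hAj : ∀ r, ∀ j ≤ k, ‖iteratedFDeriv ℝ j (H r) (p1, p2, c)‖ ≤ A := fun r j hj =>
    (hH r _ hw).2 j (by omega)
  have hadm : ∀ R : ℝ, 1 ≤ R → ∀ r, Nonempty (Adm k (ltay k A R) R (h r)) ∧
      Nonempty (Adm k (ltay k A R) R (fun t x => h r x t)) := fun R hR r =>
    tpq_adm (hAj r) hq.1 hq.2 hR _
  refine hmaj b z₀ h (fun r => (hadm _ (by linarith) r).1.some)
    (fun r => (hadm _ (by linarith) r).2.some) ?_ δ hδ hδ1 g hg ?_
  · intro r t t' x x' ht ht' hx hx'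
    exact (hadm 1 le_rfl r).1.some.lip t t' x x' ht ht' hx hx'
  · intro z hz
    obtain ⟨u1, u2, u3⟩ := hg1 z hz
    obtain ⟨v1, v2⟩ := hg2 z zs hz hzs
    set t := b.repr z 0 with ht
    set x := b.repr z 1 with hx
    have hco : ∀ i, b.repr (z - z₀) i = b.repr z i - b.repr z₀ i := by
      intro i
      rw [map_sub]
      rfl
    rw [crd_apply]
    simp only [hco]
    obtain ⟨w1, w2⟩ := hcoord _ _ _ u1
    refine ⟨w1, w2, fun r => ?_⟩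
    show |b.repr z r.succ.succ - b.repr z₀ r.succ.succ -
      (tpq (H r) k (p1, p2, c) (p1 - τ0) (p2 - ξ0) (t - τ0) (x - ξ0) +
        (-(b.repr z₀ r.succ.succ)))| ≤ 3 * A * δ
    have hv : ((t, x, c) : ℝ × ℝ × (Fin m → ℝ)) ∈ B := hmem _ _ _ u1 u3
    have htay := taylor_tpq (H := H r) (k := k) (convex_ball _ _ : Convex ℝ B)
      (fun w hw => (hH r w hw).1) (fun w hw => (hH r w hw).2 (k + 1) le_rfl) hw hv v1 v2
      (τ0 := τ0) (ξ0 := ξ0)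
    have hlip : |H r (t, x, F z) - H r (t, x, c)| ≤ A * (2 * δ) := by
      have hv' : ((t, x, F z) : ℝ × ℝ × (Fin m → ℝ)) ∈ B :=
        ball_subset_ball (by linarith) u1
      have hd := (convex_ball _ _ : Convex ℝ B).norm_image_sub_le_of_norm_fderiv_le
        (𝕜 := ℝ) (f := H r) (C := A)
        (fun w hw => (hH r w hw).1.differentiableAt (by
          intro h0
          have : (k + 1 : ℕ) = 0 := by exact_mod_cast h0
          omega)) (fun w hw => by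
          have := (hH r w hw).2 1 (by omega)
          rw [norm_iteratedFDeriv_one] at this
          exact this) hv hv'
      rw [Real.norm_eq_abs] at hd
      refine hd.trans ?_
      have e : ((t, x, F z) : ℝ × ℝ × (Fin m → ℝ)) - (t, x, c) = (0, 0, F z - c) := by
        simp
      rw [e]
      have : ‖((0, 0, F z - c) : ℝ × ℝ × (Fin m → ℝ))‖ = ‖F z - c‖ := by
        rw [Prod.norm_def, Prod.norm_def]
        simp
      rw [this]
      exact mul_le_mul_of_nonneg_left u3 hA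
    have e1 : b.repr z r.succ.succ - b.repr z₀ r.succ.succ -
      (tpq (H r) k (p1, p2, c) (p1 - τ0) (p2 - ξ0) (t - τ0) (x - ξ0) +
        (-(b.repr z₀ r.succ.succ))) = (H r (t, x, F z) - H r (t, x, c)) +
        (H r (t, x, c) - tpq (H r) k (p1, p2, c) (p1 - τ0) (p2 - ξ0) (t - τ0) (x - ξ0)) := by
      rw [u2 r]; ring
    rw [e1]
    refine (abs_add_le _ _).trans ?_
    have : A * η ^ (k + 1) ≤ A * δ := mul_le_mul_of_nonneg_left hηk hA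
    linarith

end Pool.Agent.H28.SM
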