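import Pool.Agent.H28.SM.Leaf1

set_option autoImplicit false

/-!
# Kakeya near surfaces: all leaves near one point
-/

open Set MeasureTheory Metric ENNReal

namespace Pool.Agent.H28.SM

variable {m : ℕ}

/-- the piece of a ball given by a square and an approximate value -/
def pce (b : OrthonormalBasis (Fin (m + 2)) ℝ (Eu (m + 2))) (F : Eu (m + 2) → (Fin m → ℝ))
    (δ η : ℝ) (q : ℤ × ℤ) (κ : Fin m → ℤ) : Set (Eu (m + 2)) :=
  {z | ⌊b.repr z 0 / η⌋ = q.1 ∧ ⌊b.repr z 1 / η⌋ = q.2 ∧ ∀ r, |F z r - κ r * δ| ≤ 2 * δ}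

theorem pce_meas (b : OrthonormalBasis (Fin (m + 2)) ℝ (Eu (m + 2)))
    {F : Eu (m + 2) → (Fin m → ℝ)} (hF : Measurable F) (δ η : ℝ) (q : ℤ × ℤ) (κ : Fin m → ℤ) :
    MeasurableSet (pce b F δ η q κ) := by
  have hr : ∀ i : Fin (m + 2), Measurable fun z : Eu (m + 2) => b.repr z i := by
    intro i
    have h2 : Continuous fun v : Eu (m + 2) => v i := by fun_prop
    exact (h2.comp b.repr.continuous).measurable
  have hfl : ∀ i : Fin (m + 2), Measurable fun z : Eu (m + 2) => ⌊b.repr z i / η⌋ := fun i =>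
    Int.measurable_floor.comp ((hr i).div_const η)
  have : pce b F δ η q κ = {z : Eu (m + 2) | ⌊b.repr z 0 / η⌋ = q.1} ∩
      ({z : Eu (m + 2) | ⌊b.repr z 1 / η⌋ = q.2} ∩
      ⋂ r : Fin m, {z : Eu (m + 2) | |F z r - κ r * δ| ≤ 2 * δ}) := by
    ext z
    simp only [pce, mem_ofPred_eq, mem_inter_iff, mem_iInter]
  rw [this]
  refine (measurableSet_eq_fun (hfl 0) measurable_const).inter
    ((measurableSet_eq_fun (hfl 1) measurable_const).inter
    (MeasurableSet.iInter fun r => measurableSet_le ?_ measurable_const))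
  exact (((measurable_pi_apply r).comp hF).sub_const _).norm

/-- bounded overlap -/
theorem pce_overlap (b : OrthonormalBasis (Fin (m + 2)) ℝ (Eu (m + 2)))
    (F : Eu (m + 2) → (Fin m → ℝ)) {δ : ℝ} (hδ : 0 < δ) (η : ℝ) (S : Finset (ℤ × ℤ))
    (z : Eu (m + 2)) :
    ∑ q ∈ S, ∑' κ : Fin m → ℤ, (pce b F δ η q κ).indicator (1 : Eu (m + 2) → ℝ≥0∞) z ≤
      (5 : ℝ≥0∞) ^ m := by
  classical
  have h1 : ∀ q, ∑' κ : Fin m → ℤ, (pce b F δ η q κ).indicator (1 : Eu (m + 2) → ℝ≥0∞) z ≤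
      if q = (⌊b.repr z 0 / η⌋, ⌊b.repr z 1 / η⌋) then (5 : ℝ≥0∞) ^ m else 0 := by
    intro q
    split_ifs with hq
    · rw [ENNReal.tsum_eq_iSup_sum]
      apply iSup_le
      intro s
      have e1 : ∑ κ ∈ s, (pce b F δ η q κ).indicator (1 : Eu (m + 2) → ℝ≥0∞) z =
          ((s.filter fun κ => z ∈ pce b F δ η q κ).card : ℝ≥0∞) := by
        rw [Finset.card_eq_sum_ones, Finset.sum_filter]
        push_cast
        apply Finset.sum_congr rfl
        intro κ _
        by_cases hz : z ∈ pce b F δ η q κ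
        · rw [indicator_of_mem hz, if_pos hz]; rfl
        · rw [indicator_of_notMem hz, if_neg hz]
      rw [e1]
      have h2 := lattice_box (s.filter fun κ => z ∈ pce b F δ η q κ) (fun r => F z r / δ)
        (A := 2) (by norm_num) (by
          intro κ hκ r
          have h3 := (Finset.mem_filter.1 hκ).2.2.2 r
          have e2 : (κ r : ℝ) - F z r / δ = -(F z r - κ r * δ) / δ := by field_simp; ring
          rw [e2, abs_div, abs_neg, abs_of_pos hδ, div_le_iff₀ hδ]
          exact h3)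
      have h4 : ((2 : ℝ) * 2 + 1) ^ m = ((5 ^ m : ℕ) : ℝ) := by push_cast; norm_num
      rw [h4] at h2
      have h5 : (s.filter fun κ => z ∈ pce b F δ η q κ).card ≤ 5 ^ m := by exact_mod_cast h2
      calc ((s.filter fun κ => z ∈ pce b F δ η q κ).card : ℝ≥0∞) ≤ ((5 ^ m : ℕ) : ℝ≥0∞) := by
            exact_mod_cast h5
        _ = 5 ^ m := by push_cast; rfl
    · have : ∀ κ, (pce b F δ η q κ).indicator (1 : Eu (m + 2) → ℝ≥0∞) z = 0 := by
        intro κ
        apply indicator_of_notMem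
        rintro ⟨h2, h3, -⟩
        exact hq (Prod.ext h2.symm h3.symm)
      simp [this]
  calc _ ≤ ∑ q ∈ S, if q = (⌊b.repr z 0 / η⌋, ⌊b.repr z 1 / η⌋) then (5 : ℝ≥0∞) ^ m else 0 :=
        Finset.sum_le_sum fun q _ => h1 q
    _ ≤ (5 : ℝ≥0∞) ^ m := by
        rw [Finset.sum_ite_eq' S]
        split_ifs
        · exact le_rfl
        · exact zero_le

theorem floor_close {η x y : ℝ} (hη : 0 < η) (h : ⌊x / η⌋ = ⌊y / η⌋) : |x - y| ≤ η := by
  have h1 := Int.floor_le (x / η)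
  have h2 := Int.lt_floor_add_one (x / η)
  have h3 := Int.floor_le (y / η)
  have h4 := Int.lt_floor_add_one (y / η)
  rw [h] at h1 h2
  rw [le_div_iff₀ hη] at h1 h3
  rw [div_lt_iff₀ hη] at h2 h4
  rw [abs_le]
  constructor <;> nlinarith

theorem squares_card {η τ : ℝ} (hη : 0 < η) (hη1 : η ≤ 1) :
    ((Finset.Icc ⌊(τ - 1 / 2) / η⌋ ⌊(τ + 1 / 2) / η⌋).card : ℝ) ≤ 3 / η := by
  rw [Int.card_Icc]
  have h1 := Int.floor_le ((τ + 1 / 2) / η)
  have h2 := Int.lt_floor_add_one ((τ - 1 / 2) / η)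
  have h3 : ((⌊(τ + 1 / 2) / η⌋ + 1 - ⌊(τ - 1 / 2) / η⌋ : ℤ) : ℝ) ≤ 3 / η := by
    push_cast
    have e1 : (τ + 1 / 2) / η = (τ - 1 / 2) / η + 1 / η := by ring
    have e2 : 1 ≤ 1 / η := by rw [le_div_iff₀ hη]; linarith
    have e3 : 3 / η = 1 / η + 1 / η + 1 / η := by ring
    linarith
  rcases le_total 0 (⌊(τ + 1 / 2) / η⌋ + 1 - ⌊(τ - 1 / 2) / η⌋) with h | h
  · have h4 : (((⌊(τ + 1 / 2) / η⌋ + 1 - ⌊(τ - 1 / 2) / η⌋).toNat : ℕ) : ℝ) =
        ((⌊(τ + 1 / 2) / η⌋ + 1 - ⌊(τ - 1 / 2) / η⌋ : ℤ) : ℝ) := by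
      exact_mod_cast congrArg (Int.cast : ℤ → ℝ) (Int.toNat_of_nonneg h)
    rw [h4]
    exact h3
  · rw [Int.toNat_of_nonpos h]
    push_cast
    positivity

/-- the maximal operator for all leaves near one point -/
theorem local_maj (hm : 1 ≤ m) (k : ℕ) {F : Eu (m + 2) → (Fin m → ℝ)} {z₀ : Eu (m + 2)}
    (hF : ContDiffAt ℝ (k + 1) F z₀) (hs : Function.Surjective (fderiv ℝ F z₀)) :
    ∃ ρ' δ₀ C : ℝ, 0 < ρ' ∧ 0 < δ₀ ∧ 0 < C ∧ ∀ (F' : Eu (m + 2) → (Fin m → ℝ)), Measurable F' →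
      ∀ δ : ℝ, 0 < δ → δ ≤ 1 → δ < δ₀ → ∀ g : Eu (m + 2) → ℝ≥0∞, Measurable g →
      (∀ z, g z ≠ 0 → z ∈ ball z₀ ρ' ∧ F' z = F z) →
      ∃ G : Sp (m + 2) → ℝ≥0∞, Measurable G ∧
        (∀ e : Sp (m + 2), ∀ a c, avg δ ({z | ‖F' z - c‖ ≤ δ}.indicator g)
          (e : Eu (m + 2)) a ^ (m + 2) ≤ G e) ∧
        ∫⁻ e, G e ∂(surf (m + 2)) ≤
          ENNReal.ofReal (C * δ ^ (-(2 * ((m : ℝ) + 2) / (k + 1))) *
            (1 + Real.log (1 / δ)) ^ 2) * ∫⁻ z, g z ^ (m + 2) := by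
  classical
  obtain ⟨b, H, ρ, A, hρ, hρ1, hA, hH, ρ', hρ', hball⟩ := chart_exists hF hs
  obtain ⟨C, hC, hpiece⟩ := piece_maj (m := m) hm k hA
  refine ⟨ρ', ρ / 4, 9 ^ (m + 2) * C * 5 ^ m, hρ', by positivity, by positivity, ?_⟩
  intro F' hF' δ hδ hδ1 hδρ g hg hsupp
  have hlog0 : 0 ≤ Real.log (1 / δ) := Real.log_nonneg (by
    rw [le_div_iff₀ hδ]; linarith)
  set lg := Real.log (1 / δ) with hlg
  set η : ℝ := δ ^ ((1 : ℝ) / (k + 1)) with hη
  have hk1 : (0 : ℝ) < (k : ℝ) + 1 := by positivity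
  have hη0 : 0 < η := Real.rpow_pos_of_pos hδ _
  have hη1 : η ≤ 1 := Real.rpow_le_one hδ.le hδ1 (by positivity)
  have hηk : η ^ (k + 1) = δ := by
    rw [hη, ← Real.rpow_natCast, ← Real.rpow_mul hδ.le]
    push_cast
    rw [one_div, inv_mul_cancel₀ hk1.ne', Real.rpow_one]
  set τ0 := b.repr z₀ 0 with hτ0
  set ξ0 := b.repr z₀ 1 with hξ0
  set S : Finset (ℤ × ℤ) := Finset.Icc ⌊(τ0 - 1 / 2) / η⌋ ⌊(τ0 + 1 / 2) / η⌋ ×ˢ
    Finset.Icc ⌊(ξ0 - 1 / 2) / η⌋ ⌊(ξ0 + 1 / 2) / η⌋ with hS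
  have hScard : (S.card : ℝ) ≤ 9 * η⁻¹ ^ 2 := by
    rw [hS, Finset.card_product]
    push_cast
    calc _ ≤ (3 / η) * (3 / η) := by
          gcongr
          · exact squares_card hη0 hη1
          · exact squares_card hη0 hη1
      _ = _ := by field_simp; norm_num
  set gg : ℤ × ℤ → (Fin m → ℤ) → Eu (m + 2) → ℝ≥0∞ := fun q κ =>
    (pce b F' δ η q κ).indicator g with hgg
  have hggm : ∀ q κ, Measurable (gg q κ) := fun q κ => hg.indicator (pce_meas b hF' δ η q κ)
  have hggne : ∀ q κ z, gg q κ z ≠ 0 → g z ≠ 0 ∧ z ∈ pce b F' δ η q κ := by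
    intro q κ z hz
    by_cases hz2 : z ∈ pce b F' δ η q κ
    · refine ⟨?_, hz2⟩
      rw [hgg] at hz
      simp only [indicator_of_mem hz2] at hz
      exact hz
    · rw [hgg] at hz
      simp only [indicator_of_notMem hz2] at hz
      exact absurd rfl hz
  have hpc : ∀ q κ, ∃ G : Sp (m + 2) → ℝ≥0∞, Measurable G ∧
        (∀ e : Sp (m + 2), ∀ a, avg δ (gg q κ) (e : Eu (m + 2)) a ^ (m + 2) ≤ G e) ∧
        ∫⁻ e, G e ∂(surf (m + 2)) ≤
          ENNReal.ofReal (C * (1 + lg) ^ 2) * ∫⁻ z, gg q κ z ^ (m + 2) := by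
    intro q κ
    refine hpiece b z₀ F H ρ hρ hρ1 hH δ η hδ hδ1 hδρ hη0.le hηk.le (gg q κ) (hggm q κ)
      (fun r => κ r * δ) ?_ ?_
    · intro z hz
      obtain ⟨h1, h2⟩ := hggne q κ z hz
      obtain ⟨h3, h4⟩ := hsupp z h1
      obtain ⟨h5, h6⟩ := hball z h3
      refine ⟨h5, h6, ?_⟩
      rw [pi_norm_le_iff_of_nonneg (by positivity)]
      intro r
      rw [← h4]
      exact h2.2.2 r
    · intro z z' hz hz'
      obtain ⟨-, h1, h2, -⟩ := hggne q κ z hz
      obtain ⟨-, h3, h4, -⟩ := hggne q κ z' hz'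
      exact ⟨floor_close hη0 (h1.trans h3.symm), floor_close hη0 (h2.trans h4.symm)⟩
  choose G hGm hG1 hG2 using hpc
  refine ⟨fun e => (S.card : ℝ≥0∞) ^ (m + 2) * ∑ q ∈ S, ∑' κ, G q κ e, ?_, ?_, ?_⟩
  · exact (Finset.measurable_sum _ fun q _ => Measurable.ennreal_tsum fun κ =>
      hGm q κ).const_mul _
  · intro e a c
    set κ : Fin m → ℤ := fun r => ⌊c r / δ⌋ with hκ
    have h1 : avg δ ({z | ‖F' z - c‖ ≤ δ}.indicator g) (e : Eu (m + 2)) a ≤
        ∑ q ∈ S, avg δ (gg q κ) (e : Eu (m + 2)) a := by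
      unfold avg
      rw [← Finset.mul_sum, ← lintegral_finsetSum' _ (fun q _ => (hggm q κ).aemeasurable)]
      gcongr with z
      by_cases hz : z ∈ {z | ‖F' z - c‖ ≤ δ}
      · rw [indicator_of_mem hz]
        by_cases hgz : g z = 0
        · rw [hgz]; exact zero_le
        obtain ⟨h3, h4⟩ := hsupp z hgz
        obtain ⟨h5, h6⟩ := hball z h3
        set q : ℤ × ℤ := (⌊b.repr z 0 / η⌋, ⌊b.repr z 1 / η⌋) with hq
        have hqS : q ∈ S := by
          rw [mem_ball, Prod.dist_eq, Prod.dist_eq, max_lt_iff, max_lt_iff, Real.dist_eq,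
            Real.dist_eq] at h5
          have h7 := abs_lt.1 h5.1
          have h8 := abs_lt.1 h5.2.1
          simp only at h7 h8
          rw [hS, Finset.mem_product, Finset.mem_Icc, Finset.mem_Icc]
          refine ⟨⟨Int.floor_le_floor ?_, Int.floor_le_floor ?_⟩, Int.floor_le_floor ?_,
            Int.floor_le_floor ?_⟩
          · gcongr; linarith [h7.1]
          · gcongr; linarith [h7.2]
          · gcongr; linarith [h8.1]
          · gcongr; linarith [h8.2]
        have hzp : z ∈ pce b F' δ η q κ := by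
          refine ⟨rfl, rfl, fun r => ?_⟩
          have h7 : |F' z r - c r| ≤ δ := by
            have := (norm_le_pi_norm (F' z - c) r).trans hz
            exact this
          have h8 : |c r - κ r * δ| ≤ δ := by
            have h9 := Int.floor_le (c r / δ)
            have h10 := Int.lt_floor_add_one (c r / δ)
            rw [le_div_iff₀ hδ] at h9
            rw [div_lt_iff₀ hδ] at h10
            rw [abs_le]
            constructor
            · show -δ ≤ c r - (⌊c r / δ⌋ : ℝ) * δ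
              nlinarith
            · show c r - (⌊c r / δ⌋ : ℝ) * δ ≤ δ
              nlinarith
          have e1 : F' z r - κ r * δ = (F' z r - c r) + (c r - κ r * δ) := by ring
          rw [e1]
          refine (abs_add_le _ _).trans ?_
          linarith
        calc g z = gg q κ z := by
              rw [hgg]; simp only [indicator_of_mem hzp]
          _ ≤ ∑ q ∈ S, gg q κ z := Finset.single_le_sum (f := fun q => gg q κ z)
              (fun q _ => zero_le) hqS
      · rw [indicator_of_notMem hz]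
        exact zero_le
    calc avg δ ({z | ‖F' z - c‖ ≤ δ}.indicator g) (e : Eu (m + 2)) a ^ (m + 2)
        ≤ (∑ q ∈ S, avg δ (gg q κ) (e : Eu (m + 2)) a) ^ (m + 2) := by gcongr
      _ ≤ (S.card : ℝ≥0∞) ^ (m + 2) * ∑ q ∈ S, avg δ (gg q κ) (e : Eu (m + 2)) a ^ (m + 2) :=
          pow_sum_le _ _ _ (by omega)
      _ ≤ (S.card : ℝ≥0∞) ^ (m + 2) * ∑ q ∈ S, ∑' κ, G q κ e := by
          gcongr with q _
          exact (hG1 q κ e a).trans (ENNReal.le_tsum κ)
  · have hnt : (S.card : ℝ≥0∞) ^ (m + 2) ≠ ∞ := ENNReal.pow_ne_top (ENNReal.natCast_ne_top _)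
    rw [lintegral_const_mul' _ _ hnt, lintegral_finsetSum' _ (fun q _ =>
      (Measurable.ennreal_tsum fun κ => hGm q κ).aemeasurable)]
    have h1 : ∑ q ∈ S, ∫⁻ e, ∑' κ, G q κ e ∂(surf (m + 2)) ≤
        ENNReal.ofReal (C * (1 + lg) ^ 2) * (5 ^ m * ∫⁻ z, g z ^ (m + 2)) := by
      calc ∑ q ∈ S, ∫⁻ e, ∑' κ, G q κ e ∂(surf (m + 2))
          = ∑ q ∈ S, ∑' κ, ∫⁻ e, G q κ e ∂(surf (m + 2)) := by
            apply Finset.sum_congr rfl
            intro q _
            rw [lintegral_tsum fun κ => (hGm q κ).aemeasurable]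
        _ ≤ ∑ q ∈ S, ∑' κ, ENNReal.ofReal (C * (1 + lg) ^ 2) * ∫⁻ z, gg q κ z ^ (m + 2) := by
            gcongr with q _ κ
            exact hG2 q κ
        _ = ENNReal.ofReal (C * (1 + lg) ^ 2) *
              ∫⁻ z, ∑ q ∈ S, ∑' κ, gg q κ z ^ (m + 2) := by
            rw [lintegral_finsetSum' _ (fun q _ => (Measurable.ennreal_tsum fun κ =>
              (hggm q κ).pow_const _).aemeasurable), Finset.mul_sum]
            apply Finset.sum_congr rfl
            intro q _
            rw [ENNReal.tsum_mul_left, lintegral_tsum fun κ =>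
              ((hggm q κ).pow_const _).aemeasurable]
        _ ≤ ENNReal.ofReal (C * (1 + lg) ^ 2) * ∫⁻ z, 5 ^ m * g z ^ (m + 2) := by
            gcongr with z
            have e1 : ∀ q κ, gg q κ z ^ (m + 2) =
                (pce b F' δ η q κ).indicator (1 : Eu (m + 2) → ℝ≥0∞) z * g z ^ (m + 2) := by
              intro q κ
              rw [hgg]
              by_cases hz : z ∈ pce b F' δ η q κ
              · simp only [indicator_of_mem hz, Pi.one_apply, one_mul]
              · simp only [indicator_of_notMem hz, zero_mul]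
                exact zero_pow (by omega)
            simp_rw [e1, ENNReal.tsum_mul_right]
            rw [← Finset.sum_mul]
            gcongr
            exact pce_overlap b F' hδ η S z
        _ = _ := by
            rw [lintegral_const_mul' _ _ (ENNReal.pow_ne_top (by norm_num))]
    calc _ ≤ (S.card : ℝ≥0∞) ^ (m + 2) *
          (ENNReal.ofReal (C * (1 + lg) ^ 2) * (5 ^ m * ∫⁻ z, g z ^ (m + 2))) := by gcongr
      _ ≤ ENNReal.ofReal ((9 * η⁻¹ ^ 2) ^ (m + 2)) *
          (ENNReal.ofReal (C * (1 + lg) ^ 2) * (ENNReal.ofReal (5 ^ m) *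
            ∫⁻ z, g z ^ (m + 2))) := by
          have h5 : (5 : ℝ≥0∞) ^ m = ENNReal.ofReal (5 ^ m) := by
            rw [ENNReal.ofReal_pow (by norm_num)]; norm_num
          rw [h5]
          gcongr
          rw [ENNReal.ofReal_pow (by positivity)]
          gcongr
          rw [← ENNReal.ofReal_natCast]
          exact ENNReal.ofReal_le_ofReal hScard
      _ = _ := by
          rw [← mul_assoc, ← mul_assoc, ← ENNReal.ofReal_mul (by positivity),
            ← ENNReal.ofReal_mul (by positivity)]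
          congr 2
          have e1 : (9 * η⁻¹ ^ 2) ^ (m + 2) = 9 ^ (m + 2) *
              δ ^ (-(2 * ((m : ℝ) + 2) / (k + 1))) := by
            rw [mul_pow, ← pow_mul]
            congr 1
            rw [hη, ← Real.rpow_neg hδ.le, ← Real.rpow_natCast, ← Real.rpow_mul hδ.le]
            congr 1
            push_cast
            ring
          rw [e1]
          ring

end Pool.Agent.H28.SM
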