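import Mathlib

set_option autoImplicit false

/-!
# Kakeya near surfaces: a Markov type inequality
-/

open Set Polynomial

namespace Pool.Agent.H28.SM

/-- the constant in the Markov type inequality -/
noncomputable def mkv (D : ℕ) : ℝ := max 1 (eval 1 (derivative (Chebyshev.T ℝ D)))

theorem one_le_mkv (D : ℕ) : 1 ≤ mkv D := le_max_left _ _

theorem markov_aux {D : ℕ} {p : ℝ[X]} (hp : p.natDegree ≤ D) {a b B : ℝ} (hB : 0 < B)
    (h : ∀ x ∈ Icc (-1 : ℝ) 1, |p.eval (a + b * x)| ≤ B) :
    |b * (derivative p).eval (a + b)| ≤ mkv D * B := by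
  have key : ∀ s : ℝ, |s| = B⁻¹ → s * (b * (derivative p).eval (a + b)) ≤ mkv D := by
    intro s hs
    have hdeg : (C s * p.comp (C a + C b * X)).degree ≤ (D : ℕ) := by
      rw [← natDegree_le_iff_degree_le]
      refine (natDegree_C_mul_le _ _).trans (natDegree_comp_le.trans ?_)
      have h1 : (C a + C b * X : ℝ[X]).natDegree ≤ 1 := by
        refine (natDegree_add_le _ _).trans ?_
        simp only [natDegree_C, max_le_iff, zero_le, true_and]
        exact (natDegree_C_mul_le _ _).trans natDegree_X_le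
      calc p.natDegree * (C a + C b * X : ℝ[X]).natDegree ≤ D * 1 := Nat.mul_le_mul hp h1
        _ = D := mul_one D
    have hbnd : ∀ x ∈ Icc (-1 : ℝ) 1, |(C s * p.comp (C a + C b * X)).eval x| ≤ 1 := by
      intro x hx
      simp only [eval_mul, eval_C, eval_comp, eval_add, eval_X, abs_mul, hs]
      rw [inv_mul_le_iff₀ hB, mul_one]
      exact h x hx
    have h2 := Chebyshev.eval_iterate_derivative_le_of_forall_abs_le_one (k := 1) (le_refl (1:ℝ))
      hdeg hbnd
    simp only [Function.iterate_one] at h2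
    have h3 : (derivative (C s * p.comp (C a + C b * X))).eval 1 =
        s * (b * (derivative p).eval (a + b)) := by
      rw [derivative_C_mul, eval_mul, eval_C, derivative_comp, eval_mul, eval_comp]
      simp
    rw [h3] at h2
    exact h2.trans (le_max_right _ _)
  have h1 := key B⁻¹ (abs_of_pos (inv_pos.2 hB))
  have h2 := key (-B⁻¹) (by rw [abs_neg]; exact abs_of_pos (inv_pos.2 hB))
  rw [inv_mul_le_iff₀ hB] at h1
  rw [neg_mul, ← mul_neg, inv_mul_le_iff₀ hB] at h2
  rw [abs_le]
  constructor <;> nlinarith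

/-- **Markov type inequality** -/
theorem markov {D : ℕ} {p : ℝ[X]} (hp : p.natDegree ≤ D) {u v B : ℝ} (huv : u < v) (hB : 0 < B)
    (h : ∀ t ∈ Icc u v, |p.eval t| ≤ B) {t : ℝ} (ht : t ∈ Icc u v) :
    |(derivative p).eval t| ≤ 4 * mkv D * B / (v - u) := by
  have hm := one_le_mkv D
  have huv0 : 0 < v - u := sub_pos.2 huv
  rw [le_div_iff₀ huv0]
  rcases le_total (v - t) (t - u) with hc | hc
  · -- use the interval [u, t]
    have h1 := markov_aux (D := D) hp (a := (u + t) / 2) (b := (t - u) / 2) hB (by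
      intro x hx
      apply h
      constructor
      · nlinarith [hx.1, hx.2, ht.1, ht.2]
      · nlinarith [hx.1, hx.2, ht.1, ht.2])
    have e : (u + t) / 2 + (t - u) / 2 = t := by ring
    rw [e, abs_mul] at h1
    have h2 : (v - u) / 4 ≤ |(t - u) / 2| := by
      rw [abs_of_nonneg (by linarith [ht.1])]
      linarith
    nlinarith [abs_nonneg ((derivative p).eval t)]
  · have h1 := markov_aux (D := D) hp (a := (t + v) / 2) (b := -((v - t) / 2)) hB (by
      intro x hx
      apply h
      constructor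
      · nlinarith [hx.1, hx.2, ht.1, ht.2]
      · nlinarith [hx.1, hx.2, ht.1, ht.2])
    have e : (t + v) / 2 + -((v - t) / 2) = t := by ring
    rw [e, abs_mul, abs_neg] at h1
    have h2 : (v - u) / 4 ≤ |(v - t) / 2| := by
      rw [abs_of_nonneg (by linarith [ht.2])]
      linarith
    nlinarith [abs_nonneg ((derivative p).eval t)]

/-- both derivatives -/
theorem markov2 {D : ℕ} {p : ℝ[X]} (hp : p.natDegree ≤ D) {u v B : ℝ} (huv : u < v) (hB : 0 < B)
    (h : ∀ t ∈ Icc u v, |p.eval t| ≤ B) {t : ℝ} (ht : t ∈ Icc u v) :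
    |(derivative (derivative p)).eval t| ≤ 16 * mkv D ^ 2 * B / (v - u) ^ 2 := by
  have hm := one_le_mkv D
  have huv0 : 0 < v - u := sub_pos.2 huv
  have h1 := markov (D := D) (p := derivative p) ((natDegree_derivative_le p).trans (by omega)) huv
    (B := 4 * mkv D * B / (v - u)) (by positivity) (fun s hs => markov hp huv hB h hs) ht
  refine h1.trans (le_of_eq ?_)
  field_simp
  ring

end Pool.Agent.H28.SM
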