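import Pool.Agent.H28.SM.Piece

set_option autoImplicit false

/-!
# Kakeya near surfaces: polynomials of two variables are admissible
-/

open Set Polynomial

namespace Pool.Agent.H28.SM

theorem pow_bd {T ρ : ℝ} (hρ : 1 ≤ ρ) (hT : |T| ≤ ρ) {a b : ℕ} (hab : a ≤ b) : |T ^ a| ≤ ρ ^ b := by
  rw [abs_pow]
  exact (pow_le_pow_left₀ (abs_nonneg _) hT a).trans (pow_le_pow_right₀ hρ hab)

theorem pow_diff {Y Y' ρ : ℝ} (hρ : 1 ≤ ρ) (hY : |Y| ≤ ρ) (hY' : |Y'| ≤ ρ) (j : ℕ) :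
    |Y' ^ j - Y ^ j| ≤ j * ρ ^ j * |Y' - Y| := by
  induction j with
  | zero => simp
  | succ j ih =>
    have e : Y' ^ (j + 1) - Y ^ (j + 1) = Y' ^ j * (Y' - Y) + (Y' ^ j - Y ^ j) * Y := by ring
    rw [e]
    refine (abs_add_le _ _).trans ?_
    rw [abs_mul, abs_mul]
    have h1 : |Y' ^ j| ≤ ρ ^ (j + 1) := pow_bd hρ hY' (Nat.le_succ j)
    have h2 : |Y' ^ j - Y ^ j| * |Y| ≤ (j * ρ ^ j * |Y' - Y|) * ρ :=
      mul_le_mul ih hY (abs_nonneg _) (by positivity)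
    have h3 : |Y' ^ j| * |Y' - Y| ≤ ρ ^ (j + 1) * |Y' - Y| :=
      mul_le_mul_of_nonneg_right h1 (abs_nonneg _)
    push_cast
    calc _ ≤ ρ ^ (j + 1) * |Y' - Y| + (j * ρ ^ j * |Y' - Y|) * ρ := add_le_add h3 h2
      _ = _ := by ring

/-- the constant for monomials -/
noncomputable def lmon (k : ℕ) (R : ℝ) : ℝ := 9 * (k + 1) ^ 3 * (R + 1) ^ k

theorem lmon_nonneg (k : ℕ) {R : ℝ} (hR : 1 ≤ R) : 0 ≤ lmon k R := by
  unfold lmon
  positivity

/-- the linear polynomial of a line -/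
noncomputable def lin (q2 a s : ℝ) : ℝ[X] := C a + C s * X - C q2

theorem lin_eval (q2 a s t : ℝ) : (lin q2 a s).eval t = a + s * t - q2 := by
  simp [lin]

theorem lin_der (q2 a s : ℝ) : derivative (lin q2 a s) = C s := by
  simp [lin]

theorem lin_deg (q2 a s : ℝ) : (lin q2 a s).natDegree ≤ 1 := by
  unfold lin
  refine (natDegree_sub_le _ _).trans (max_le ?_ (by simp))
  refine (natDegree_add_le _ _).trans (max_le (by simp) ?_)
  exact (natDegree_C_mul_le _ _).trans natDegree_X_le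

/-- the restriction of a monomial -/
noncomputable def pm (q1 q2 a s : ℝ) (i j : ℕ) : ℝ[X] := (X - C q1) ^ i * lin q2 a s ^ j

theorem pm_deg (q1 q2 a s : ℝ) (i j : ℕ) : (pm q1 q2 a s i j).natDegree ≤ i + j := by
  unfold pm
  refine natDegree_mul_le.trans (add_le_add ?_ ?_)
  · refine natDegree_pow_le.trans ?_
    have h1 : (X - C q1 : ℝ[X]).natDegree ≤ 1 := by
      refine (natDegree_sub_le _ _).trans (max_le natDegree_X_le (by simp))
    calc i * (X - C q1 : ℝ[X]).natDegree ≤ i * 1 := Nat.mul_le_mul le_rfl h1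
      _ = i := mul_one i
  · refine natDegree_pow_le.trans ?_
    calc j * (lin q2 a s).natDegree ≤ j * 1 := Nat.mul_le_mul le_rfl (lin_deg _ _ _)
      _ = j := mul_one j

theorem pm_eval (q1 q2 a s t : ℝ) (i j : ℕ) :
    (pm q1 q2 a s i j).eval t = (t - q1) ^ i * (a + s * t - q2) ^ j := by
  simp [pm, lin_eval]

theorem pm_der (q1 q2 a s : ℝ) (i j : ℕ) :
    derivative (pm q1 q2 a s i j) = C (i : ℝ) * pm q1 q2 a s (i - 1) j +
      C (j * s) * pm q1 q2 a s i (j - 1) := by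
  unfold pm
  rw [derivative_mul, derivative_pow, derivative_pow, lin_der]
  simp only [derivative_sub, derivative_X, derivative_C, sub_zero, mul_one, C_mul]
  ring

theorem abs_mul3_le {a b c A B D : ℝ} (ha : |a| ≤ A) (hb : |b| ≤ B) (hc : |c| ≤ D) :
    |a * b * c| ≤ A * B * D := by
  rw [abs_mul, abs_mul]
  have hA := (abs_nonneg a).trans ha
  have hB := (abs_nonneg b).trans hb
  have := mul_le_mul ha hb (abs_nonneg _) hA
  exact mul_le_mul this hc (abs_nonneg _) (by positivity)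

/-- monomials are admissible -/
noncomputable def admMon (k i j : ℕ) (hij : i + j ≤ k) {q1 q2 R : ℝ} (hq1 : |q1| ≤ 1)
    (hq2 : |q2| ≤ 1) (hR : 1 ≤ R) :
    Adm k (lmon k R) R (fun t x => (t - q1) ^ i * (x - q2) ^ j) where
  G0 a s := pm q1 q2 a s i j
  G1 a s := C (j : ℝ) * pm q1 q2 a s i (j - 1)
  G2 a s := C ((j : ℝ) * ((j - 1 : ℕ) : ℝ)) * pm q1 q2 a s i (j - 1 - 1)
  deg0 a s := (pm_deg _ _ _ _ _ _).trans hij
  deg1 a s := (natDegree_C_mul_le _ _).trans ((pm_deg _ _ _ _ _ _).trans (by omega))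
  deg2 a s := (natDegree_C_mul_le _ _).trans ((pm_deg _ _ _ _ _ _).trans (by omega))
  ev a s t := by rw [pm_eval]
  d1 a s a' s' t ht hs hs' hx hx' := by
    have hρ : (1 : ℝ) ≤ R + 1 := by linarith
    have hT : |t - q1| ≤ R + 1 := (abs_sub _ _).trans (by linarith)
    have hY : |a + s * t - q2| ≤ R + 1 := (abs_sub _ _).trans (by linarith)
    have hY' : |a' + s' * t - q2| ≤ R + 1 := (abs_sub _ _).trans (by linarith)
    rw [pm_der, pm_der]
    simp only [eval_add, eval_mul, eval_C, pm_eval]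
    set T := t - q1
    set Y := a + s * t - q2
    set Y' := a' + s' * t - q2
    have hΔ : (a' + s' * t) - (a + s * t) = Y' - Y := by ring
    rw [hΔ]
    have hi : |(i : ℝ)| ≤ k := by
      rw [Nat.abs_cast]; exact_mod_cast (by omega : i ≤ k)
    have hj : |(j : ℝ)| ≤ k := by
      rw [Nat.abs_cast]; exact_mod_cast (by omega : j ≤ k)
    have e : (i : ℝ) * (T ^ (i - 1) * Y' ^ j) + j * s' * (T ^ i * Y' ^ (j - 1)) -
        ((i : ℝ) * (T ^ (i - 1) * Y ^ j) + j * s * (T ^ i * Y ^ (j - 1)) +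
        (s' - s) * (j * (T ^ i * Y ^ (j - 1)))) =
        i * T ^ (i - 1) * (Y' ^ j - Y ^ j) + (j * s') * T ^ i * (Y' ^ (j - 1) - Y ^ (j - 1)) := by
      ring
    rw [e]
    refine (abs_add_le _ _).trans ?_
    have hjs : |(j : ℝ) * s'| ≤ k * 2 := by
      rw [abs_mul]
      exact mul_le_mul hj hs' (abs_nonneg _) (Nat.cast_nonneg k)
    have b1 := abs_mul3_le hi (pow_bd hρ hT (by omega : i - 1 ≤ i)) (pow_diff hρ hY hY' j)
    have b2 := abs_mul3_le hjs (pow_bd hρ hT (le_refl i)) (pow_diff hρ hY hY' (j - 1))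
    have hjk : (j : ℝ) ≤ k := by exact_mod_cast (by omega : j ≤ k)
    have hjk' : ((j - 1 : ℕ) : ℝ) ≤ k := by exact_mod_cast (by omega : j - 1 ≤ k)
    have hρ0 : (0 : ℝ) < R + 1 := by linarith
    have hD : 0 ≤ |Y' - Y| := abs_nonneg _
    have hk0 : (0 : ℝ) ≤ k := Nat.cast_nonneg k
    have c1' : (k : ℝ) * (R + 1) ^ i * (j * (R + 1) ^ j * |Y' - Y|) ≤
        k ^ 2 * ((R + 1) ^ k * |Y' - Y|) := by
      have hp : (R + 1) ^ i * (R + 1) ^ j ≤ (R + 1) ^ k := by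
        rw [← pow_add]; exact pow_le_pow_right₀ hρ hij
      calc (k : ℝ) * (R + 1) ^ i * (j * (R + 1) ^ j * |Y' - Y|) =
            (k * j) * (((R + 1) ^ i * (R + 1) ^ j) * |Y' - Y|) := by ring
        _ ≤ (k * k) * ((R + 1) ^ k * |Y' - Y|) := by gcongr
        _ = _ := by ring
    have c2' : (k : ℝ) * 2 * (R + 1) ^ i * (((j - 1 : ℕ) : ℝ) * (R + 1) ^ (j - 1) * |Y' - Y|) ≤
        2 * k ^ 2 * ((R + 1) ^ k * |Y' - Y|) := by
      have hp : (R + 1) ^ i * (R + 1) ^ (j - 1) ≤ (R + 1) ^ k := by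
        rw [← pow_add]; exact pow_le_pow_right₀ hρ (by omega)
      calc (k : ℝ) * 2 * (R + 1) ^ i * (((j - 1 : ℕ) : ℝ) * (R + 1) ^ (j - 1) * |Y' - Y|) =
            (2 * k * ((j - 1 : ℕ) : ℝ)) * (((R + 1) ^ i * (R + 1) ^ (j - 1)) * |Y' - Y|) := by ring
        _ ≤ (2 * k * k) * ((R + 1) ^ k * |Y' - Y|) := by gcongr
        _ = _ := by ring
    have hfin : 3 * (k : ℝ) ^ 2 * ((R + 1) ^ k * |Y' - Y|) ≤ lmon k R * |Y' - Y| := by
      unfold lmon
      have h1 : 3 * (k : ℝ) ^ 2 ≤ 9 * (k + 1) ^ 3 := by nlinarith [sq_nonneg (k : ℝ)]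
      calc 3 * (k : ℝ) ^ 2 * ((R + 1) ^ k * |Y' - Y|) ≤
            9 * (k + 1) ^ 3 * ((R + 1) ^ k * |Y' - Y|) := by gcongr
        _ = _ := by ring
    linarith
  d2 a s a' s' t ht hs hs' hx hx' := by
    have hρ : (1 : ℝ) ≤ R + 1 := by linarith
    have hT : |t - q1| ≤ R + 1 := (abs_sub _ _).trans (by linarith)
    have hY : |a + s * t - q2| ≤ R + 1 := (abs_sub _ _).trans (by linarith)
    have hY' : |a' + s' * t - q2| ≤ R + 1 := (abs_sub _ _).trans (by linarith)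
    simp only [pm_der, derivative_add, derivative_mul, derivative_C, zero_mul, zero_add]
    simp only [eval_add, eval_mul, eval_C, pm_eval]
    set T := t - q1
    set Y := a + s * t - q2
    set Y' := a' + s' * t - q2
    have hΔ : (a' + s' * t) - (a + s * t) = Y' - Y := by ring
    rw [hΔ]
    have hi : |(i : ℝ)| ≤ k := by
      rw [Nat.abs_cast]; exact_mod_cast (by omega : i ≤ k)
    have hi' : |((i - 1 : ℕ) : ℝ)| ≤ k := by
      rw [Nat.abs_cast]; exact_mod_cast (by omega : i - 1 ≤ k)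
    have hj : |(j : ℝ)| ≤ k := by
      rw [Nat.abs_cast]; exact_mod_cast (by omega : j ≤ k)
    have hj' : |((j - 1 : ℕ) : ℝ)| ≤ k := by
      rw [Nat.abs_cast]; exact_mod_cast (by omega : j - 1 ≤ k)
    have e : (i : ℝ) * (((i - 1 : ℕ) : ℝ) * (T ^ (i - 1 - 1) * Y' ^ j) +
          j * s' * (T ^ (i - 1) * Y' ^ (j - 1))) +
        j * s' * (i * (T ^ (i - 1) * Y' ^ (j - 1)) +
          ((j - 1 : ℕ) : ℝ) * s' * (T ^ i * Y' ^ (j - 1 - 1))) -
        ((i : ℝ) * (((i - 1 : ℕ) : ℝ) * (T ^ (i - 1 - 1) * Y ^ j) +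
          j * s * (T ^ (i - 1) * Y ^ (j - 1))) +
        j * s * (i * (T ^ (i - 1) * Y ^ (j - 1)) +
          ((j - 1 : ℕ) : ℝ) * s * (T ^ i * Y ^ (j - 1 - 1))) +
        2 * (s' - s) * (j * (i * (T ^ (i - 1) * Y ^ (j - 1)) +
          ((j - 1 : ℕ) : ℝ) * s * (T ^ i * Y ^ (j - 1 - 1)))) +
        (s' - s) ^ 2 * (j * ((j - 1 : ℕ) : ℝ) * (T ^ i * Y ^ (j - 1 - 1)))) =
        (i * ((i - 1 : ℕ) : ℝ)) * T ^ (i - 1 - 1) * (Y' ^ j - Y ^ j) +
        (2 * i * j * s') * T ^ (i - 1) * (Y' ^ (j - 1) - Y ^ (j - 1)) +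
        (j * ((j - 1 : ℕ) : ℝ) * s' ^ 2) * T ^ i * (Y' ^ (j - 1 - 1) - Y ^ (j - 1 - 1)) := by
      ring
    rw [e]
    have hk0 : (0 : ℝ) ≤ k := Nat.cast_nonneg k
    have a1 : |(i : ℝ) * ((i - 1 : ℕ) : ℝ)| ≤ k * k := by
      rw [abs_mul]; exact mul_le_mul hi hi' (abs_nonneg _) hk0
    have a2 : |2 * (i : ℝ) * j * s'| ≤ 2 * k * k * 2 := by
      have : |2 * (i : ℝ)| ≤ 2 * k := by
        rw [abs_mul, abs_two]; linarith
      exact abs_mul3_le this hj hs'
    have a3 : |(j : ℝ) * ((j - 1 : ℕ) : ℝ) * s' ^ 2| ≤ k * k * 4 := by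
      have : |s' ^ 2| ≤ 4 := by
        rw [abs_pow]; nlinarith [abs_nonneg s']
      exact abs_mul3_le hj hj' this
    have b1 := abs_mul3_le a1 (pow_bd hρ hT (by omega : i - 1 - 1 ≤ i)) (pow_diff hρ hY hY' j)
    have b2 := abs_mul3_le a2 (pow_bd hρ hT (by omega : i - 1 ≤ i))
      (pow_diff hρ hY hY' (j - 1))
    have b3 := abs_mul3_le a3 (pow_bd hρ hT (le_refl i)) (pow_diff hρ hY hY' (j - 1 - 1))
    have hρ0 : (0 : ℝ) < R + 1 := by linarith
    have hD : 0 ≤ |Y' - Y| := abs_nonneg _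
    have gen : ∀ (c : ℝ) (j' : ℕ), 0 ≤ c → j' ≤ j → c * (R + 1) ^ i *
        (j' * (R + 1) ^ j' * |Y' - Y|) ≤ c * k * ((R + 1) ^ k * |Y' - Y|) := by
      intro c j' hc hj'
      have hp : (R + 1) ^ i * (R + 1) ^ j' ≤ (R + 1) ^ k := by
        rw [← pow_add]; exact pow_le_pow_right₀ hρ (by omega)
      have hjk' : (j' : ℝ) ≤ k := by exact_mod_cast (by omega : j' ≤ k)
      calc c * (R + 1) ^ i * (j' * (R + 1) ^ j' * |Y' - Y|) =
            (c * j') * (((R + 1) ^ i * (R + 1) ^ j') * |Y' - Y|) := by ring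
        _ ≤ (c * k) * ((R + 1) ^ k * |Y' - Y|) := by gcongr
        _ = _ := by ring
    have c1' := gen (k * k) j (by positivity) le_rfl
    have c2' := gen (2 * k * k * 2) (j - 1) (by positivity) (by omega)
    have c3' := gen (k * k * 4) (j - 1 - 1) (by positivity) (by omega)
    have hfin : 9 * (k : ℝ) ^ 3 * ((R + 1) ^ k * |Y' - Y|) ≤ lmon k R * |Y' - Y| := by
      unfold lmon
      have h1 : 9 * (k : ℝ) ^ 3 ≤ 9 * (k + 1) ^ 3 := by gcongr; linarith
      calc 9 * (k : ℝ) ^ 3 * ((R + 1) ^ k * |Y' - Y|) ≤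
            9 * (k + 1) ^ 3 * ((R + 1) ^ k * |Y' - Y|) := by gcongr
        _ = _ := by ring
    refine (abs_add_le _ _).trans ((add_le_add (abs_add_le _ _) le_rfl).trans ?_)
    linarith
  b1 a s t ht hs hx := by
    have hρ : (1 : ℝ) ≤ R + 1 := by linarith
    have hT : |t - q1| ≤ R + 1 := (abs_sub _ _).trans (by linarith)
    have hY : |a + s * t - q2| ≤ R + 1 := (abs_sub _ _).trans (by linarith)
    simp only [pm_der, derivative_mul, derivative_C, zero_mul, zero_add]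
    simp only [eval_add, eval_mul, eval_C, pm_eval]
    set T := t - q1
    set Y := a + s * t - q2
    have hi : |(i : ℝ)| ≤ k := by
      rw [Nat.abs_cast]; exact_mod_cast (by omega : i ≤ k)
    have hj : |(j : ℝ)| ≤ k := by
      rw [Nat.abs_cast]; exact_mod_cast (by omega : j ≤ k)
    have hj' : |((j - 1 : ℕ) : ℝ)| ≤ k := by
      rw [Nat.abs_cast]; exact_mod_cast (by omega : j - 1 ≤ k)
    have hk0 : (0 : ℝ) ≤ k := Nat.cast_nonneg k
    have e : (j : ℝ) * (i * (T ^ (i - 1) * Y ^ (j - 1)) +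
        ((j - 1 : ℕ) : ℝ) * s * (T ^ i * Y ^ (j - 1 - 1))) =
        (j * i) * T ^ (i - 1) * Y ^ (j - 1) +
        (j * ((j - 1 : ℕ) : ℝ) * s) * T ^ i * Y ^ (j - 1 - 1) := by ring
    rw [e]
    have a1 : |(j : ℝ) * i| ≤ k * k := by
      rw [abs_mul]; exact mul_le_mul hj hi (abs_nonneg _) hk0
    have a2 : |(j : ℝ) * ((j - 1 : ℕ) : ℝ) * s| ≤ k * k * 2 := abs_mul3_le hj hj' hs
    have b1 := abs_mul3_le a1 (pow_bd hρ hT (by omega : i - 1 ≤ i))
      (pow_bd hρ hY (by omega : j - 1 ≤ j))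
    have b2 := abs_mul3_le a2 (pow_bd hρ hT (le_refl i)) (pow_bd hρ hY (by omega : j - 1 - 1 ≤ j))
    have hρ0 : (0 : ℝ) < R + 1 := by linarith
    have hp : (R + 1) ^ i * (R + 1) ^ j ≤ (R + 1) ^ k := by
      rw [← pow_add]; exact pow_le_pow_right₀ hρ hij
    have c1' : (k : ℝ) * k * (R + 1) ^ i * (R + 1) ^ j ≤ k ^ 2 * (R + 1) ^ k := by
      calc (k : ℝ) * k * (R + 1) ^ i * (R + 1) ^ j = k ^ 2 * ((R + 1) ^ i * (R + 1) ^ j) := by ring
        _ ≤ _ := by gcongr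
    have c2' : (k : ℝ) * k * 2 * (R + 1) ^ i * (R + 1) ^ j ≤ 2 * (k ^ 2 * (R + 1) ^ k) := by
      calc (k : ℝ) * k * 2 * (R + 1) ^ i * (R + 1) ^ j =
            2 * (k ^ 2 * ((R + 1) ^ i * (R + 1) ^ j)) := by ring
        _ ≤ _ := by gcongr
    have hfin : 3 * (k : ℝ) ^ 2 * (R + 1) ^ k ≤ lmon k R := by
      unfold lmon
      have h1 : 3 * (k : ℝ) ^ 2 ≤ 9 * (k + 1) ^ 3 := by nlinarith [sq_nonneg (k : ℝ)]
      gcongr
    refine (abs_add_le _ _).trans ?_
    linarith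
  lip t t' x x' ht ht' hx hx' := by
    have hρ : (1 : ℝ) ≤ R + 1 := by linarith
    have hT : |t - q1| ≤ R + 1 := (abs_sub _ _).trans (by linarith)
    have hT' : |t' - q1| ≤ R + 1 := (abs_sub _ _).trans (by linarith)
    have hY : |x - q2| ≤ R + 1 := (abs_sub _ _).trans (by linarith)
    have hY' : |x' - q2| ≤ R + 1 := (abs_sub _ _).trans (by linarith)
    have hk0 : (0 : ℝ) ≤ k := Nat.cast_nonneg k
    have hi : (i : ℝ) ≤ k := by exact_mod_cast (by omega : i ≤ k)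
    have hj : (j : ℝ) ≤ k := by exact_mod_cast (by omega : j ≤ k)
    have hρ0 : (0 : ℝ) < R + 1 := by linarith
    have e : (t - q1) ^ i * (x - q2) ^ j - (t' - q1) ^ i * (x' - q2) ^ j =
        1 * (x - q2) ^ j * ((t - q1) ^ i - (t' - q1) ^ i) +
        1 * (t' - q1) ^ i * ((x - q2) ^ j - (x' - q2) ^ j) := by ring
    rw [e]
    have p1 := pow_diff hρ hT' hT i
    have p2 := pow_diff hρ hY' hY j
    have e1 : (t - q1) - (t' - q1) = t - t' := by ring
    have e2 : (x - q2) - (x' - q2) = x - x' := by ring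
    rw [e1] at p1
    rw [e2] at p2
    have h1 : |(1 : ℝ)| ≤ 1 := by simp
    have b1 := abs_mul3_le h1 (pow_bd hρ hY (le_refl j)) p1
    have b2 := abs_mul3_le h1 (pow_bd hρ hT' (le_refl i)) p2
    have hp : (R + 1) ^ i * (R + 1) ^ j ≤ (R + 1) ^ k := by
      rw [← pow_add]; exact pow_le_pow_right₀ hρ hij
    have hd1 : 0 ≤ |t - t'| := abs_nonneg _
    have hd2 : 0 ≤ |x - x'| := abs_nonneg _
    have c1' : 1 * (R + 1) ^ j * (i * (R + 1) ^ i * |t - t'|) ≤ k * (R + 1) ^ k * |t - t'| := by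
      calc 1 * (R + 1) ^ j * (i * (R + 1) ^ i * |t - t'|) =
            i * ((R + 1) ^ i * (R + 1) ^ j) * |t - t'| := by ring
        _ ≤ _ := by gcongr
    have c2' : 1 * (R + 1) ^ i * (j * (R + 1) ^ j * |x - x'|) ≤ k * (R + 1) ^ k * |x - x'| := by
      calc 1 * (R + 1) ^ i * (j * (R + 1) ^ j * |x - x'|) =
            j * ((R + 1) ^ i * (R + 1) ^ j) * |x - x'| := by ring
        _ ≤ _ := by gcongr
    have hfin : (k : ℝ) * (R + 1) ^ k * (|t - t'| + |x - x'|) ≤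
        lmon k R * (|t - t'| + |x - x'|) := by
      unfold lmon
      have h0 : (k : ℝ) + 1 ≤ (k + 1) ^ 3 := le_self_pow₀ (by linarith) (by norm_num)
      have h1 : (k : ℝ) ≤ 9 * (k + 1) ^ 3 := by linarith
      gcongr
    refine (abs_add_le _ _).trans ?_
    linarith

variable {D : ℕ} {L L' R : ℝ}

/-- enlarging the constant -/
noncomputable def Adm.mono {h : ℝ → ℝ → ℝ} (A : Adm D L R h) (hL : L ≤ L') : Adm D L' R h where
  G0 := A.G0
  G1 := A.G1
  G2 := A.G2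
  deg0 := A.deg0
  deg1 := A.deg1
  deg2 := A.deg2
  ev := A.ev
  d1 a s a' s' t h1 h2 h3 h4 h5 := (A.d1 a s a' s' t h1 h2 h3 h4 h5).trans
    (mul_le_mul_of_nonneg_right hL (abs_nonneg _))
  d2 a s a' s' t h1 h2 h3 h4 h5 := (A.d2 a s a' s' t h1 h2 h3 h4 h5).trans
    (mul_le_mul_of_nonneg_right hL (abs_nonneg _))
  b1 a s t h1 h2 h3 := (A.b1 a s t h1 h2 h3).trans hL
  lip t t' x x' h1 h2 h3 h4 := (A.lip t t' x x' h1 h2 h3 h4).trans
    (mul_le_mul_of_nonneg_right hL (by positivity))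

/-- adding a constant -/
noncomputable def Adm.addConst {h : ℝ → ℝ → ℝ} (A : Adm D L R h) (c : ℝ) :
    Adm D L R (fun t x => h t x + c) where
  G0 a s := A.G0 a s + C c
  G1 := A.G1
  G2 := A.G2
  deg0 a s := (natDegree_add_le _ _).trans (max_le (A.deg0 a s) (by simp))
  deg1 := A.deg1
  deg2 := A.deg2
  ev a s t := by rw [eval_add, eval_C, A.ev]
  d1 a s a' s' t h1 h2 h3 h4 h5 := by
    simp only [derivative_add, derivative_C, add_zero]
    exact A.d1 a s a' s' t h1 h2 h3 h4 h5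
  d2 a s a' s' t h1 h2 h3 h4 h5 := by
    simp only [derivative_add, derivative_C, add_zero]
    exact A.d2 a s a' s' t h1 h2 h3 h4 h5
  b1 := A.b1
  lip t t' x x' h1 h2 h3 h4 := by
    rw [add_sub_add_right_eq_sub]
    exact A.lip t t' x x' h1 h2 h3 h4

/-- finite linear combinations -/
noncomputable def Adm.sum {ι : Type*} (s : Finset ι) (c : ι → ℝ) (h : ι → ℝ → ℝ → ℝ)
    (A : ∀ ν, Adm D L R (h ν)) :
    Adm D ((∑ ν ∈ s, |c ν|) * L) R (fun t x => ∑ ν ∈ s, c ν * h ν t x) where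
  G0 a σ := ∑ ν ∈ s, C (c ν) * (A ν).G0 a σ
  G1 a σ := ∑ ν ∈ s, C (c ν) * (A ν).G1 a σ
  G2 a σ := ∑ ν ∈ s, C (c ν) * (A ν).G2 a σ
  deg0 a σ := natDegree_sum_le_of_forall_le _ _ fun ν _ =>
    (natDegree_C_mul_le _ _).trans ((A ν).deg0 a σ)
  deg1 a σ := natDegree_sum_le_of_forall_le _ _ fun ν _ =>
    (natDegree_C_mul_le _ _).trans ((A ν).deg1 a σ)
  deg2 a σ := natDegree_sum_le_of_forall_le _ _ fun ν _ =>
    (natDegree_C_mul_le _ _).trans ((A ν).deg2 a σ)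
  ev a σ t := by
    rw [eval_finsetSum]
    apply Finset.sum_congr rfl
    intro ν _
    rw [eval_mul, eval_C, (A ν).ev]
  d1 a σ a' σ' t h1 h2 h3 h4 h5 := by
    simp only [derivative_sum, derivative_mul, derivative_C, zero_mul, zero_add, eval_finsetSum,
      eval_mul, eval_C]
    rw [Finset.mul_sum, ← Finset.sum_add_distrib, ← Finset.sum_sub_distrib]
    refine (Finset.abs_sum_le_sum_abs _ _).trans ?_
    rw [Finset.sum_mul, Finset.sum_mul]
    apply Finset.sum_le_sum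
    intro ν _
    have e : c ν * ((derivative ((A ν).G0 a' σ')).eval t) -
        (c ν * (derivative ((A ν).G0 a σ)).eval t + (σ' - σ) * (c ν * ((A ν).G1 a σ).eval t)) =
        c ν * ((derivative ((A ν).G0 a' σ')).eval t -
        ((derivative ((A ν).G0 a σ)).eval t + (σ' - σ) * ((A ν).G1 a σ).eval t)) := by ring
    rw [e, abs_mul, mul_assoc]
    exact mul_le_mul_of_nonneg_left ((A ν).d1 a σ a' σ' t h1 h2 h3 h4 h5) (abs_nonneg _)
  d2 a σ a' σ' t h1 h2 h3 h4 h5 := by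
    simp only [derivative_sum, derivative_mul, derivative_C, zero_mul, zero_add, eval_finsetSum,
      eval_mul, eval_C]
    rw [Finset.mul_sum, Finset.mul_sum, ← Finset.sum_add_distrib, ← Finset.sum_add_distrib,
      ← Finset.sum_sub_distrib]
    refine (Finset.abs_sum_le_sum_abs _ _).trans ?_
    rw [Finset.sum_mul, Finset.sum_mul]
    apply Finset.sum_le_sum
    intro ν _
    have e : c ν * ((derivative (derivative ((A ν).G0 a' σ'))).eval t) -
        (c ν * (derivative (derivative ((A ν).G0 a σ))).eval t +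
        2 * (σ' - σ) * (c ν * (derivative ((A ν).G1 a σ)).eval t) +
        (σ' - σ) ^ 2 * (c ν * ((A ν).G2 a σ).eval t)) =
        c ν * ((derivative (derivative ((A ν).G0 a' σ'))).eval t -
        ((derivative (derivative ((A ν).G0 a σ))).eval t +
        2 * (σ' - σ) * (derivative ((A ν).G1 a σ)).eval t +
        (σ' - σ) ^ 2 * ((A ν).G2 a σ).eval t)) := by ring
    rw [e, abs_mul, mul_assoc |c ν| L]
    exact mul_le_mul_of_nonneg_left ((A ν).d2 a σ a' σ' t h1 h2 h3 h4 h5) (abs_nonneg _)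
  b1 a σ t h1 h2 h3 := by
    simp only [derivative_sum, derivative_mul, derivative_C, zero_mul, zero_add, eval_finsetSum,
      eval_mul, eval_C]
    refine (Finset.abs_sum_le_sum_abs _ _).trans ?_
    rw [Finset.sum_mul]
    apply Finset.sum_le_sum
    intro ν _
    rw [abs_mul]
    exact mul_le_mul_of_nonneg_left ((A ν).b1 a σ t h1 h2 h3) (abs_nonneg _)
  lip t t' x x' h1 h2 h3 h4 := by
    rw [← Finset.sum_sub_distrib]
    refine (Finset.abs_sum_le_sum_abs _ _).trans ?_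
    rw [Finset.sum_mul, Finset.sum_mul]
    apply Finset.sum_le_sum
    intro ν _
    rw [← mul_sub, abs_mul, mul_assoc]
    exact mul_le_mul_of_nonneg_left ((A ν).lip t t' x x' h1 h2 h3 h4) (abs_nonneg _)

end Pool.Agent.H28.SM
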