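import Pool.Agent.H28.SM.Split
import Pool.Agent.H28.SM.Count
import Pool.Agent.H28.SM.KSum

set_option autoImplicit false

/-!
# Kakeya near surfaces: counting the directions that meet one line, summed over the slopes
-/

open Set MeasureTheory Polynomial

namespace Pool.Agent.H28.SM

/-- lattice points near the curve `t ↦ v(t) + k δ w(t)`, `t` in the set where the second order
expression is small -/
theorem one_slope {m D : ℕ} (v w γ : Fin m → ℝ[X])
    (hv : ∀ r, (v r).natDegree ≤ D) (hw : ∀ r, (w r).natDegree ≤ D)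
    (hγ : ∀ r, (γ r).natDegree ≤ D) {δ ρ C1 B0 p q : ℝ} (hδ : 0 < δ) (hρ : 0 < ρ) (hC1 : 0 ≤ C1)
    (hB0 : 0 ≤ B0) (hpq : p ≤ q)
    (hα : ∀ r, ∀ t ∈ Icc p q, |(derivative (v r)).eval t| ≤ B0)
    (k : ℤ) (J : Finset (Fin m → ℤ))
    (hJ : ∀ κ ∈ J, ∃ τ ∈ Icc p q,
      (∀ r, |(κ r : ℝ) * δ - ((v r).eval τ + (k : ℝ) * δ * (w r).eval τ)| ≤ C1 * ρ) ∧
      ∀ r, |(derivative (v r)).eval τ + 2 * ((k : ℝ) * δ) * (derivative (w r)).eval τ +
        ((k : ℝ) * δ) ^ 2 * (γ r).eval τ| ≤ B0) :
    (J.card : ℝ) ≤ ((2 * D * m + 1 : ℕ) : ℝ) * (1 + 1 / ρ * ((q - p) * (m * B0) +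
      |(k : ℝ)| * δ * ∫ t in Icc p q, ({t | ∀ r, |(derivative (v r)).eval t +
        2 * ((k : ℝ) * δ) * (derivative (w r)).eval t +
        ((k : ℝ) * δ) ^ 2 * (γ r).eval t| ≤ B0}.indicator
        (fun t => ∑ r, |(derivative (w r)).eval t|) t))) * (2 * ((C1 + 1) * ρ / δ) + 1) ^ m := by
  classical
  set Q : Fin m → ℝ[X] := fun r => derivative (v r) + C (2 * ((k : ℝ) * δ)) * derivative (w r) +
    C (((k : ℝ) * δ) ^ 2) * γ r with hQ
  have hQev : ∀ r t, (Q r).eval t = (derivative (v r)).eval t +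
      2 * ((k : ℝ) * δ) * (derivative (w r)).eval t + ((k : ℝ) * δ) ^ 2 * (γ r).eval t := by
    intro r t
    simp [hQ]
  have hQd : ∀ r, (Q r).natDegree ≤ D := by
    intro r
    refine (natDegree_add_le _ _).trans (max_le ?_ ?_)
    · refine (natDegree_add_le _ _).trans (max_le ?_ ?_)
      · exact (natDegree_derivative_le _).trans ((Nat.sub_le _ _).trans (hv r))
      · exact (natDegree_C_mul_le _ _).trans
          ((natDegree_derivative_le _).trans ((Nat.sub_le _ _).trans (hw r)))
    · exact (natDegree_C_mul_le _ _).trans (hγ r)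
  obtain ⟨P, P', hP1, hP2⟩ := split_poly Q hQd B0 p q
  rw [Fintype.card_fin] at hP2
  set X : Set ℝ := {t | ∀ r, |(derivative (v r)).eval t +
        2 * ((k : ℝ) * δ) * (derivative (w r)).eval t +
        ((k : ℝ) * δ) ^ 2 * (γ r).eval t| ≤ B0} with hX
  have hXc : IsClosed X := by
    have : X = ⋂ r, {t | |(Q r).eval t| ≤ B0} := by
      ext t; simp [hX, hQev]
    rw [this]
    exact isClosed_iInter fun r => isClosed_le (Q r).continuous.abs continuous_const
  set β : ℝ → ℝ := fun t => ∑ r, |(derivative (w r)).eval t| with hβ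
  have hβc : Continuous β := continuous_finsetSum _ fun r _ => (derivative (w r)).continuous.abs
  have hβ0 : ∀ t, 0 ≤ β t := fun t => Finset.sum_nonneg fun r _ => abs_nonneg _
  have hcount := count_curve (m := m) (N := 2 * D * m + 1)
    (fun t r => (v r).eval t + (k : ℝ) * δ * (w r).eval t)
    (fun t r => (derivative (v r)).eval t + (k : ℝ) * δ * (derivative (w r)).eval t)
    (fun t r => ((v r).hasDerivAt t).add (((w r).hasDerivAt t).const_mul _))
    (fun r => by
      have h1 := (derivative (v r)).continuous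
      have h2 := (derivative (w r)).continuous
      fun_prop) P P' hρ hδ hC1 J (by
      intro κ hκ
      obtain ⟨τ, h1, h2, h3⟩ := hJ κ hκ
      obtain ⟨b, hb, hb2⟩ := hP2 τ h1 (fun r => by rw [hQev]; exact h3 r)
      exact ⟨b, hb, τ, hb2, h2⟩)
  refine hcount.trans ?_
  gcongr
  have hint : ∀ b : ℕ, ∫ t in Icc (P b) (P' b), ∑ r, |(derivative (v r)).eval t +
      (k : ℝ) * δ * (derivative (w r)).eval t| ≤ (q - p) * (m * B0) +
      |(k : ℝ)| * δ * ∫ t in Icc p q, X.indicator β t := by
    intro b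
    have hsub : Icc (P b) (P' b) ⊆ Icc p q ∩ X := fun t ht =>
      ⟨(hP1 b t ht).1, fun r => by rw [← hQev]; exact (hP1 b t ht).2 r⟩
    have hind : IntegrableOn (X.indicator β) (Icc p q) :=
      (hβc.continuousOn.integrableOn_Icc).indicator hXc.measurableSet
    have hg : IntegrableOn (fun t => (m : ℝ) * B0 + |(k : ℝ)| * δ * X.indicator β t) (Icc p q) :=
      (integrable_const _).add (hind.const_mul _)
    have hcont : Continuous (fun t => ∑ r, |(derivative (v r)).eval t +
        (k : ℝ) * δ * (derivative (w r)).eval t|) :=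
      continuous_finsetSum _ fun r _ => ((derivative (v r)).continuous.add
        ((derivative (w r)).continuous.const_mul _)).abs
    calc ∫ t in Icc (P b) (P' b), ∑ r, |(derivative (v r)).eval t +
          (k : ℝ) * δ * (derivative (w r)).eval t|
        ≤ ∫ t in Icc (P b) (P' b), ((m : ℝ) * B0 + |(k : ℝ)| * δ * X.indicator β t) := by
          apply setIntegral_mono_on hcont.continuousOn.integrableOn_Icc
            (hg.mono_set (hsub.trans inter_subset_left)) measurableSet_Icc
          intro t ht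
          have h1 := hsub ht
          rw [indicator_of_mem h1.2, hβ]
          simp only
          rw [Finset.mul_sum]
          have h2 : (m : ℝ) * B0 = ∑ _r : Fin m, B0 := by simp
          rw [h2, ← Finset.sum_add_distrib]
          apply Finset.sum_le_sum
          intro r _
          refine (abs_add_le _ _).trans (add_le_add (hα r t h1.1) ?_)
          rw [abs_mul, abs_mul, abs_of_pos hδ]
      _ ≤ ∫ t in Icc p q, ((m : ℝ) * B0 + |(k : ℝ)| * δ * X.indicator β t) := by
          apply setIntegral_mono_set hg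
          · refine Filter.Eventually.of_forall fun t => ?_
            have : 0 ≤ X.indicator β t := indicator_nonneg (fun t _ => hβ0 t) t
            show (0 : ℝ) ≤ (m : ℝ) * B0 + |(k : ℝ)| * δ * X.indicator β t
            positivity
          · exact (hsub.trans inter_subset_left).eventuallyLE
      _ = (q - p) * (m * B0) + |(k : ℝ)| * δ * ∫ t in Icc p q, X.indicator β t := by
          rw [integral_add (integrable_const _) (hind.const_mul _)]
          congr 1
          · rw [setIntegral_const, Real.volume_real_Icc_of_le hpq, smul_eq_mul]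
          · exact integral_const_mul _ _
  calc ∑ b ∈ Finset.range (2 * D * m + 1), (1 + 1 / ρ * ∫ t in Icc (P b) (P' b), ∑ r,
        |(derivative (v r)).eval t + (k : ℝ) * δ * (derivative (w r)).eval t|)
      ≤ ∑ _b ∈ Finset.range (2 * D * m + 1), (1 + 1 / ρ * ((q - p) * (m * B0) +
      |(k : ℝ)| * δ * ∫ t in Icc p q, X.indicator β t)) := by
        apply Finset.sum_le_sum
        intro b _
        have := hint b
        gcongr
    _ = _ := by
        rw [Finset.sum_const, Finset.card_range, nsmul_eq_mul]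

/-- the count, summed over the slopes -/
theorem row_count {m D : ℕ} (v w γ : Fin m → ℝ[X])
    (hv : ∀ r, (v r).natDegree ≤ D) (hw : ∀ r, (w r).natDegree ≤ D)
    (hγ : ∀ r, (γ r).natDegree ≤ D) {δ ℓ C1 L p q : ℝ} (hδ : 0 < δ) (hℓ : 0 < ℓ) (hℓ1 : ℓ ≤ 1)
    (hC1 : 0 ≤ C1) (hL : 0 ≤ L) (hpq : p ≤ q) (hlen : q - p ≤ 2 * ℓ)
    (hα : ∀ r, ∀ t ∈ Icc p q, |(derivative (v r)).eval t| ≤ C1 * δ / ℓ ^ 2)
    (hβ : ∀ r, ∀ t ∈ Icc p q, |(derivative (w r)).eval t| ≤ L)
    (S : Finset ℤ) (N : ℕ) (hS : ∀ k ∈ S, k ≠ 0 ∧ k.natAbs ≤ N) (J : ℤ → Finset (Fin m → ℤ))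
    (hJ : ∀ k ∈ S, ∀ κ ∈ J k, ∃ τ ∈ Icc p q,
      (∀ r, |(κ r : ℝ) * δ - ((v r).eval τ + (k : ℝ) * δ * (w r).eval τ)| ≤ C1 * (δ / ℓ)) ∧
      ∀ r, |(derivative (v r)).eval τ + 2 * ((k : ℝ) * δ) * (derivative (w r)).eval τ +
        ((k : ℝ) * δ) ^ 2 * (γ r).eval τ| ≤ C1 * δ / ℓ ^ 2) :
    ∑ k ∈ S, 1 / |(k : ℝ)| * (J k).card ≤
      ((2 * D * m + 1 : ℕ) : ℝ) * (2 * (1 + Real.log N) * (1 + 2 * m * C1) +
        2 * m * (8 * C1 + L)) * (2 * (C1 + 1) / ℓ + 1) ^ m := by
  classical
  set B0 : ℝ := C1 * δ / ℓ ^ 2 with hB0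
  have hB00 : 0 ≤ B0 := by positivity
  set X : ℤ → Set ℝ := fun k => {t | ∀ r, |(derivative (v r)).eval t +
        2 * ((k : ℝ) * δ) * (derivative (w r)).eval t +
        ((k : ℝ) * δ) ^ 2 * (γ r).eval t| ≤ B0} with hX
  have hXc : ∀ k, IsClosed (X k) := by
    intro k
    have : X k = ⋂ r, {t | |(derivative (v r)).eval t +
        2 * ((k : ℝ) * δ) * (derivative (w r)).eval t +
        ((k : ℝ) * δ) ^ 2 * (γ r).eval t| ≤ B0} := by
      ext t; simp [hX]
    rw [this]
    refine isClosed_iInter fun r => isClosed_le ?_ continuous_const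
    have h1 := (derivative (v r)).continuous
    have h2 := (derivative (w r)).continuous
    have h3 := (γ r).continuous
    fun_prop
  set b : Fin m → ℝ → ℝ := fun r t => |(derivative (w r)).eval t| with hb
  have hbc : ∀ r, Continuous (b r) := fun r => (derivative (w r)).continuous.abs
  set M : ℝ := (2 * (C1 + 1) / ℓ + 1) ^ m with hM
  have hM0 : 0 ≤ M := by positivity
  set N0 : ℝ := ((2 * D * m + 1 : ℕ) : ℝ) with hN0
  have hN00 : 0 ≤ N0 := by positivity
  set I : ℤ → ℝ := fun k => ∫ t in Icc p q, (X k).indicator (fun t => ∑ r, b r t) t with hI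
  have hMe : (2 * ((C1 + 1) * (δ / ℓ) / δ) + 1) ^ m = M := by
    rw [hM]
    congr 2
    field_simp
  have h1 : ∀ k ∈ S, 1 / |(k : ℝ)| * (J k).card ≤
      N0 * ((1 + 2 * m * C1) * (1 / |(k : ℝ)|) + ℓ * I k) * M := by
    intro k hk
    have hk0 : (0 : ℝ) < |(k : ℝ)| := abs_pos.2 (by exact_mod_cast (hS k hk).1)
    have hc := one_slope v w γ hv hw hγ hδ (ρ := δ / ℓ) (by positivity) hC1 hB00 hpq hα k (J k)
      (hJ k hk)
    rw [hMe] at hc
    calc 1 / |(k : ℝ)| * (J k).card ≤ 1 / |(k : ℝ)| * (N0 * (1 + 1 / (δ / ℓ) *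
          ((q - p) * (m * B0) + |(k : ℝ)| * δ * I k)) * M) := by gcongr
      _ = N0 * ((1 + 1 / (δ / ℓ) * ((q - p) * (m * B0))) * (1 / |(k : ℝ)|) + ℓ * I k) * M := by
          field_simp
          ring
      _ ≤ N0 * ((1 + 2 * m * C1) * (1 / |(k : ℝ)|) + ℓ * I k) * M := by
          have h2 : 1 / (δ / ℓ) * ((q - p) * (m * B0)) ≤ 2 * m * C1 := by
            calc 1 / (δ / ℓ) * ((q - p) * (m * B0)) ≤ 1 / (δ / ℓ) * ((2 * ℓ) * (m * B0)) := by
                  gcongr
              _ = 2 * m * C1 := by rw [hB0]; field_simp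
          gcongr
  have hbint : ∀ k r, IntegrableOn ((X k).indicator (b r)) (Icc p q) := fun k r =>
    ((hbc r).continuousOn.integrableOn_Icc).indicator (hXc k).measurableSet
  have h3 : ∑ k ∈ S, I k ≤ 2 * ℓ * (m * (8 * C1 / ℓ ^ 2 + L)) := by
    have e1 : ∀ k, I k = ∑ r, ∫ t in Icc p q, (X k).indicator (b r) t := by
      intro k
      rw [hI]
      simp only
      rw [← integral_finsetSum _ (fun r _ => hbint k r)]
      congr 1
      ext t
      by_cases ht : t ∈ X k
      · simp only [indicator_of_mem ht]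
      · simp only [indicator_of_notMem ht, Finset.sum_const_zero]
    simp_rw [e1]
    rw [Finset.sum_comm]
    have h4 : ∀ r : Fin m, ∑ k ∈ S, ∫ t in Icc p q, (X k).indicator (b r) t ≤
        2 * ℓ * (8 * C1 / ℓ ^ 2 + L) := by
      intro r
      rw [← integral_finsetSum _ (fun k _ => hbint k r)]
      calc ∫ t in Icc p q, ∑ k ∈ S, (X k).indicator (b r) t
          ≤ ∫ _t in Icc p q, (8 * C1 / ℓ ^ 2 + L) := by
            apply setIntegral_mono_on (integrable_finsetSum _ fun k _ => hbint k r)
              (integrable_const _) measurableSet_Icc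
            intro t ht
            have e2 : ∑ k ∈ S, (X k).indicator (b r) t =
                ((S.filter fun k => t ∈ X k).card : ℝ) * |(derivative (w r)).eval t| := by
              rw [← nsmul_eq_mul, ← Finset.sum_const, Finset.sum_filter]
              apply Finset.sum_congr rfl
              intro k _
              by_cases hk : t ∈ X k
              · rw [indicator_of_mem hk, if_pos hk]
              · rw [indicator_of_notMem hk, if_neg hk]
            rw [e2]
            have h5 := pointwise_sum (S.filter fun k => t ∈ X k) ((derivative (w r)).eval t)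
              (δ * (γ r).eval t) (2 * C1 / ℓ ^ 2) (by positivity) (by
                intro k hk
                rw [Finset.mem_filter] at hk
                refine ⟨(hS k hk.1).1, ?_⟩
                have h6 : |(derivative (v r)).eval t +
                  2 * ((k : ℝ) * δ) * (derivative (w r)).eval t +
                  ((k : ℝ) * δ) ^ 2 * (γ r).eval t| ≤ B0 := hk.2 r
                have h7 := hα r t ht
                have h8 : |(k : ℝ)| * |2 * (derivative (w r)).eval t +
                    k * (δ * (γ r).eval t)| * δ ≤ 2 * B0 := by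
                  have e3 : |(k : ℝ)| * |2 * (derivative (w r)).eval t +
                      k * (δ * (γ r).eval t)| * δ =
                      |((derivative (v r)).eval t +
                        2 * ((k : ℝ) * δ) * (derivative (w r)).eval t +
                        ((k : ℝ) * δ) ^ 2 * (γ r).eval t) - (derivative (v r)).eval t| := by
                    rw [← abs_mul]
                    nth_rewrite 2 [← abs_of_pos hδ]
                    rw [← abs_mul]
                    congr 1
                    ring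
                  rw [e3]
                  refine (abs_sub _ _).trans ?_
                  linarith
                have h9 : 2 * C1 / ℓ ^ 2 = 2 * B0 / δ := by
                  rw [hB0]; field_simp
                rw [h9, le_div_iff₀ hδ]
                exact h8)
            refine h5.trans ?_
            have h10 := hβ r t ht
            have h11 : 4 * (2 * C1 / ℓ ^ 2) = 8 * C1 / ℓ ^ 2 := by ring
            linarith
        _ = (q - p) * (8 * C1 / ℓ ^ 2 + L) := by
            rw [setIntegral_const, Real.volume_real_Icc_of_le hpq, smul_eq_mul]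
        _ ≤ 2 * ℓ * (8 * C1 / ℓ ^ 2 + L) := by gcongr
    calc ∑ r : Fin m, ∑ k ∈ S, ∫ t in Icc p q, (X k).indicator (b r) t
        ≤ ∑ _r : Fin m, 2 * ℓ * (8 * C1 / ℓ ^ 2 + L) := Finset.sum_le_sum fun r _ => h4 r
      _ = 2 * ℓ * (m * (8 * C1 / ℓ ^ 2 + L)) := by simp; ring
  have h12 := harmonic_sum S N hS
  calc ∑ k ∈ S, 1 / |(k : ℝ)| * (J k).card
      ≤ ∑ k ∈ S, N0 * ((1 + 2 * m * C1) * (1 / |(k : ℝ)|) + ℓ * I k) * M :=
        Finset.sum_le_sum h1
    _ = N0 * ((1 + 2 * m * C1) * ∑ k ∈ S, 1 / |(k : ℝ)| + ℓ * ∑ k ∈ S, I k) * M := by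
        rw [← Finset.sum_mul, ← Finset.mul_sum, Finset.sum_add_distrib, Finset.mul_sum,
          Finset.mul_sum]
    _ ≤ N0 * ((1 + 2 * m * C1) * (2 * (1 + Real.log N)) +
        ℓ * (2 * ℓ * (m * (8 * C1 / ℓ ^ 2 + L)))) * M := by gcongr
    _ ≤ N0 * (2 * (1 + Real.log N) * (1 + 2 * m * C1) + 2 * m * (8 * C1 + L)) * M := by
        have h13 : ℓ * (2 * ℓ * (m * (8 * C1 / ℓ ^ 2 + L))) ≤ 2 * m * (8 * C1 + L) := by
          have e4 : ℓ * (2 * ℓ * (m * (8 * C1 / ℓ ^ 2 + L))) = 2 * m * (8 * C1 + L * ℓ ^ 2) := by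
            field_simp
          rw [e4]
          have : L * ℓ ^ 2 ≤ L * 1 := by
            gcongr
            exact pow_le_one₀ hℓ.le hℓ1
          have hm : (0 : ℝ) ≤ m := Nat.cast_nonneg _
          nlinarith
        gcongr N0 * ?_ * M
        linarith

end Pool.Agent.H28.SM
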