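import Pool.Agent.H28.SM.Markov
import Pool.Agent.H28.SM.Row

set_option autoImplicit false

/-!
# Kakeya near surfaces: pieces of tubes near the surface
-/

open Set MeasureTheory Polynomial

namespace Pool.Agent.H28.SM

/-- A function `h` of two variables whose restrictions to the lines `x = a + s t`, and those of
`∂h/∂x` and `∂²h/∂x²`, are polynomials `G0 a s`, `G1 a s`, `G2 a s` of degree at most `D`. -/
structure Adm (D : ℕ) (L R : ℝ) (h : ℝ → ℝ → ℝ) where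
  /-- restriction of `h` -/
  G0 : ℝ → ℝ → ℝ[X]
  /-- restriction of the first derivative -/
  G1 : ℝ → ℝ → ℝ[X]
  /-- restriction of the second derivative -/
  G2 : ℝ → ℝ → ℝ[X]
  deg0 : ∀ a s, (G0 a s).natDegree ≤ D
  deg1 : ∀ a s, (G1 a s).natDegree ≤ D
  deg2 : ∀ a s, (G2 a s).natDegree ≤ D
  ev : ∀ a s t, (G0 a s).eval t = h t (a + s * t)
  d1 : ∀ a s a' s' t, |t| ≤ 1 → |s| ≤ 2 → |s'| ≤ 2 → |a + s * t| ≤ R → |a' + s' * t| ≤ R →
    |(derivative (G0 a' s')).eval t -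
      ((derivative (G0 a s)).eval t + (s' - s) * (G1 a s).eval t)| ≤
      L * |(a' + s' * t) - (a + s * t)|
  d2 : ∀ a s a' s' t, |t| ≤ 1 → |s| ≤ 2 → |s'| ≤ 2 → |a + s * t| ≤ R → |a' + s' * t| ≤ R →
    |(derivative (derivative (G0 a' s'))).eval t -
      ((derivative (derivative (G0 a s))).eval t + 2 * (s' - s) * (derivative (G1 a s)).eval t +
        (s' - s) ^ 2 * (G2 a s).eval t)| ≤
      L * |(a' + s' * t) - (a + s * t)|
  b1 : ∀ a s t, |t| ≤ 1 → |s| ≤ 2 → |a + s * t| ≤ R → |(derivative (G1 a s)).eval t| ≤ L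
  lip : ∀ t t' x x', |t| ≤ 1 → |t'| ≤ 1 → |x| ≤ R → |x'| ≤ R →
    |h t x - h t' x'| ≤ L * (|t - t'| + |x - x'|)

/-- a piece of a tube -/
structure Piece (m : ℕ) where
  /-- slope -/
  k : ℤ
  /-- remaining slopes -/
  c : Fin m → ℤ
  /-- position -/
  a : ℝ
  /-- remaining positions -/
  b : Fin m → ℝ
  /-- left end -/
  p : ℝ
  /-- right end -/
  q : ℝ

/-- the set of points of a piece -/
def Piece.body {m : ℕ} (P : Piece m) (δ W : ℝ) : Set (ℝ × ℝ × (Fin m → ℝ)) :=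
  {z | z.1 ∈ Icc P.p P.q ∧ |z.2.1 - (P.a + P.k * δ * z.1)| ≤ W * δ ∧
    ∀ r, |z.2.2 r - (P.b r + P.c r * δ * z.1)| ≤ W * δ}

/-- the piece stays close to the graph of `h`, and its length is about `ℓ` -/
structure Piece.Good {m : ℕ} (P : Piece m) (h : Fin m → ℝ → ℝ → ℝ) (δ ℓ K R : ℝ) : Prop where
  hp : -1 ≤ P.p
  hq : P.q ≤ 1
  hlo : ℓ ≤ P.q - P.p
  hhi : P.q - P.p ≤ 2 * ℓ
  hs : |(P.k : ℝ) * δ| ≤ 2
  hR : ∀ t, |t| ≤ 1 → |P.a + P.k * δ * t| ≤ R
  hh : ∀ r, ∀ t ∈ Icc P.p P.q, |h r t (P.a + P.k * δ * t) - P.b r - P.c r * δ * t| ≤ K * δ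

/-- the times at which two pieces are close -/
def Piece.E {m : ℕ} (P Q : Piece m) (δ W : ℝ) : Set ℝ :=
  {t | t ∈ Icc P.p P.q ∧ t ∈ Icc Q.p Q.q ∧
    |(Q.a + Q.k * δ * t) - (P.a + P.k * δ * t)| ≤ 2 * W * δ}

/-- the constant of the next lemmas -/
noncomputable def c1 (D : ℕ) (K L W : ℝ) : ℝ := 16 * mkv (D + 1) ^ 2 * K + 2 * L * W

theorem c1_nonneg {D : ℕ} {K L W : ℝ} (hK : 0 < K) (hL : 0 ≤ L) (hW : 0 ≤ W) : 0 ≤ c1 D K L W := by
  unfold c1; positivity

variable {m D : ℕ} {L R K W δ ℓ : ℝ} {h : Fin m → ℝ → ℝ → ℝ}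

theorem Piece.Good.abs_le_one {P : Piece m} (hP : P.Good h δ ℓ K R) {t : ℝ}
    (ht : t ∈ Icc P.p P.q) : |t| ≤ 1 :=
  abs_le.2 ⟨hP.hp.trans ht.1, ht.2.trans hP.hq⟩

theorem Piece.Good.markov1 (A : ∀ r, Adm D L R (h r)) {P : Piece m} (hP : P.Good h δ ℓ K R)
    (hδ : 0 < δ) (hℓ : 0 < ℓ) (hK : 0 < K) (r : Fin m) {t : ℝ} (ht : t ∈ Icc P.p P.q) :
    |(derivative ((A r).G0 P.a (P.k * δ))).eval t - P.c r * δ| ≤ 4 * mkv (D + 1) * K * (δ / ℓ) ∧
    |(derivative (derivative ((A r).G0 P.a (P.k * δ)))).eval t| ≤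
      16 * mkv (D + 1) ^ 2 * K * (δ / ℓ ^ 2) := by
  have hm := one_le_mkv (D + 1)
  have hlo := hP.hlo
  have hpq : P.p < P.q := by linarith
  set p0 : ℝ[X] := (A r).G0 P.a (P.k * δ) - (C (P.b r) + C (P.c r * δ) * X) with hp0
  have hdeg : p0.natDegree ≤ D + 1 := by
    refine (natDegree_sub_le _ _).trans (max_le (((A r).deg0 _ _).trans (by omega)) ?_)
    refine (natDegree_add_le _ _).trans (max_le (by simp) ?_)
    exact ((natDegree_C_mul_le _ _).trans natDegree_X_le).trans (by omega)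
  have hbd : ∀ t ∈ Icc P.p P.q, |p0.eval t| ≤ K * δ := by
    intro t ht
    have e : p0.eval t = h r t (P.a + P.k * δ * t) - P.b r - P.c r * δ * t := by
      rw [hp0]
      simp only [eval_sub, eval_add, eval_C, eval_mul, eval_X, (A r).ev]
      ring
    rw [e]
    exact hP.hh r t ht
  have hd : derivative p0 = derivative ((A r).G0 P.a (P.k * δ)) - C (P.c r * δ) := by
    rw [hp0]; simp
  have hdd : derivative (derivative p0) = derivative (derivative ((A r).G0 P.a (P.k * δ))) := by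
    rw [hd]; simp
  constructor
  · have h1 := markov hdeg hpq (by positivity : 0 < K * δ) hbd ht
    rw [hd, eval_sub, eval_C] at h1
    refine h1.trans ?_
    calc 4 * mkv (D + 1) * (K * δ) / (P.q - P.p) ≤ 4 * mkv (D + 1) * (K * δ) / ℓ := by gcongr
      _ = _ := by ring
  · have h1 := markov2 hdeg hpq (by positivity : 0 < K * δ) hbd ht
    rw [hdd] at h1
    refine h1.trans ?_
    calc 16 * mkv (D + 1) ^ 2 * (K * δ) / (P.q - P.p) ^ 2
        ≤ 16 * mkv (D + 1) ^ 2 * (K * δ) / ℓ ^ 2 := by gcongr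
      _ = _ := by ring

theorem meet_info (A : ∀ r, Adm D L R (h r)) {P Q : Piece m} (hP : P.Good h δ ℓ K R)
    (hQ : Q.Good h δ ℓ K R) (hδ : 0 < δ) (hℓ : 0 < ℓ) (hℓ1 : ℓ ≤ 1) (hK : 0 < K) (hL : 0 ≤ L)
    (hW : 0 ≤ W) {t : ℝ} (ht : t ∈ P.E Q δ W) (r : Fin m) :
    |(Q.c r : ℝ) * δ - ((derivative ((A r).G0 P.a (P.k * δ))).eval t +
      ((Q.k - P.k : ℤ) : ℝ) * δ * ((A r).G1 P.a (P.k * δ)).eval t)| ≤ c1 D K L W * (δ / ℓ) ∧
    |(derivative (derivative ((A r).G0 P.a (P.k * δ)))).eval t +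
      2 * (((Q.k - P.k : ℤ) : ℝ) * δ) * (derivative ((A r).G1 P.a (P.k * δ))).eval t +
      (((Q.k - P.k : ℤ) : ℝ) * δ) ^ 2 * ((A r).G2 P.a (P.k * δ)).eval t| ≤
        c1 D K L W * δ / ℓ ^ 2 := by
  have hm := one_le_mkv (D + 1)
  obtain ⟨ht1, ht2, ht3⟩ := ht
  have htt := hP.abs_le_one ht1
  obtain ⟨m1, m2⟩ := hQ.markov1 A hδ hℓ hK r ht2
  have e0 : ((Q.k - P.k : ℤ) : ℝ) * δ = Q.k * δ - P.k * δ := by push_cast; ring
  have d1 := (A r).d1 P.a (P.k * δ) Q.a (Q.k * δ) t htt hP.hs hQ.hs (hP.hR t htt) (hQ.hR t htt)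
  have d2 := (A r).d2 P.a (P.k * δ) Q.a (Q.k * δ) t htt hP.hs hQ.hs (hP.hR t htt) (hQ.hR t htt)
  have hLW : L * |(Q.a + Q.k * δ * t) - (P.a + P.k * δ * t)| ≤ L * (2 * W * δ) := by gcongr
  rw [e0]
  have hdl : δ ≤ δ / ℓ := by
    rw [le_div_iff₀ hℓ]; nlinarith
  have hdl2 : δ ≤ δ / ℓ ^ 2 := by
    rw [le_div_iff₀ (by positivity)]
    have : ℓ ^ 2 ≤ 1 := pow_le_one₀ hℓ.le hℓ1
    nlinarith
  constructor
  · have h1 : (Q.c r : ℝ) * δ - ((derivative ((A r).G0 P.a (P.k * δ))).eval t +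
      (Q.k * δ - P.k * δ) * ((A r).G1 P.a (P.k * δ)).eval t) =
      ((derivative ((A r).G0 Q.a (Q.k * δ))).eval t - ((derivative ((A r).G0 P.a (P.k * δ))).eval t +
      (Q.k * δ - P.k * δ) * ((A r).G1 P.a (P.k * δ)).eval t)) -
      ((derivative ((A r).G0 Q.a (Q.k * δ))).eval t - Q.c r * δ) := by ring
    rw [h1]
    refine (abs_sub _ _).trans ?_
    have h2 : 4 * mkv (D + 1) * K ≤ 16 * mkv (D + 1) ^ 2 * K := by
      have : mkv (D + 1) ≤ mkv (D + 1) ^ 2 := by nlinarith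
      nlinarith
    calc |(derivative ((A r).G0 Q.a (Q.k * δ))).eval t -
          ((derivative ((A r).G0 P.a (P.k * δ))).eval t +
          (Q.k * δ - P.k * δ) * ((A r).G1 P.a (P.k * δ)).eval t)| +
        |(derivative ((A r).G0 Q.a (Q.k * δ))).eval t - Q.c r * δ|
        ≤ L * (2 * W * δ) + 4 * mkv (D + 1) * K * (δ / ℓ) := add_le_add (d1.trans hLW) m1
      _ ≤ L * (2 * W * (δ / ℓ)) + 16 * mkv (D + 1) ^ 2 * K * (δ / ℓ) := by gcongr
      _ = c1 D K L W * (δ / ℓ) := by unfold c1; ring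
  · have h1 : (derivative (derivative ((A r).G0 P.a (P.k * δ)))).eval t +
      2 * (Q.k * δ - P.k * δ) * (derivative ((A r).G1 P.a (P.k * δ))).eval t +
      (Q.k * δ - P.k * δ) ^ 2 * ((A r).G2 P.a (P.k * δ)).eval t =
      (derivative (derivative ((A r).G0 Q.a (Q.k * δ)))).eval t -
      ((derivative (derivative ((A r).G0 Q.a (Q.k * δ)))).eval t -
      ((derivative (derivative ((A r).G0 P.a (P.k * δ)))).eval t +
      2 * (Q.k * δ - P.k * δ) * (derivative ((A r).G1 P.a (P.k * δ))).eval t +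
      (Q.k * δ - P.k * δ) ^ 2 * ((A r).G2 P.a (P.k * δ)).eval t)) := by ring
    rw [h1]
    refine (abs_sub _ _).trans ?_
    calc _ ≤ 16 * mkv (D + 1) ^ 2 * K * (δ / ℓ ^ 2) + L * (2 * W * δ) :=
          add_le_add m2 (d2.trans hLW)
      _ ≤ 16 * mkv (D + 1) ^ 2 * K * (δ / ℓ ^ 2) + L * (2 * W * (δ / ℓ ^ 2)) := by gcongr
      _ = c1 D K L W * δ / ℓ ^ 2 := by unfold c1; ring

theorem E_volume_le {P Q : Piece m} (hP : P.Good h δ ℓ K R) (hℓ : 0 < ℓ) :
    volume.real (P.E Q δ W) ≤ 2 * ℓ := by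
  have hsub : P.E Q δ W ⊆ Icc P.p P.q := fun t ht => ht.1
  have h1 : volume.real (P.E Q δ W) ≤ volume.real (Icc P.p P.q) :=
    measureReal_mono hsub (by simp)
  rw [Real.volume_real_Icc_of_le (by linarith [hP.hlo])] at h1
  exact h1.trans hP.hhi

theorem E_volume_le' {P Q : Piece m} (hδ : 0 < δ) (hW : 0 ≤ W) (hk : Q.k - P.k ≠ 0) :
    volume.real (P.E Q δ W) ≤ 4 * W * (1 / |((Q.k - P.k : ℤ) : ℝ)|) := by
  set k : ℝ := ((Q.k - P.k : ℤ) : ℝ) with hkdef
  have hk0 : 0 < |k| := abs_pos.2 (by rw [hkdef]; exact_mod_cast hk)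
  have hk1 : k ≠ 0 := abs_pos.1 hk0
  set z : ℝ := (P.a - Q.a) / (k * δ) with hz
  have hsub : P.E Q δ W ⊆ Icc (z - 2 * W / |k|) (z + 2 * W / |k|) := by
    intro t ht
    have h1 := ht.2.2
    have e : (Q.a + Q.k * δ * t) - (P.a + P.k * δ * t) = (k * δ) * (t - z) := by
      rw [hz, hkdef]
      rw [hkdef] at hk1
      push_cast at hk1 ⊢
      field_simp
      ring
    rw [e, abs_mul, abs_mul, abs_of_pos hδ] at h1
    have h2 : |t - z| ≤ 2 * W / |k| := by
      rw [le_div_iff₀ hk0]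
      have h3 : |t - z| * |k| * δ ≤ 2 * W * δ := by linarith
      exact le_of_mul_le_mul_right h3 hδ
    rw [abs_le] at h2
    exact ⟨by linarith [h2.1], by linarith [h2.2]⟩
  have h1 : volume.real (P.E Q δ W) ≤ volume.real (Icc (z - 2 * W / |k|) (z + 2 * W / |k|)) :=
    measureReal_mono hsub (by simp)
  rw [Real.volume_real_Icc_of_le (by
    have : 0 ≤ 2 * W / |k| := by positivity
    linarith)] at h1
  refine h1.trans (le_of_eq ?_)
  ring

/-- the constant of the row sum -/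
noncomputable def rowC (m D : ℕ) (K L W : ℝ) : ℝ :=
  (2 * c1 D K L W + 3) ^ m * ((2 * D * m + 1 : ℕ) : ℝ) *
    (2 * (1 + 2 * m * c1 D K L W) +
      4 * W * (6 * (1 + 2 * m * c1 D K L W) + 2 * m * (8 * c1 D K L W + L)))

theorem row_sum {ι : Type*} (A : ∀ r, Adm D L R (h r)) (hδ : 0 < δ) (hδ1 : δ ≤ 1) (hℓ : 0 < ℓ)
    (hℓ1 : ℓ ≤ 1) (hK : 0 < K) (hL : 0 ≤ L) (hW : 0 ≤ W) (s : Finset ι) (P : ι → Piece m)
    (hP : ∀ i ∈ s, (P i).Good h δ ℓ K R)
    (hinj : ∀ i ∈ s, ∀ j ∈ s, (P i).k = (P j).k → (P i).c = (P j).c → i = j) {i : ι}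
    (hi : i ∈ s) :
    ∑ j ∈ s, volume.real ((P i).E (P j) δ W) ≤
      rowC m D K L W * (1 + Real.log (1 / δ)) / ℓ ^ m := by
  classical
  set C1 := c1 D K L W with hC1def
  have hC1 : 0 ≤ C1 := c1_nonneg hK hL hW
  have hPi := hP i hi
  have hpq : (P i).p ≤ (P i).q := by linarith [hPi.hlo]
  set f : ι → ℤ := fun j => (P j).k - (P i).k with hf
  set s' : Finset ι := s.filter fun j => ((P i).E (P j) δ W).Nonempty with hs'
  set J : ℤ → Finset (Fin m → ℤ) := fun k => (s'.filter fun j => f j = k).image fun j => (P j).c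
    with hJ
  have hJcard : ∀ k, (J k).card = (s'.filter fun j => f j = k).card := by
    intro k
    apply Finset.card_image_of_injOn
    intro j hj j' hj' hjj
    rw [Finset.mem_coe, Finset.mem_filter, hs', Finset.mem_filter] at hj hj'
    refine hinj j hj.1.1 j' hj'.1.1 ?_ hjj
    have h1 := hj.2
    have h2 := hj'.2
    simp only [hf] at h1 h2
    omega
  set v : Fin m → ℝ[X] := fun r => derivative ((A r).G0 (P i).a ((P i).k * δ)) with hv
  set w : Fin m → ℝ[X] := fun r => (A r).G1 (P i).a ((P i).k * δ) with hw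
  set γ : Fin m → ℝ[X] := fun r => (A r).G2 (P i).a ((P i).k * δ) with hγ
  have hJmem : ∀ k, ∀ κ ∈ J k, ∃ τ ∈ Icc (P i).p (P i).q,
      (∀ r, |(κ r : ℝ) * δ - ((v r).eval τ + (k : ℝ) * δ * (w r).eval τ)| ≤ C1 * (δ / ℓ)) ∧
      ∀ r, |(derivative (v r)).eval τ + 2 * ((k : ℝ) * δ) * (derivative (w r)).eval τ +
        ((k : ℝ) * δ) ^ 2 * (γ r).eval τ| ≤ C1 * δ / ℓ ^ 2 := by
    intro k κ hκ
    rw [hJ, Finset.mem_image] at hκ
    obtain ⟨j, hj, rfl⟩ := hκ
    rw [Finset.mem_filter, hs', Finset.mem_filter] at hj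
    obtain ⟨⟨hjs, τ, hτ⟩, hjk⟩ := hj
    refine ⟨τ, hτ.1, fun r => ?_, fun r => ?_⟩
    · rw [← hjk]
      exact (meet_info A hPi (hP j hjs) hδ hℓ hℓ1 hK hL hW hτ r).1
    · rw [← hjk]
      exact (meet_info A hPi (hP j hjs) hδ hℓ hℓ1 hK hL hW hτ r).2
  have hvd : ∀ r, (v r).natDegree ≤ D := fun r =>
    (natDegree_derivative_le _).trans ((Nat.sub_le _ _).trans ((A r).deg0 _ _))
  have hα : ∀ r, ∀ t ∈ Icc (P i).p (P i).q, |(derivative (v r)).eval t| ≤ C1 * δ / ℓ ^ 2 := by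
    intro r t ht
    refine (hPi.markov1 A hδ hℓ hK r ht).2.trans ?_
    rw [hC1def, c1, mul_div_assoc]
    gcongr
    have : 0 ≤ 2 * L * W := by positivity
    linarith
  have hβ : ∀ r, ∀ t ∈ Icc (P i).p (P i).q, |(derivative (w r)).eval t| ≤ L := by
    intro r t ht
    exact (A r).b1 _ _ t (hPi.abs_le_one ht) hPi.hs (hPi.hR t (hPi.abs_le_one ht))
  set N : ℕ := ⌊4 / δ⌋₊ with hN
  set S : Finset ℤ := (s.image f).erase 0 with hS
  have hSmem : ∀ k ∈ S, k ≠ 0 ∧ k.natAbs ≤ N := by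
    intro k hk
    rw [hS, Finset.mem_erase, Finset.mem_image] at hk
    obtain ⟨hk0, j, hj, rfl⟩ := hk
    refine ⟨hk0, Nat.le_floor ?_⟩
    have h1 := (hP j hj).hs
    have h2 := hPi.hs
    have h3 : |((f j : ℤ) : ℝ)| * δ ≤ 4 := by
      have e : |((f j : ℤ) : ℝ)| * δ = |(P j).k * δ - (P i).k * δ| := by
        have e' : (P j).k * δ - (P i).k * δ = ((f j : ℤ) : ℝ) * δ := by
          rw [hf]
          push_cast
          ring
        rw [e', abs_mul, abs_of_pos hδ]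
      rw [e]
      exact (abs_sub _ _).trans (by linarith)
    rw [le_div_iff₀ hδ]
    have e : (((f j).natAbs : ℕ) : ℝ) = |((f j : ℤ) : ℝ)| := by
      rw [Nat.cast_natAbs]
      push_cast
      rfl
    rw [e]
    exact h3
  have hrc := row_count v w γ hvd (fun r => (A r).deg1 _ _) (fun r => (A r).deg2 _ _) hδ hℓ hℓ1 hC1
    hL hpq hPi.hhi hα hβ S N hSmem J (fun k _ => hJmem k)
  have hos := one_slope v w γ hvd (fun r => (A r).deg1 _ _) (fun r => (A r).deg2 _ _) hδ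
    (ρ := δ / ℓ) (by positivity) hC1 (by positivity : 0 ≤ C1 * δ / ℓ ^ 2) hpq hα 0 (J 0) (hJmem 0)
  set M : ℝ := (2 * (C1 + 1) / ℓ + 1) ^ m with hM
  have hMe : (2 * ((C1 + 1) * (δ / ℓ) / δ) + 1) ^ m = M := by
    rw [hM]
    congr 2
    field_simp
  set N0 : ℝ := ((2 * D * m + 1 : ℕ) : ℝ) with hN0
  have hN00 : 0 ≤ N0 := by positivity
  have hM0 : 0 ≤ M := by positivity
  have h0 : ((J 0).card : ℝ) ≤ N0 * (1 + 2 * m * C1) * M := by
    rw [hMe] at hos
    refine hos.trans ?_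
    have h5 : 1 / (δ / ℓ) * (((P i).q - (P i).p) * (m * (C1 * δ / ℓ ^ 2))) ≤ 2 * m * C1 := by
      calc 1 / (δ / ℓ) * (((P i).q - (P i).p) * (m * (C1 * δ / ℓ ^ 2)))
          ≤ 1 / (δ / ℓ) * ((2 * ℓ) * (m * (C1 * δ / ℓ ^ 2))) := by
            gcongr
            exact hPi.hhi
        _ = 2 * m * C1 := by field_simp
    simp only [Int.cast_zero, abs_zero, zero_mul, add_zero]
    gcongr
  -- the sum over the slopes
  have hsum : ∑ j ∈ s, volume.real ((P i).E (P j) δ W) ≤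
      2 * ℓ * (J 0).card + 4 * W * ∑ k ∈ S, 1 / |(k : ℝ)| * (J k).card := by
    have e1 : ∑ j ∈ s, volume.real ((P i).E (P j) δ W) =
        ∑ j ∈ s', volume.real ((P i).E (P j) δ W) := by
      rw [hs', Finset.sum_filter]
      apply Finset.sum_congr rfl
      intro j _
      split_ifs with hj
      · rfl
      · rw [not_nonempty_iff_eq_empty.1 hj]; simp
    have e2 : ∑ j ∈ s', volume.real ((P i).E (P j) δ W) =
        ∑ k ∈ s.image f, ∑ j ∈ s'.filter fun j => f j = k, volume.real ((P i).E (P j) δ W) := by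
      rw [Finset.sum_fiberwise_of_maps_to]
      intro j hj
      exact Finset.mem_image_of_mem f (Finset.mem_filter.1 hj).1
    have h0mem : (0 : ℤ) ∈ s.image f := Finset.mem_image.2 ⟨i, hi, by simp [hf]⟩
    rw [e1, e2, ← Finset.add_sum_erase _ _ h0mem, Finset.mul_sum]
    refine add_le_add ?_ (Finset.sum_le_sum fun k hk => ?_)
    · calc ∑ j ∈ s'.filter fun j => f j = 0, volume.real ((P i).E (P j) δ W)
          ≤ ∑ _j ∈ s'.filter fun j => f j = 0, 2 * ℓ :=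
            Finset.sum_le_sum fun j _ => E_volume_le hPi hℓ
        _ = 2 * ℓ * (J 0).card := by
            rw [Finset.sum_const, hJcard, nsmul_eq_mul, mul_comm]
    · calc ∑ j ∈ s'.filter fun j => f j = k, volume.real ((P i).E (P j) δ W)
          ≤ ∑ _j ∈ s'.filter fun j => f j = k, 4 * W * (1 / |(k : ℝ)|) := by
            apply Finset.sum_le_sum
            intro j hj
            have hjk := (Finset.mem_filter.1 hj).2
            have hk0 := (hSmem k hk).1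
            rw [← hjk]
            apply E_volume_le' hδ hW
            rw [← hjk] at hk0
            exact hk0
        _ = 4 * W * (1 / |(k : ℝ)| * (J k).card) := by
            rw [Finset.sum_const, hJcard, nsmul_eq_mul]; ring
  have hlogN : Real.log N ≤ 2 + Real.log (1 / δ) := by
    have h1 : (0 : ℝ) < N := by
      have : 1 ≤ N := by
        rw [hN]
        apply Nat.le_floor
        rw [le_div_iff₀ hδ]
        push_cast
        linarith
      exact_mod_cast this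
    calc Real.log N ≤ Real.log (4 / δ) :=
          Real.log_le_log h1 (Nat.floor_le (by positivity))
      _ = Real.log 4 + Real.log (1 / δ) := by
          rw [← Real.log_mul (by norm_num) (by positivity)]
          congr 1
          ring
      _ ≤ 2 + Real.log (1 / δ) := by
          have h2 := Real.log_two_lt_d9
          have h3 : Real.log 4 = 2 * Real.log 2 := by
            rw [show (4 : ℝ) = 2 ^ 2 by norm_num, Real.log_pow]
            norm_num
          linarith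
  have hlog0 : 0 ≤ Real.log (1 / δ) := Real.log_nonneg (by
    rw [le_div_iff₀ hδ]; linarith)
  have hMle : M ≤ (2 * C1 + 3) ^ m / ℓ ^ m := by
    rw [hM, ← div_pow]
    apply pow_le_pow_left₀ (by positivity)
    rw [div_add_one hℓ.ne']
    apply div_le_div_of_nonneg_right _ hℓ.le
    linarith
  set lg := Real.log (1 / δ) with hlg
  calc ∑ j ∈ s, volume.real ((P i).E (P j) δ W)
      ≤ 2 * ℓ * (N0 * (1 + 2 * m * C1) * M) +
        4 * W * (N0 * (2 * (1 + Real.log N) * (1 + 2 * m * C1) + 2 * m * (8 * C1 + L)) * M) := by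
        refine hsum.trans ?_
        gcongr
    _ ≤ 2 * 1 * (N0 * (1 + 2 * m * C1) * M) +
        4 * W * (N0 * (2 * (1 + (2 + lg)) * (1 + 2 * m * C1) + 2 * m * (8 * C1 + L)) * M) := by
        gcongr
    _ = N0 * M * (2 * (1 + 2 * m * C1) +
        4 * W * (2 * (3 + lg) * (1 + 2 * m * C1) + 2 * m * (8 * C1 + L))) := by ring
    _ ≤ N0 * M * ((2 * (1 + 2 * m * C1) +
        4 * W * (6 * (1 + 2 * m * C1) + 2 * m * (8 * C1 + L))) * (1 + lg)) := by
        gcongr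
        have hm0 : (0 : ℝ) ≤ m := Nat.cast_nonneg m
        have t1 : 0 ≤ (1 + 2 * m * C1) * lg := by positivity
        have t2 : 0 ≤ W * (1 + 2 * m * C1) * lg := by positivity
        have t3 : 0 ≤ W * (2 * m * (8 * C1 + L)) * lg := by positivity
        nlinarith
    _ ≤ N0 * ((2 * C1 + 3) ^ m / ℓ ^ m) * ((2 * (1 + 2 * m * C1) +
        4 * W * (6 * (1 + 2 * m * C1) + 2 * m * (8 * C1 + L))) * (1 + lg)) := by
        gcongr
    _ = rowC m D K L W * (1 + lg) / ℓ ^ m := by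
        rw [rowC, ← hC1def, ← hN0]
        ring

end Pool.Agent.H28.SM
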