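import Mathlib

set_option autoImplicit false

/-!
# Kakeya near surfaces: semialgebraic subsets of the line are unions of few intervals
-/

open Set Polynomial

namespace Pool.Agent.H28.SM

theorem split_intervals {X : Set ℝ} (hX : IsClosed X) {u v : ℝ} (hXuv : X ⊆ Icc u v)
    (R : Finset ℝ)
    (h : ∀ s ∈ X, ∀ t ∈ X, s ≤ t → (∀ r ∈ R, ¬ (s < r ∧ r ≤ t)) → Icc s t ⊆ X) :
    ∃ p q : ℕ → ℝ, (∀ b, Icc (p b) (q b) ⊆ X) ∧
      ∀ t ∈ X, ∃ b < R.card + 1, t ∈ Icc (p b) (q b) := by
  classical
  set J : ℕ → Set ℝ := fun b => {t | t ∈ X ∧ (R.filter (fun r => r ≤ t)).card = b} with hJ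
  refine ⟨fun b => if (J b).Nonempty then sInf (J b) else 1,
    fun b => if (J b).Nonempty then sSup (J b) else 0, ?_, ?_⟩
  · intro b x hx
    by_cases hne : (J b).Nonempty
    · simp only [if_pos hne] at hx
      have hsub : J b ⊆ X := fun t ht => ht.1
      have hbb : BddBelow (J b) := ⟨u, fun t ht => (hXuv (hsub ht)).1⟩
      have hba : BddAbove (J b) := ⟨v, fun t ht => (hXuv (hsub ht)).2⟩
      have h1 : sInf (J b) ∈ X := hX.closure_subset_iff.2 hsub (csInf_mem_closure hne hbb)
      have h2 : sSup (J b) ∈ X := hX.closure_subset_iff.2 hsub (csSup_mem_closure hne hba)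
      rcases hx.1.eq_or_lt with h3 | h3
      · exact h3 ▸ h1
      rcases hx.2.eq_or_lt with h4 | h4
      · exact h4 ▸ h2
      obtain ⟨s, hs, hsx⟩ := exists_lt_of_csInf_lt hne h3
      obtain ⟨t, ht, hxt⟩ := exists_lt_of_lt_csSup hne h4
      refine h s hs.1 t ht.1 (hsx.trans hxt).le ?_ ⟨hsx.le, hxt.le⟩
      rintro r hr ⟨hr1, hr2⟩
      have h5 : (R.filter (fun r => r ≤ s)) ⊂ (R.filter (fun r => r ≤ t)) := by
        rw [Finset.ssubset_iff_of_subset]
        · refine ⟨r, Finset.mem_filter.2 ⟨hr, hr2⟩, ?_⟩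
          rw [Finset.mem_filter]
          rintro ⟨-, h6⟩
          linarith
        · intro z hz
          rw [Finset.mem_filter] at hz ⊢
          exact ⟨hz.1, hz.2.trans (hsx.trans hxt).le⟩
      have h6 := Finset.card_lt_card h5
      have h7 := hs.2
      have h8 := ht.2
      omega
    · simp only [if_neg hne] at hx
      exact absurd (hx.1.trans hx.2) (by norm_num)
  · intro t ht
    have hmem : t ∈ J (R.filter (fun r => r ≤ t)).card := ⟨ht, rfl⟩
    have hne : (J (R.filter (fun r => r ≤ t)).card).Nonempty := ⟨t, hmem⟩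
    refine ⟨(R.filter (fun r => r ≤ t)).card,
      Nat.lt_succ_of_le (Finset.card_le_card (Finset.filter_subset _ _)), ?_⟩
    simp only [if_pos hne]
    exact ⟨csInf_le ⟨u, fun t ht => (hXuv ht.1).1⟩ hmem,
      le_csSup ⟨v, fun t ht => (hXuv ht.1).2⟩ hmem⟩

/-- the set where finitely many polynomials are bounded by `B` is a union of few intervals -/
theorem split_poly {ι : Type*} [Fintype ι] {d : ℕ} (Q : ι → ℝ[X])
    (hQ : ∀ i, (Q i).natDegree ≤ d) (B u v : ℝ) :
    ∃ p q : ℕ → ℝ, (∀ b, ∀ t ∈ Icc (p b) (q b), t ∈ Icc u v ∧ ∀ i, |(Q i).eval t| ≤ B) ∧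
      ∀ t ∈ Icc u v, (∀ i, |(Q i).eval t| ≤ B) →
        ∃ b < 2 * d * Fintype.card ι + 1, t ∈ Icc (p b) (q b) := by
  classical
  set X : Set ℝ := {t | t ∈ Icc u v ∧ ∀ i, |(Q i).eval t| ≤ B} with hX
  set R : Finset ℝ := Finset.univ.biUnion fun i =>
    ((Q i - C B).roots.toFinset ∪ (Q i + C B).roots.toFinset) with hR
  have hclosed : IsClosed X := by
    have : X = Icc u v ∩ ⋂ i, {t | |(Q i).eval t| ≤ B} := by
      ext t; simp [hX]
    rw [this]
    refine isClosed_Icc.inter (isClosed_iInter fun i => ?_)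
    exact isClosed_le (Q i).continuous.abs continuous_const
  have hcard : R.card ≤ 2 * d * Fintype.card ι := by
    calc R.card ≤ ∑ i : ι, ((Q i - C B).roots.toFinset ∪ (Q i + C B).roots.toFinset).card :=
          Finset.card_biUnion_le
      _ ≤ ∑ _i : ι, 2 * d := by
          apply Finset.sum_le_sum
          intro i _
          refine (Finset.card_union_le _ _).trans ?_
          have h1 : (Q i - C B).roots.toFinset.card ≤ d := by
            refine (Multiset.toFinset_card_le _).trans ((Polynomial.card_roots' _).trans ?_)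
            exact (natDegree_sub_C).le.trans (hQ i)
          have h2 : (Q i + C B).roots.toFinset.card ≤ d := by
            refine (Multiset.toFinset_card_le _).trans ((Polynomial.card_roots' _).trans ?_)
            exact (natDegree_add_C).le.trans (hQ i)
          omega
      _ = 2 * d * Fintype.card ι := by
          rw [Finset.sum_const, Finset.card_univ, smul_eq_mul]; ring
  obtain ⟨p, q, h1, h2⟩ := split_intervals hclosed (u := u) (v := v) (fun t ht => ht.1) R (by
    intro s hs t ht hst hno w hw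
    refine ⟨⟨hs.1.1.trans hw.1, hw.2.trans ht.1.2⟩, fun i => ?_⟩
    by_contra hcon
    push Not at hcon
    have hsw : s < w := by
      rcases hw.1.eq_or_lt with h3 | h3
      · exact absurd (hs.2 i) (by rw [h3]; exact not_le.2 hcon)
      · exact h3
    have hc : ContinuousOn (fun t => |(Q i).eval t|) (Icc w t) := (Q i).continuous.abs.continuousOn
    obtain ⟨z, hz, hzB⟩ := intermediate_value_Icc' hw.2 hc ⟨ht.2 i, hcon.le⟩
    have hzB' : |(Q i).eval z| = B := hzB
    apply hno z _ ⟨lt_of_lt_of_le hsw hz.1, hz.2⟩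
    rw [hR, Finset.mem_biUnion]
    refine ⟨i, Finset.mem_univ _, ?_⟩
    rw [Finset.mem_union, Multiset.mem_toFinset, Multiset.mem_toFinset, mem_roots', mem_roots']
    rcases abs_choice ((Q i).eval z) with h4 | h4
    · left
      rw [h4] at hzB'
      refine ⟨fun h0 => ?_, by simp [IsRoot.def, hzB']⟩
      have h5 : (Q i).eval w = B := by
        have := congrArg (eval w) h0
        simpa [sub_eq_zero] using this
      rw [h5, ← hzB', ← h4, abs_abs] at hcon
      exact lt_irrefl _ hcon
    · right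
      rw [h4] at hzB'
      refine ⟨fun h0 => ?_, by simp [IsRoot.def, ← hzB']⟩
      have h5 : (Q i).eval w = -B := by
        have := congrArg (eval w) h0
        simp only [eval_add, eval_C, eval_zero] at this
        linarith
      rw [h5, abs_neg, ← hzB', ← h4, abs_abs] at hcon
      exact lt_irrefl _ hcon)
  refine ⟨p, q, fun b t ht => h1 b ht, fun t ht hti => ?_⟩
  obtain ⟨b, hb, hbt⟩ := h2 t ⟨ht, hti⟩
  exact ⟨b, by omega, hbt⟩

end Pool.Agent.H28.SM
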